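import Mathlib

/-!
# Definitions for rational points in character varieties of surface groups

Everything is stated in the classical language: a linear algebraic group over `ℚ` is a subgroup of
`GL_n(ℂ)` cut out by polynomials with rational coefficients in the matrix entries.
-/

set_option autoImplicit false

open scoped Manifold ContDiff Topology

noncomputable section

namespace Pool.Agent.H70.CharVar

/-- The relator `[a_1, b_1] ⋯ [a_g, b_g]` in the free group on the `2g` standard generators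
`a_i = (i, false)`, `b_i = (i, true)`. -/
def surfaceRelator (g : ℕ) : FreeGroup (Fin g × Bool) :=
  (List.ofFn fun i : Fin g => FreeGroup.of (i, false) * FreeGroup.of (i, true) *
    (FreeGroup.of (i, false))⁻¹ * (FreeGroup.of (i, true))⁻¹).prod

/-- The fundamental group of the closed orientable surface of genus `g`, in its standard
presentation `⟨a_1, b_1, …, a_g, b_g | [a_1, b_1] ⋯ [a_g, b_g]⟩`. -/
abbrev SurfaceGroup (g : ℕ) : Type :=
  PresentedGroup ({surfaceRelator g} : Set (FreeGroup (Fin g × Bool)))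

section Group

variable {ι : Type} [Fintype ι] [DecidableEq ι]

/-- A linear algebraic group defined over `ℚ`, of matrices indexed by `ι`: a subgroup of
`GL_ι(ℂ)` which is the set of common zeros in `GL_ι(ℂ)` of a set of polynomials with rational
coefficients in the matrix entries. -/
structure LinAlgGroup (ι : Type) [Fintype ι] [DecidableEq ι] where
  /-- the group of complex points -/
  complexPoints : Subgroup (GL ι ℂ)
  /-- it is cut out by polynomials with rational coefficients -/
  exists_equations : ∃ E : Set (MvPolynomial (ι × ι) ℚ), ∀ A : GL ι ℂ,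
    A ∈ complexPoints ↔ ∀ p ∈ E, MvPolynomial.aeval (fun k : ι × ι => A.1 k.1 k.2) p = 0

/-- A subset of `GL_ι(ℂ)` is Zariski closed if it is the set of common zeros in `GL_ι(ℂ)` of a set
of complex polynomials in the matrix entries. -/
def ZariskiClosed (S : Set (GL ι ℂ)) : Prop :=
  ∃ E : Set (MvPolynomial (ι × ι) ℂ),
    S = {A | ∀ p ∈ E, MvPolynomial.eval (fun k : ι × ι => A.1 k.1 k.2) p = 0}

/-- A subset of `GL_ι(ℂ)` is connected in the Zariski topology: it is nonempty and it is not the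
union of two disjoint, relatively closed, proper subsets. -/
def ZariskiConnected (S : Set (GL ι ℂ)) : Prop :=
  S.Nonempty ∧ ∀ Y Z : Set (GL ι ℂ), ZariskiClosed Y → ZariskiClosed Z →
    S ⊆ Y ∪ Z → S ∩ (Y ∩ Z) = ∅ → S ⊆ Y ∨ S ⊆ Z

namespace LinAlgGroup

/-- The algebraic group is connected. -/
def IsConnected (G : LinAlgGroup ι) : Prop :=
  ZariskiConnected (G.complexPoints : Set (GL ι ℂ))

/-- The algebraic group has trivial unipotent radical: every Zariski closed, connected, normal
subgroup of `G(ℂ)` all of whose elements are unipotent is trivial. -/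
def IsReductive (G : LinAlgGroup ι) : Prop :=
  ∀ U : Subgroup (GL ι ℂ), U ≤ G.complexPoints →
    (∀ g ∈ G.complexPoints, ∀ u ∈ U, g * u * g⁻¹ ∈ U) →
    ZariskiClosed (U : Set (GL ι ℂ)) → ZariskiConnected (U : Set (GL ι ℂ)) →
    (∀ u ∈ U, IsNilpotent ((u : Matrix ι ι ℂ) - 1)) → U = ⊥

/-- The group `G(ℝ)` of real points. -/
def realPoints (G : LinAlgGroup ι) : Subgroup (GL ι ℝ) :=
  G.complexPoints.comap (Matrix.GeneralLinearGroup.map (algebraMap ℝ ℂ))

/-- The group `G(ℚ)` of rational points. -/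
def rationalPoints (G : LinAlgGroup ι) : Subgroup (GL ι ℚ) :=
  G.complexPoints.comap (Matrix.GeneralLinearGroup.map (algebraMap ℚ ℂ))

/-- An element of `G(ℝ)` lies in `G(ℚ)`. -/
def IsRationalPoint (G : LinAlgGroup ι) (A : G.realPoints) : Prop :=
  ∃ B ∈ G.rationalPoints, Matrix.GeneralLinearGroup.map (algebraMap ℚ ℝ) B = (A : GL ι ℝ)

end LinAlgGroup

/-- A point of the representation space `Hom(π_1(S_g), G(ℝ))`. -/
@[ext]
structure RepSpace (g : ℕ) (G : LinAlgGroup ι) where
  /-- the homomorphism `π_1(S_g) → G(ℝ)` -/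
  toHom : SurfaceGroup g →* G.realPoints

variable {g : ℕ} {G : LinAlgGroup ι}

/-- The entries of the matrices `ρ(a_i), ρ(b_i)`: the coordinates of a representation `ρ` as a
point of the real algebraic set `Hom(π_1(S_g), G(ℝ)) ⊆ G(ℝ)^{2g}`. -/
def coords (ρ : RepSpace g G) : (Fin g × Bool) × ι × ι → ℝ := fun k =>
  (ρ.toHom (PresentedGroup.of k.1)).1.1 k.2.1 k.2.2

/-- `Hom(π_1(S_g), G(ℝ))` has the topology of a subset of `G(ℝ)^{2g}`. -/
instance : TopologicalSpace (RepSpace g G) := TopologicalSpace.induced coords inferInstance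

/-- The conjugate representation `h ρ h⁻¹`. -/
def conj (h : G.realPoints) (ρ : RepSpace g G) : RepSpace g G :=
  ⟨(MulAut.conj h).toMonoidHom.comp ρ.toHom⟩

/-- `Ω` is invariant under the conjugation action of `G(ℝ)`. -/
def IsInvariant (Ω : Set (RepSpace g G)) : Prop :=
  ∀ (h : G.realPoints), ∀ ρ ∈ Ω, conj h ρ ∈ Ω

/-- `Ω` is a Zariski open subset of the real algebraic set `Hom(π_1(S_g), G(ℝ))`: its complement is
the set of common zeros of a set of real polynomials in the coordinates. -/
def IsZariskiOpen (Ω : Set (RepSpace g G)) : Prop :=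
  ∃ E : Set (MvPolynomial ((Fin g × Bool) × ι × ι) ℝ),
    Ω = {ρ | ∃ p ∈ E, MvPolynomial.eval (coords ρ) p ≠ 0}

/-- Two points of `Ω` are equivalent if they are conjugate under `G(ℝ)`. -/
def conjSetoid (Ω : Set (RepSpace g G)) : Setoid Ω where
  r ρ ρ' := ∃ h : G.realPoints, conj h ρ.1 = ρ'.1
  iseqv := by
    refine ⟨fun ρ => ⟨1, ?_⟩, ?_, ?_⟩
    · ext x
      simp [conj]
    · rintro ρ ρ' ⟨h, hh⟩
      refine ⟨h⁻¹, ?_⟩
      rw [← hh]
      refine RepSpace.ext (MonoidHom.ext fun x => ?_)
      simp [conj, mul_assoc]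
    · rintro ρ ρ' ρ'' ⟨h, hh⟩ ⟨k, hk⟩
      refine ⟨k * h, ?_⟩
      rw [← hk, ← hh]
      refine RepSpace.ext (MonoidHom.ext fun x => ?_)
      simp [conj, mul_assoc]

/-- The quotient `Ω / G(ℝ)`. -/
def CharQuotient (Ω : Set (RepSpace g G)) : Type := Quotient (conjSetoid Ω)

/-- `Ω / G(ℝ)` has the quotient topology. -/
instance (Ω : Set (RepSpace g G)) : TopologicalSpace (CharQuotient Ω) :=
  inferInstanceAs (TopologicalSpace (Quotient (conjSetoid Ω)))

/-- The projection `Ω → Ω / G(ℝ)`, `ρ ↦ [ρ]`. -/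
def CharQuotient.mk (Ω : Set (RepSpace g G)) (ρ : Ω) : CharQuotient Ω :=
  Quotient.mk (conjSetoid Ω) ρ

/-- A real valued function on `Ω` is smooth at `ρ` if near `ρ` it is the restriction of a smooth
function of the coordinates. -/
def SmoothOnReps (Ω : Set (RepSpace g G)) (f : Ω → ℝ) (ρ : Ω) : Prop :=
  ∃ F : ((Fin g × Bool) × ι × ι → ℝ) → ℝ, ContDiffAt ℝ ∞ F (coords ρ.1) ∧
    ∀ᶠ ρ' in 𝓝 ρ, f ρ' = F (coords ρ'.1)

/-- `Ω / G(ℝ)`, with the quotient topology, is a smooth manifold of dimension `d`: it is Hausdorff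
and second countable, and it has a smooth atlas modelled on `ℝ^d` whose smooth structure is the
quotient one, that is, a real function on `Ω / G(ℝ)` is smooth at `[ρ]` if and only if its
composition with the projection `Ω → Ω / G(ℝ)` is smooth at `ρ`. -/
def QuotientIsSmoothManifold (Ω : Set (RepSpace g G)) (d : ℕ) : Prop :=
  T2Space (CharQuotient Ω) ∧ SecondCountableTopology (CharQuotient Ω) ∧
    ∃ _ : ChartedSpace (EuclideanSpace ℝ (Fin d)) (CharQuotient Ω),
      IsManifold (𝓡 d) ∞ (CharQuotient Ω) ∧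
      ∀ (f : CharQuotient Ω → ℝ) (ρ : Ω),
        ContMDiffAt (𝓡 d) 𝓘(ℝ, ℝ) ∞ f (CharQuotient.mk Ω ρ) ↔
          SmoothOnReps Ω (f ∘ CharQuotient.mk Ω) ρ

/-- A class in `Ω / G(ℝ)` is rational if it is the class of a representation which is conjugate
under `G(ℝ)` into `G(ℚ)`. -/
def IsRationalClass (Ω : Set (RepSpace g G)) (x : CharQuotient Ω) : Prop :=
  ∃ ρ : Ω, CharQuotient.mk Ω ρ = x ∧ ∃ h : G.realPoints, ∀ γ : SurfaceGroup g,
    G.IsRationalPoint ((conj h ρ.1).toHom γ)

/-- Every representation in `Ω` has trivial centralizer in `G(ℂ)`. In particular `G(ℝ)` acts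
freely on `Ω`. -/
def HasTrivialCentralizers (Ω : Set (RepSpace g G)) : Prop :=
  ∀ ρ ∈ Ω, ∀ c ∈ G.complexPoints, (∀ γ : SurfaceGroup g,
    c * Matrix.GeneralLinearGroup.map (algebraMap ℝ ℂ) (ρ.toHom γ).1 =
      Matrix.GeneralLinearGroup.map (algebraMap ℝ ℂ) (ρ.toHom γ).1 * c) → c = 1

end Group

end Pool.Agent.H70.CharVar
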