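import Pool.Agent.H70.CharVar.Rot
import Pool.Agent.H70.CharVar.Defs

/-!
# The group: restriction of scalars of `SO_3` from `ℚ(√2)` to `ℚ`
-/

set_option autoImplicit false

open Matrix

noncomputable section

namespace Pool.Agent.H70.CharVar

/-- the index type -/
abbrev I6 : Type := Fin 3 ⊕ Fin 3

section Field

variable {K : Type*} [Field K] [CharZero K]

/-- The block matrix of the pair `(A, B)`: it represents `a + b √2` with `A = a + b s`,
`B = a - b s`. -/
def blk (s : K) (A B : Matrix (Fin 3) (Fin 3) K) : Matrix I6 I6 K :=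
  fromBlocks ((1 / 2 : K) • (A + B)) ((s / 2) • (A - B)) ((s / 4) • (A - B)) ((1 / 2 : K) • (A + B))

/-- first component -/
def prP (s : K) (g : Matrix I6 I6 K) : Matrix (Fin 3) (Fin 3) K :=
  Matrix.of fun i j => g (Sum.inl i) (Sum.inl j) + s * g (Sum.inr i) (Sum.inl j)

/-- second component -/
def prM (s : K) (g : Matrix I6 I6 K) : Matrix (Fin 3) (Fin 3) K :=
  Matrix.of fun i j => g (Sum.inl i) (Sum.inl j) - s * g (Sum.inr i) (Sum.inl j)

/-- membership in the group of `K`-points -/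
def InG (s : K) (g : Matrix I6 I6 K) : Prop :=
  ∃ A B : Matrix (Fin 3) (Fin 3) K, IsSO3 A ∧ IsSO3 B ∧ g = blk s A B

variable {s : K}

lemma blk_mul (hs : s ^ 2 = 2) (A B A' B' : Matrix (Fin 3) (Fin 3) K) :
    blk s A B * blk s A' B' = blk s (A * A') (B * B') := by
  have e1 : (s / 2) * (s / 4) = 1 / 4 := by
    field_simp
    linear_combination hs
  have e2 : (s / 4) * (s / 2) = 1 / 4 := by
    field_simp
    linear_combination hs
  have e3 : (1 / 2 : K) * (1 / 2) = 1 / 4 := by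
    field_simp
    norm_num
  rw [blk, blk, fromBlocks_multiply, blk]
  congr 1
  · rw [Matrix.smul_mul, Matrix.mul_smul, Matrix.smul_mul, Matrix.mul_smul, smul_smul, smul_smul,
      e1, e3]
    simp only [Matrix.add_mul, Matrix.mul_add, Matrix.sub_mul, Matrix.mul_sub]
    module
  · rw [Matrix.smul_mul, Matrix.mul_smul, Matrix.smul_mul, Matrix.mul_smul, smul_smul, smul_smul]
    simp only [Matrix.add_mul, Matrix.mul_add, Matrix.sub_mul, Matrix.mul_sub]
    module
  · rw [Matrix.smul_mul, Matrix.mul_smul, Matrix.smul_mul, Matrix.mul_smul, smul_smul, smul_smul]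
    simp only [Matrix.add_mul, Matrix.mul_add, Matrix.sub_mul, Matrix.mul_sub]
    module
  · rw [Matrix.smul_mul, Matrix.mul_smul, Matrix.smul_mul, Matrix.mul_smul, smul_smul, smul_smul,
      e2, e3]
    simp only [Matrix.add_mul, Matrix.mul_add, Matrix.sub_mul, Matrix.mul_sub]
    module

lemma blk_one : blk s 1 1 = (1 : Matrix I6 I6 K) := by
  have : (1 / 2 : K) • ((1 : Matrix (Fin 3) (Fin 3) K) + 1) = 1 := by
    rw [← two_smul K (1 : Matrix (Fin 3) (Fin 3) K), smul_smul, one_div, inv_mul_cancel₀ two_ne_zero,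
      one_smul]
  rw [blk, this, sub_self, smul_zero, smul_zero, fromBlocks_one]

lemma prP_blk (hs : s ^ 2 = 2) (A B : Matrix (Fin 3) (Fin 3) K) :
    prP s (blk s A B) = A := by
  ext i j
  simp only [prP, blk, of_apply, fromBlocks_apply₁₁, fromBlocks_apply₂₁, Matrix.add_apply,
    Matrix.sub_apply, Matrix.smul_apply, smul_eq_mul]
  field_simp
  linear_combination (2 * (A i j - B i j)) * hs

lemma prM_blk (hs : s ^ 2 = 2) (A B : Matrix (Fin 3) (Fin 3) K) :
    prM s (blk s A B) = B := by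
  ext i j
  simp only [prM, blk, of_apply, fromBlocks_apply₁₁, fromBlocks_apply₂₁, Matrix.add_apply,
    Matrix.sub_apply, Matrix.smul_apply, smul_eq_mul]
  field_simp
  linear_combination (- 2 * (A i j - B i j)) * hs

lemma blk_pr (hs : s ^ 2 = 2) {g : Matrix I6 I6 K}
    (h1 : ∀ i j, g (Sum.inr i) (Sum.inr j) = g (Sum.inl i) (Sum.inl j))
    (h3 : ∀ i j, g (Sum.inl i) (Sum.inr j) = 2 * g (Sum.inr i) (Sum.inl j)) :
    g = blk s (prP s g) (prM s g) := by
  ext i j
  rcases i with i | i <;> rcases j with j | j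
  · simp only [prP, prM, blk, of_apply, fromBlocks_apply₁₁, Matrix.add_apply, Matrix.sub_apply,
      Matrix.smul_apply, smul_eq_mul]
    field_simp
    ring
  · simp only [prP, prM, blk, of_apply, fromBlocks_apply₁₂, Matrix.add_apply, Matrix.sub_apply,
      Matrix.smul_apply, smul_eq_mul, h3]
    field_simp
    linear_combination (-2 * g (Sum.inr i) (Sum.inl j)) * hs
  · simp only [prP, prM, blk, of_apply, fromBlocks_apply₂₁, Matrix.add_apply, Matrix.sub_apply,
      Matrix.smul_apply, smul_eq_mul]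
    field_simp
    linear_combination (-2 * g (Sum.inr i) (Sum.inl j)) * hs
  · simp only [prP, prM, blk, of_apply, fromBlocks_apply₂₂, Matrix.add_apply, Matrix.sub_apply,
      Matrix.smul_apply, smul_eq_mul, h1]
    field_simp
    ring

lemma inG_iff (hs : s ^ 2 = 2) (g : Matrix I6 I6 K) :
    InG s g ↔ (∀ i j, g (Sum.inr i) (Sum.inr j) = g (Sum.inl i) (Sum.inl j)) ∧
      (∀ i j, g (Sum.inl i) (Sum.inr j) = 2 * g (Sum.inr i) (Sum.inl j)) ∧
      IsSO3 (prP s g) ∧ IsSO3 (prM s g) := by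
  constructor
  · rintro ⟨A, B, hA, hB, rfl⟩
    refine ⟨fun i j => rfl, fun i j => ?_, ?_, ?_⟩
    · simp only [blk, fromBlocks_apply₁₂, fromBlocks_apply₂₁, Matrix.sub_apply,
        Matrix.smul_apply, smul_eq_mul]
      field_simp
      ring
    · rw [prP_blk hs]; exact hA
    · rw [prM_blk hs]; exact hB
  · rintro ⟨h1, h3, hP, hM⟩
    exact ⟨_, _, hP, hM, blk_pr hs h1 h3⟩

lemma InG.blk_pr (hs : s ^ 2 = 2) {g : Matrix I6 I6 K} (h : InG s g) :
    g = blk s (prP s g) (prM s g) := by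
  obtain ⟨A, B, hA, hB, rfl⟩ := h
  rw [prP_blk hs, prM_blk hs]

lemma InG.isSO3P (hs : s ^ 2 = 2) {g : Matrix I6 I6 K} (h : InG s g) :
    IsSO3 (prP s g) := ((inG_iff hs g).mp h).2.2.1

lemma InG.isSO3M (hs : s ^ 2 = 2) {g : Matrix I6 I6 K} (h : InG s g) :
    IsSO3 (prM s g) := ((inG_iff hs g).mp h).2.2.2

lemma InG.mul (hs : s ^ 2 = 2) {g h : Matrix I6 I6 K} (hg : InG s g)
    (hh : InG s h) : InG s (g * h) := by
  obtain ⟨A, B, hA, hB, rfl⟩ := hg
  obtain ⟨A', B', hA', hB', rfl⟩ := hh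
  exact ⟨_, _, hA.mul hA', hB.mul hB', blk_mul hs _ _ _ _⟩

lemma InG.prP_mul (hs : s ^ 2 = 2) {g h : Matrix I6 I6 K} (hg : InG s g)
    (hh : InG s h) : prP s (g * h) = prP s g * prP s h := by
  obtain ⟨A, B, hA, hB, rfl⟩ := hg
  obtain ⟨A', B', hA', hB', rfl⟩ := hh
  rw [blk_mul hs, prP_blk hs, prP_blk hs, prP_blk hs]

lemma InG.prM_mul (hs : s ^ 2 = 2) {g h : Matrix I6 I6 K} (hg : InG s g)
    (hh : InG s h) : prM s (g * h) = prM s g * prM s h := by
  obtain ⟨A, B, hA, hB, rfl⟩ := hg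
  obtain ⟨A', B', hA', hB', rfl⟩ := hh
  rw [blk_mul hs, prM_blk hs, prM_blk hs, prM_blk hs]

lemma blk_mul_transpose (hs : s ^ 2 = 2) {A B : Matrix (Fin 3) (Fin 3) K}
    (hA : IsSO3 A) (hB : IsSO3 B) : blk s A B * blk s Aᵀ Bᵀ = 1 := by
  rw [blk_mul hs, hA.mul_transpose, hB.mul_transpose, blk_one]

/-- The group element attached to a pair of rotations. -/
def mkGL (hs : s ^ 2 = 2) {A B : Matrix (Fin 3) (Fin 3) K}
    (hA : IsSO3 A) (hB : IsSO3 B) : GL I6 K where
  val := blk s A B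
  inv := blk s Aᵀ Bᵀ
  val_inv := blk_mul_transpose hs hA hB
  inv_val := by rw [blk_mul hs, hA.1, hB.1, blk_one]

lemma inG_inv (hs : s ^ 2 = 2) {g : GL I6 K} (hg : InG s g.1) :
    (g⁻¹).1 = blk s (prP s g.1)ᵀ (prM s g.1)ᵀ := by
  have h1 : g.1 * blk s (prP s g.1)ᵀ (prM s g.1)ᵀ = 1 := by
    conv_lhs =>
      rw [hg.blk_pr hs]
    rw [prP_blk hs, prM_blk hs]
    exact blk_mul_transpose hs (hg.isSO3P hs) (hg.isSO3M hs)
  calc (g⁻¹).1 = (g⁻¹).1 * (g.1 * blk s (prP s g.1)ᵀ (prM s g.1)ᵀ) := by rw [h1, Matrix.mul_one]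
    _ = _ := by
      rw [← Matrix.mul_assoc]
      have : (g⁻¹).1 * g.1 = 1 := g.inv_mul
      rw [this, Matrix.one_mul]

lemma InG.inv (hs : s ^ 2 = 2) {g : GL I6 K} (hg : InG s g.1) :
    InG s (g⁻¹).1 :=
  ⟨_, _, (hg.isSO3P hs).transpose, (hg.isSO3M hs).transpose, inG_inv hs hg⟩

lemma InG.prP_inv (hs : s ^ 2 = 2) {g : GL I6 K} (hg : InG s g.1) :
    prP s (g⁻¹).1 = (prP s g.1)ᵀ := by
  rw [inG_inv hs hg, prP_blk hs]

lemma InG.prM_inv (hs : s ^ 2 = 2) {g : GL I6 K} (hg : InG s g.1) :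
    prM s (g⁻¹).1 = (prM s g.1)ᵀ := by
  rw [inG_inv hs hg, prM_blk hs]

lemma inG_one : InG s (1 : Matrix I6 I6 K) :=
  ⟨1, 1, isSO3_one, isSO3_one, (blk_one).symm⟩

/-- The subgroup of `K`-points. -/
def subG (s : K) (hs : s ^ 2 = 2) : Subgroup (GL I6 K) where
  carrier := {g | InG s g.1}
  mul_mem' := fun ha hb => InG.mul hs ha hb
  one_mem' := inG_one
  inv_mem' := fun ha => InG.inv hs ha

end Field

end Pool.Agent.H70.CharVar
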