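import Pool.Agent.H70.CharVar.Rational

/-!
# Centralizers are trivial
-/

set_option autoImplicit false

open Matrix Quaternion
open scoped Topology

noncomputable section

namespace Pool.Agent.H70.CharVar

lemma fix_of_commute {A X : Matrix (Fin 3) (Fin 3) ℂ} (hA : IsSO3 A) (h : A * X = X * A) :
    actQ A (qq X) = qq X := by
  rw [← qq_conj hA, h, Matrix.mul_assoc, hA.mul_transpose, Matrix.mul_one]

lemma actQ_subC (A : Matrix (Fin 3) (Fin 3) ℂ) (p q : ℍ[ℂ]) :
    actQ A (p - q) = actQ A p - actQ A q := by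
  ext <;> simp only [actQ_re, actQ_imI, actQ_imJ, actQ_imK, re_sub, imI_sub, imJ_sub, imK_sub] <;>
    ring

/-- A complex rotation commuting with two real rotations with independent axes is trivial. -/
lemma eq_one_of_commute {A : Matrix (Fin 3) (Fin 3) ℂ} (hA : IsSO3 A)
    {X Y : Matrix (Fin 3) (Fin 3) ℝ}
    (hX : A * X.map (algebraMap ℝ ℂ) = X.map (algebraMap ℝ ℂ) * A)
    (hY : A * Y.map (algebraMap ℝ ℂ) = Y.map (algebraMap ℝ ℂ) * A)
    (hn : normSq (nq (qq X) (qq Y)).im ≠ 0) : A = 1 := by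
  have h1 := fix_of_commute hA hX
  have h2 := fix_of_commute hA hY
  rw [qq_map] at h1 h2
  set z := qmap (algebraMap ℝ ℂ) (qq X) with hz
  set w := qmap (algebraMap ℝ ℂ) (qq Y) with hw
  have h3 : actQ A (z * w - w * z) = z * w - w * z := by
    rw [actQ_subC, actQ_mul hA, actQ_mul hA, h1, h2]
  set N := z * w - w * z with hN
  have N1 : N.imI = 2 * (z.imJ * w.imK - z.imK * w.imJ) := by
    rw [hN, imI_sub, imI_mul, imI_mul]; ring
  have N2 : N.imJ = 2 * (z.imK * w.imI - z.imI * w.imK) := by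
    rw [hN, imJ_sub, imJ_mul, imJ_mul]; ring
  have N3 : N.imK = 2 * (z.imI * w.imJ - z.imJ * w.imI) := by
    rw [hN, imK_sub, imK_mul, imK_mul]; ring
  set M : Matrix (Fin 3) (Fin 3) ℂ := !![z.imI, w.imI, N.imI; z.imJ, w.imJ, N.imJ;
    z.imK, w.imK, N.imK] with hM
  have a1 := congrArg (fun q : ℍ[ℂ] => q.imI) h1
  have a2 := congrArg (fun q : ℍ[ℂ] => q.imJ) h1
  have a3 := congrArg (fun q : ℍ[ℂ] => q.imK) h1
  have b1 := congrArg (fun q : ℍ[ℂ] => q.imI) h2
  have b2 := congrArg (fun q : ℍ[ℂ] => q.imJ) h2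
  have b3 := congrArg (fun q : ℍ[ℂ] => q.imK) h2
  have c1 := congrArg (fun q : ℍ[ℂ] => q.imI) h3
  have c2 := congrArg (fun q : ℍ[ℂ] => q.imJ) h3
  have c3 := congrArg (fun q : ℍ[ℂ] => q.imK) h3
  simp only [actQ_imI, actQ_imJ, actQ_imK] at a1 a2 a3 b1 b2 b3 c1 c2 c3
  have hAM : A * M = M := by
    ext i j
    rw [Matrix.mul_apply, Fin.sum_univ_three]
    fin_cases i <;> fin_cases j
    · exact a1
    · exact b1
    · exact c1
    · exact a2
    · exact b2
    · exact c2
    · exact a3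
    · exact b3
    · exact c3
  have hdet : M.det ≠ 0 := by
    have e : M.det = ((2 * normSq (nq (qq X) (qq Y)).im : ℝ) : ℂ) := by
      rw [det_fin_three, normSq_im, nq_imI, nq_imJ, nq_imK]
      simp only [hM, of_apply, cons_val', cons_val_zero, cons_val_one, cons_val, cons_val_fin_one]
      rw [N1, N2, N3, hz, hw]
      simp only [qmap_imI, qmap_imJ, qmap_imK]
      push_cast
      simp only [Complex.coe_algebraMap]
      ring
    rw [e]
    exact_mod_cast mul_ne_zero two_ne_zero hn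
  have hunit : IsUnit M.det := isUnit_iff_ne_zero.mpr hdet
  calc A = A * (M * M⁻¹) := by rw [Matrix.mul_nonsing_inv _ hunit, Matrix.mul_one]
    _ = (A * M) * M⁻¹ := by rw [Matrix.mul_assoc]
    _ = 1 := by rw [hAM, Matrix.mul_nonsing_inv _ hunit]

variable {m : ℕ}

lemma gram_of_goodX {X : Fin (m + 2) × Bool → Matrix (Fin 3) (Fin 3) ℝ} (hX : GoodX X) :
    normSq (nq (qq (X (1, false))) (qq (X (1, true)))).im ≠ 0 := by
  have h := hX.2.gram
  rw [lift, lift, nq_smul, im_smul, normSq_smul] at h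
  exact right_ne_zero_of_mul h

/-- The centralizer in `G(ℂ)` of a representation in the open set is trivial. -/
theorem centralizer_trivial (ρ : RepSpace (m + 2) G0) (hρ : ρ ∈ Omega m) (c : GL I6 ℂ)
    (hc : c ∈ G0.complexPoints) (hcomm : ∀ γ, c *
      Matrix.GeneralLinearGroup.map (algebraMap ℝ ℂ) (ρ.toHom γ).1 =
      Matrix.GeneralLinearGroup.map (algebraMap ℝ ℂ) (ρ.toHom γ).1 * c) : c = 1 := by
  obtain ⟨A, B, hA, hB, hAB⟩ := hc
  have key : ∀ k, A * (tP ρ k).map (algebraMap ℝ ℂ) = (tP ρ k).map (algebraMap ℝ ℂ) * A ∧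
      B * (tM ρ k).map (algebraMap ℝ ℂ) = (tM ρ k).map (algebraMap ℝ ℂ) * B := by
    intro k
    have h1 := congrArg (fun u : GL I6 ℂ => u.1) (hcomm (PresentedGroup.of k))
    have h2 : (Matrix.GeneralLinearGroup.map (algebraMap ℝ ℂ)
        (ρ.toHom (PresentedGroup.of k)).1).1 =
        blk s2C ((tP ρ k).map (algebraMap ℝ ℂ)) ((tM ρ k).map (algebraMap ℝ ℂ)) := by
      rw [← map_blk]
      change ((ρ.toHom (PresentedGroup.of k)).1.1).map (algebraMap ℝ ℂ) = _
      rw [blk_pPM]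
      rfl
    simp only [Units.val_mul] at h1
    rw [h2, hAB, blk_mul s2C_sq, blk_mul s2C_sq] at h1
    constructor
    · have := congrArg (prP s2C) h1
      rwa [prP_blk s2C_sq, prP_blk s2C_sq] at this
    · have := congrArg (prM s2C) h1
      rwa [prM_blk s2C_sq, prM_blk s2C_sq] at this
  have hA1 : A = 1 := eq_one_of_commute hA (key _).1 (key _).1 (gram_of_goodX hρ.1)
  have hB1 : B = 1 := eq_one_of_commute hB (key _).2 (key _).2 (gram_of_goodX hρ.2)
  apply Units.ext
  rw [hAB, hA1, hB1, blk_one]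
  rfl

end Pool.Agent.H70.CharVar
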