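import Pool.Agent.H70.CharVar.GroupC

/-!
# The group is connected
-/

set_option autoImplicit false

open Matrix Quaternion

noncomputable section

namespace Pool.Agent.H70.CharVar

/-- complex rotations -/
def SO3C : Set (Matrix (Fin 3) (Fin 3) ℂ) := {A | IsSO3 A}

/-- the quaternion with scaled imaginary part -/
def qt (q : ℍ[ℂ]) (t : ℂ) : ℍ[ℂ] := ⟨q.re, t * q.imI, t * q.imJ, t * q.imK⟩

lemma qt_re (q : ℍ[ℂ]) (t : ℂ) : (qt q t).re = q.re := rfl
lemma qt_imI (q : ℍ[ℂ]) (t : ℂ) : (qt q t).imI = t * q.imI := rfl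
lemma qt_imJ (q : ℍ[ℂ]) (t : ℂ) : (qt q t).imJ = t * q.imJ := rfl
lemma qt_imK (q : ℍ[ℂ]) (t : ℂ) : (qt q t).imK = t * q.imK := rfl

lemma normSq_qt (q : ℍ[ℂ]) (t : ℂ) :
    normSq (qt q t) = q.re ^ 2 + t ^ 2 * (q.imI ^ 2 + q.imJ ^ 2 + q.imK ^ 2) := by
  rw [normSq_def', qt_re, qt_imI, qt_imJ, qt_imK]
  ring

lemma countable_bad (a c : ℂ) (ha : a ≠ 0) : {t : ℂ | a ^ 2 + t ^ 2 * c = 0}.Countable := by
  by_cases h : ∃ t₀ : ℂ, a ^ 2 + t₀ ^ 2 * c = 0
  · obtain ⟨t₀, h₀⟩ := h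
    have hc : c ≠ 0 := by
      rintro rfl
      rw [mul_zero, add_zero] at h₀
      exact ha (pow_eq_zero_iff two_ne_zero |>.mp h₀)
    refine Set.Countable.mono (s₂ := {t₀, -t₀}) ?_ (Set.Finite.countable (by simp))
    intro t ht
    rw [Set.mem_ofPred_eq] at ht
    have h1 : c * ((t - t₀) * (t + t₀)) = 0 := by linear_combination ht - h₀
    rcases mul_eq_zero.mp h1 with h2 | h2
    · exact absurd h2 hc
    · rcases mul_eq_zero.mp h2 with h3 | h3
      · left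
        exact sub_eq_zero.mp h3
      · right
        exact eq_neg_of_add_eq_zero_left h3
  · have : {t : ℂ | a ^ 2 + t ^ 2 * c = 0} = ∅ := by
      ext t
      simp only [Set.mem_ofPred_eq, Set.mem_empty_iff_false, iff_false]
      intro ht
      exact h ⟨t, ht⟩
    rw [this]
    exact Set.countable_empty

/-- The curve of rotations. -/
def curve (q : ℍ[ℂ]) (t : ℂ) : Matrix (Fin 3) (Fin 3) ℂ := (normSq (qt q t))⁻¹ • rotN (qt q t)

/-- good parameters -/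
def goodT (q : ℍ[ℂ]) : Set ℂ := {t | normSq (qt q t) ≠ 0}

lemma goodT_preconnected (q : ℍ[ℂ]) (hq : q.re ≠ 0) : IsPreconnected (goodT q) := by
  have h1 : goodT q = {t : ℂ | q.re ^ 2 + t ^ 2 * (q.imI ^ 2 + q.imJ ^ 2 + q.imK ^ 2) = 0}ᶜ := by
    ext t
    simp [goodT, normSq_qt]
  rw [h1]
  have h2 : (1 : Cardinal) < Module.rank ℝ ℂ := by
    rw [Complex.rank_real_complex]
    exact Cardinal.one_lt_two
  exact ((countable_bad _ _ hq).isPathConnected_compl_of_one_lt_rank h2).isConnected.isPreconnected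

lemma continuousOn_curve (q : ℍ[ℂ]) : ContinuousOn (curve q) (goodT q) := by
  have h0 : ContinuousOn (fun t => (normSq (qt q t))⁻¹) (goodT q) := by
    refine ContinuousOn.inv₀ ?_ (fun t ht => ht)
    simp only [normSq_qt]
    fun_prop
  refine ContinuousOn.smul h0 ?_
  refine continuousOn_pi.mpr fun i => continuousOn_pi.mpr fun j => ?_
  fin_cases i <;> fin_cases j <;> simp [rotN, qt_re, qt_imI, qt_imJ, qt_imK] <;> fun_prop

lemma isSO3_curve (q : ℍ[ℂ]) {t : ℂ} (ht : t ∈ goodT q) : IsSO3 (curve q t) := by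
  have h : normSq (qt q t) ≠ 0 := ht
  constructor
  · rw [curve, transpose_smul, Matrix.smul_mul, Matrix.mul_smul, rotN_transpose_mul, smul_smul,
      smul_smul, mul_assoc]
    have : (normSq (qt q t))⁻¹ * ((normSq (qt q t))⁻¹ * normSq (qt q t) ^ 2) = 1 := by field_simp
    rw [this, one_smul]
  · rw [curve, det_smul, det_rotN]
    simp only [Fintype.card_fin]
    rw [← mul_pow, inv_mul_cancel₀ h, one_pow]

lemma curve_zero (q : ℍ[ℂ]) (hq : q.re ≠ 0) : curve q 0 = 1 := by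
  have h : normSq (qt q 0) = q.re ^ 2 := by rw [normSq_qt]; ring
  rw [curve, h]
  ext i j
  fin_cases i <;> fin_cases j <;> simp [rotN, qt_re, qt_imI, qt_imJ, qt_imK, hq]

lemma zero_mem_goodT (q : ℍ[ℂ]) (hq : q.re ≠ 0) : (0 : ℂ) ∈ goodT q := by
  have h : normSq (qt q 0) = q.re ^ 2 := by rw [normSq_qt]; ring
  simp [goodT, h, hq]

lemma exists_conn_of_tr {A : Matrix (Fin 3) (Fin 3) ℂ} (hA : IsSO3 A)
    (h : 1 + (A 0 0 + A 1 1 + A 2 2) ≠ 0) :
    ∃ t ⊆ SO3C, (1 : Matrix (Fin 3) (Fin 3) ℂ) ∈ t ∧ A ∈ t ∧ IsPreconnected t := by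
  set q := qq A with hq
  have hre : q.re ≠ 0 := h
  have hq1 : qt q 1 = q := by
    ext
    · rfl
    · rw [qt_imI, one_mul]
    · rw [qt_imJ, one_mul]
    · rw [qt_imK, one_mul]
  have hN : normSq q = 4 * (1 + (A 0 0 + A 1 1 + A 2 2)) := normSq_qq hA
  have hN0 : normSq q ≠ 0 := by
    rw [hN]
    exact mul_ne_zero (by norm_num) h
  refine ⟨curve q '' goodT q, ?_, ?_, ?_, ?_⟩
  · rintro _ ⟨t, ht, rfl⟩
    exact isSO3_curve q ht
  · exact ⟨0, zero_mem_goodT q hre, curve_zero q hre⟩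
  · refine ⟨1, ?_, ?_⟩
    · simp only [goodT, Set.mem_ofPred_eq, hq1]
      exact hN0
    · rw [curve, hq1, hN, hq, rotN_qq hA, smul_smul, inv_mul_cancel₀, one_smul]
      exact mul_ne_zero (by norm_num) h
  · exact (goodT_preconnected q hre).image _ (continuousOn_curve q)

/-- quarter turns -/
def Rx : Matrix (Fin 3) (Fin 3) ℂ := !![1, 0, 0; 0, 0, -1; 0, 1, 0]
/-- quarter turns -/
def Ry : Matrix (Fin 3) (Fin 3) ℂ := !![0, 0, 1; 0, 1, 0; -1, 0, 0]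
/-- quarter turns -/
def Rz : Matrix (Fin 3) (Fin 3) ℂ := !![0, -1, 0; 1, 0, 0; 0, 0, 1]

lemma isSO3_Rx : IsSO3 Rx := by
  constructor
  · ext i j
    fin_cases i <;> fin_cases j <;> simp [Rx, Matrix.mul_apply, Fin.sum_univ_three]
  · rw [det_fin_three]; simp [Rx]
lemma isSO3_Ry : IsSO3 Ry := by
  constructor
  · ext i j
    fin_cases i <;> fin_cases j <;> simp [Ry, Matrix.mul_apply, Fin.sum_univ_three]
  · rw [det_fin_three]; simp [Ry]
lemma isSO3_Rz : IsSO3 Rz := by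
  constructor
  · ext i j
    fin_cases i <;> fin_cases j <;> simp [Rz, Matrix.mul_apply, Fin.sum_univ_three]
  · rw [det_fin_three]; simp [Rz]

lemma exists_turn {A : Matrix (Fin 3) (Fin 3) ℂ} (h : 1 + (A 0 0 + A 1 1 + A 2 2) = 0) :
    ∃ C : Matrix (Fin 3) (Fin 3) ℂ, IsSO3 C ∧ 1 + (Cᵀ 0 0 + Cᵀ 1 1 + Cᵀ 2 2) ≠ 0 ∧
      1 + ((A * C) 0 0 + (A * C) 1 1 + (A * C) 2 2) ≠ 0 := by
  by_contra hcon
  push Not at hcon
  have e1 := hcon Rx isSO3_Rx (by simp [Rx])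
  have e2 := hcon Rxᵀ isSO3_Rx.transpose (by simp [Rx])
  have e3 := hcon Ry isSO3_Ry (by simp [Ry])
  have e4 := hcon Ryᵀ isSO3_Ry.transpose (by simp [Ry])
  have e5 := hcon Rz isSO3_Rz (by simp [Rz])
  have e6 := hcon Rzᵀ isSO3_Rz.transpose (by simp [Rz])
  simp only [Matrix.mul_apply, Fin.sum_univ_three, transpose_apply] at e1 e2 e3 e4 e5 e6
  simp [Rx] at e1 e2
  simp [Ry] at e3 e4
  simp [Rz] at e5 e6
  have : (2 : ℂ) * 2 = 0 := by linear_combination e1 + e2 + e3 + e4 + e5 + e6 - 2 * h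
  norm_num at this

lemma SO3C_preconnected : IsPreconnected SO3C := by
  refine isPreconnected_of_forall 1 fun A hA => ?_
  by_cases h : 1 + (A 0 0 + A 1 1 + A 2 2) = 0
  · obtain ⟨C, hC, h1, h2⟩ := exists_turn h
    obtain ⟨t, ht1, ht2, ht3, ht4⟩ := exists_conn_of_tr hC.transpose h1
    obtain ⟨t', ht1', ht2', ht3', ht4'⟩ := exists_conn_of_tr (IsSO3.mul hA hC) h2
    have hcont : Continuous fun M : Matrix (Fin 3) (Fin 3) ℂ => M * Cᵀ :=
      continuous_id.matrix_mul continuous_const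
    refine ⟨t ∪ (fun M => M * Cᵀ) '' t', ?_, Or.inl ht2, Or.inr ⟨A * C, ht3', ?_⟩, ?_⟩
    · rintro M (hM | ⟨M', hM', rfl⟩)
      · exact ht1 hM
      · exact IsSO3.mul (ht1' hM') hC.transpose
    · simp only
      rw [Matrix.mul_assoc, hC.mul_transpose, Matrix.mul_one]
    · refine IsPreconnected.union Cᵀ ht3 ⟨1, ht2', ?_⟩ ht4 (ht4'.image _ hcont.continuousOn)
      simp
  · exact exists_conn_of_tr hA h

lemma SO3C_prod_preconnected : IsPreconnected (SO3C ×ˢ SO3C) :=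
  SO3C_preconnected.prod SO3C_preconnected

/-- The group `G0` is connected. -/
theorem G0_isConnected : G0.IsConnected := by
  refine ⟨⟨1, G0.complexPoints.one_mem⟩, ?_⟩
  rintro Y Z ⟨EY, rfl⟩ ⟨EZ, rfl⟩ hsub hdisj
  set Sm : Set (Matrix I6 I6 ℂ) := (fun p : Matrix (Fin 3) (Fin 3) ℂ × Matrix (Fin 3) (Fin 3) ℂ =>
    blk s2C p.1 p.2) '' (SO3C ×ˢ SO3C) with hSm
  have hpre : IsPreconnected Sm := by
    refine SO3C_prod_preconnected.image _ (Continuous.continuousOn ?_)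
    unfold blk
    refine Continuous.matrix_fromBlocks ?_ ?_ ?_ ?_ <;> fun_prop
  have hcl : ∀ E : Set (MvPolynomial (I6 × I6) ℂ), IsClosed {M : Matrix I6 I6 ℂ | ∀ p ∈ E,
      MvPolynomial.eval (fun k : I6 × I6 => M k.1 k.2) p = 0} := by
    intro E
    have : {M : Matrix I6 I6 ℂ | ∀ p ∈ E, MvPolynomial.eval (fun k : I6 × I6 => M k.1 k.2) p = 0} =
        ⋂ p ∈ E, {M : Matrix I6 I6 ℂ | MvPolynomial.eval (fun k : I6 × I6 => M k.1 k.2) p = 0} := by
      ext M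
      simp
    rw [this]
    refine isClosed_biInter fun p _ => isClosed_eq ?_ continuous_const
    refine (MvPolynomial.continuous_eval p).comp ?_
    exact continuous_pi fun k => (continuous_apply k.2).comp (continuous_apply k.1)
  rw [isPreconnected_closed_iff] at hpre
  have hmem : ∀ M ∈ Sm, ∃ g : GL I6 ℂ, g ∈ G0.complexPoints ∧ g.1 = M := by
    rintro _ ⟨⟨A, B⟩, ⟨hA, hB⟩, rfl⟩
    exact ⟨mkGL s2C_sq hA hB, ⟨A, B, hA, hB, rfl⟩, rfl⟩
  have hmem' : ∀ g ∈ G0.complexPoints, g.1 ∈ Sm := by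
    rintro g ⟨A, B, hA, hB, h⟩
    exact ⟨(A, B), ⟨hA, hB⟩, h.symm⟩
  have key := hpre _ _ (hcl EY) (hcl EZ) (by
    intro M hM
    obtain ⟨g, hg, rfl⟩ := hmem M hM
    exact hsub hg)
  by_contra hcon
  push Not at hcon
  obtain ⟨h1, h2⟩ := hcon
  rw [Set.not_subset] at h1 h2
  obtain ⟨g1, hg1, hn1⟩ := h1
  obtain ⟨g2, hg2, hn2⟩ := h2
  have k1 : (Sm ∩ {M : Matrix I6 I6 ℂ | ∀ p ∈ EY,
      MvPolynomial.eval (fun k : I6 × I6 => M k.1 k.2) p = 0}).Nonempty := by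
    refine ⟨g2.1, hmem' g2 hg2, ?_⟩
    rcases hsub hg2 with h | h
    · exact h
    · exact absurd h hn2
  have k2 : (Sm ∩ {M : Matrix I6 I6 ℂ | ∀ p ∈ EZ,
      MvPolynomial.eval (fun k : I6 × I6 => M k.1 k.2) p = 0}).Nonempty := by
    refine ⟨g1.1, hmem' g1 hg1, ?_⟩
    rcases hsub hg1 with h | h
    · exact absurd h hn1
    · exact h
  obtain ⟨M, hM, hMY, hMZ⟩ := key k1 k2
  obtain ⟨g, hg, rfl⟩ := hmem M hM
  have : g ∈ ((G0.complexPoints : Set (GL I6 ℂ)) ∩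
      ({A | ∀ p ∈ EY, MvPolynomial.eval (fun k : I6 × I6 => A.1 k.1 k.2) p = 0} ∩
        {A | ∀ p ∈ EZ, MvPolynomial.eval (fun k : I6 × I6 => A.1 k.1 k.2) p = 0})) :=
    ⟨hg, hMY, hMZ⟩
  rw [hdisj] at this
  exact this

end Pool.Agent.H70.CharVar
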