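import Pool.Agent.H70.CharVar.Block

/-!
# The algebraic group `R_{ℚ(√2)/ℚ} SO_3`
-/

set_option autoImplicit false

open Matrix

noncomputable section

namespace Pool.Agent.H70.CharVar

section Eqns

variable {R : Type*} [CommRing R]

/-- The `3 × 3` determinant with given rows. -/
def d3 (x y z : Fin 3 → R) : R :=
  x 0 * (y 1 * z 2 - y 2 * z 1) - x 1 * (y 0 * z 2 - y 2 * z 0) + x 2 * (y 0 * z 1 - y 1 * z 0)

/-- The rational part of `det (a + b √2)`. -/
def detP (a b : Fin 3 → Fin 3 → R) : R :=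
  d3 (a 0) (a 1) (a 2) + 2 * (d3 (a 0) (b 1) (b 2) + d3 (b 0) (a 1) (b 2) + d3 (b 0) (b 1) (a 2))

/-- The irrational part of `det (a + b √2)`. -/
def detQ (a b : Fin 3 → Fin 3 → R) : R :=
  d3 (b 0) (a 1) (a 2) + d3 (a 0) (b 1) (a 2) + d3 (a 0) (a 1) (b 2) + 2 * d3 (b 0) (b 1) (b 2)

/-- rational part of the Gram matrix of the columns -/
def gramP (a b : Fin 3 → Fin 3 → R) (i j : Fin 3) : R :=
  (a 0 i * a 0 j + a 1 i * a 1 j + a 2 i * a 2 j) +
    2 * (b 0 i * b 0 j + b 1 i * b 1 j + b 2 i * b 2 j)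

/-- irrational part of the Gram matrix of the columns -/
def gramQ (a b : Fin 3 → Fin 3 → R) (i j : Fin 3) : R :=
  (a 0 i * b 0 j + a 1 i * b 1 j + a 2 i * b 2 j) +
    (b 0 i * a 0 j + b 1 i * a 1 j + b 2 i * a 2 j)

variable {S : Type*} [CommRing S] (f : R →+* S)

lemma map_detP (a b : Fin 3 → Fin 3 → R) :
    f (detP a b) = detP (fun i j => f (a i j)) (fun i j => f (b i j)) := by
  have h2 : f 2 = 2 := map_ofNat f 2
  simp [detP, d3, h2]

lemma map_detQ (a b : Fin 3 → Fin 3 → R) :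
    f (detQ a b) = detQ (fun i j => f (a i j)) (fun i j => f (b i j)) := by
  have h2 : f 2 = 2 := map_ofNat f 2
  simp [detQ, d3, h2]

lemma map_gramP (a b : Fin 3 → Fin 3 → R) (i j : Fin 3) :
    f (gramP a b i j) = gramP (fun i j => f (a i j)) (fun i j => f (b i j)) i j := by
  have h2 : f 2 = 2 := map_ofNat f 2
  simp [gramP, h2]

lemma map_gramQ (a b : Fin 3 → Fin 3 → R) (i j : Fin 3) :
    f (gramQ a b i j) = gramQ (fun i j => f (a i j)) (fun i j => f (b i j)) i j := by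
  simp [gramQ]

end Eqns

section Field

variable {K : Type*} [Field K] [CharZero K] {s : K}

lemma transpose_mul_apply3 (X : Matrix (Fin 3) (Fin 3) K) (i j : Fin 3) :
    (Xᵀ * X) i j = X 0 i * X 0 j + X 1 i * X 1 j + X 2 i * X 2 j := by
  simp [Matrix.mul_apply, Fin.sum_univ_three]

lemma isSO3_pr_iff (hs : s ^ 2 = 2) (g : Matrix I6 I6 K) :
    (IsSO3 (prP s g) ∧ IsSO3 (prM s g)) ↔
      (∀ i j, gramP (fun i j => g (Sum.inl i) (Sum.inl j)) (fun i j => g (Sum.inr i) (Sum.inl j))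
        i j = if i = j then 1 else 0) ∧
      (∀ i j, gramQ (fun i j => g (Sum.inl i) (Sum.inl j)) (fun i j => g (Sum.inr i) (Sum.inl j))
        i j = 0) ∧
      detP (fun i j => g (Sum.inl i) (Sum.inl j)) (fun i j => g (Sum.inr i) (Sum.inl j)) = 1 ∧
      detQ (fun i j => g (Sum.inl i) (Sum.inl j)) (fun i j => g (Sum.inr i) (Sum.inl j)) = 0 := by
  set a : Fin 3 → Fin 3 → K := fun i j => g (Sum.inl i) (Sum.inl j) with ha
  set b : Fin 3 → Fin 3 → K := fun i j => g (Sum.inr i) (Sum.inl j) with hb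
  have hs0 : s ≠ 0 := by
    rintro rfl
    norm_num at hs
  have hP : ∀ i j, prP s g i j = a i j + s * b i j := fun i j => rfl
  have hM : ∀ i j, prM s g i j = a i j - s * b i j := fun i j => rfl
  have gP : ∀ i j, ((prP s g)ᵀ * prP s g) i j = gramP a b i j + s * gramQ a b i j := by
    intro i j
    rw [transpose_mul_apply3]
    simp only [hP, gramP, gramQ]
    linear_combination (b 0 i * b 0 j + b 1 i * b 1 j + b 2 i * b 2 j) * hs
  have gM : ∀ i j, ((prM s g)ᵀ * prM s g) i j = gramP a b i j - s * gramQ a b i j := by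
    intro i j
    rw [transpose_mul_apply3]
    simp only [hM, gramP, gramQ]
    linear_combination (b 0 i * b 0 j + b 1 i * b 1 j + b 2 i * b 2 j) * hs
  have dP : (prP s g).det = detP a b + s * detQ a b := by
    rw [det_fin_three]
    simp only [hP, detP, detQ, d3]
    linear_combination (a 0 0 * (b 1 1 * b 2 2 - b 1 2 * b 2 1) - a 0 1 * (b 1 0 * b 2 2 - b 1 2 *
      b 2 0) + a 0 2 * (b 1 0 * b 2 1 - b 1 1 * b 2 0) + (b 0 0 * (a 1 1 * b 2 2 - a 1 2 * b 2 1) -
      b 0 1 * (a 1 0 * b 2 2 - a 1 2 * b 2 0) + b 0 2 * (a 1 0 * b 2 1 - a 1 1 * b 2 0)) +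
      (b 0 0 * (b 1 1 * a 2 2 - b 1 2 * a 2 1) - b 0 1 * (b 1 0 * a 2 2 - b 1 2 * a 2 0) +
      b 0 2 * (b 1 0 * a 2 1 - b 1 1 * a 2 0)) + s * (b 0 0 * (b 1 1 * b 2 2 - b 1 2 * b 2 1) -
      b 0 1 * (b 1 0 * b 2 2 - b 1 2 * b 2 0) + b 0 2 * (b 1 0 * b 2 1 - b 1 1 * b 2 0))) * hs
  have dM : (prM s g).det = detP a b - s * detQ a b := by
    rw [det_fin_three]
    simp only [hM, detP, detQ, d3]
    linear_combination (a 0 0 * (b 1 1 * b 2 2 - b 1 2 * b 2 1) - a 0 1 * (b 1 0 * b 2 2 - b 1 2 *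
      b 2 0) + a 0 2 * (b 1 0 * b 2 1 - b 1 1 * b 2 0) + (b 0 0 * (a 1 1 * b 2 2 - a 1 2 * b 2 1) -
      b 0 1 * (a 1 0 * b 2 2 - a 1 2 * b 2 0) + b 0 2 * (a 1 0 * b 2 1 - a 1 1 * b 2 0)) +
      (b 0 0 * (b 1 1 * a 2 2 - b 1 2 * a 2 1) - b 0 1 * (b 1 0 * a 2 2 - b 1 2 * a 2 0) +
      b 0 2 * (b 1 0 * a 2 1 - b 1 1 * a 2 0)) - s * (b 0 0 * (b 1 1 * b 2 2 - b 1 2 * b 2 1) -
      b 0 1 * (b 1 0 * b 2 2 - b 1 2 * b 2 0) + b 0 2 * (b 1 0 * b 2 1 - b 1 1 * b 2 0))) * hs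
  have hone : ∀ i j : Fin 3, (1 : Matrix (Fin 3) (Fin 3) K) i j = if i = j then 1 else 0 :=
    fun i j => Matrix.one_apply
  constructor
  · rintro ⟨⟨h1, h2⟩, ⟨h3, h4⟩⟩
    rw [dP] at h2
    rw [dM] at h4
    refine ⟨fun i j => ?_, fun i j => ?_, ?_, ?_⟩
    · have e1 := gP i j
      have e2 := gM i j
      rw [h1, hone] at e1
      rw [h3, hone] at e2
      linear_combination (-1 / 2) * e1 - (1 / 2) * e2
    · have e1 := gP i j
      have e2 := gM i j
      rw [h1] at e1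
      rw [h3] at e2
      have : (2 * s) * gramQ a b i j = 0 := by linear_combination e2 - e1
      rcases mul_eq_zero.mp this with h | h
      · exact absurd h (mul_ne_zero two_ne_zero hs0)
      · exact h
    · linear_combination (1 / 2) * h2 + (1 / 2) * h4
    · have : (2 * s) * detQ a b = 0 := by linear_combination h2 - h4
      rcases mul_eq_zero.mp this with h | h
      · exact absurd h (mul_ne_zero two_ne_zero hs0)
      · exact h
  · rintro ⟨h1, h2, h3, h4⟩
    refine ⟨⟨?_, ?_⟩, ⟨?_, ?_⟩⟩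
    · ext i j
      rw [gP, h1, h2, hone]
      ring
    · rw [dP, h3, h4]; ring
    · ext i j
      rw [gM, h1, h2, hone]
      ring
    · rw [dM, h3, h4]; ring

end Field

section Equations

open MvPolynomial

/-- first block of variables -/
def aX (i j : Fin 3) : MvPolynomial (I6 × I6) ℚ := X (Sum.inl i, Sum.inl j)
/-- second block of variables -/
def bX (i j : Fin 3) : MvPolynomial (I6 × I6) ℚ := X (Sum.inr i, Sum.inl j)

/-- The equations of the group. -/
def eqnsG : Set (MvPolynomial (I6 × I6) ℚ) :=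
  {p | (∃ i j : Fin 3, p = X (Sum.inr i, Sum.inr j) - X (Sum.inl i, Sum.inl j)) ∨
    (∃ i j : Fin 3, p = X (Sum.inl i, Sum.inr j) - 2 * X (Sum.inr i, Sum.inl j)) ∨
    (∃ i j : Fin 3, p = gramP aX bX i j - (if i = j then 1 else 0)) ∨
    (∃ i j : Fin 3, p = gramQ aX bX i j) ∨ p = detP aX bX - 1 ∨ p = detQ aX bX}

lemma mem_eqns_iff {K : Type*} [Field K] [CharZero K] [Algebra ℚ K] {s : K} (hs : s ^ 2 = 2)
    (g : Matrix I6 I6 K) :
    InG s g ↔ ∀ p ∈ eqnsG, aeval (fun k : I6 × I6 => g k.1 k.2) p = 0 := by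
  rw [inG_iff hs, isSO3_pr_iff hs]
  set φ : MvPolynomial (I6 × I6) ℚ →ₐ[ℚ] K := aeval (fun k : I6 × I6 => g k.1 k.2) with hφ
  have hX : ∀ k, φ (X k) = g k.1 k.2 := fun k => by rw [hφ, aeval_X]
  have ea : (fun i j => φ (aX i j)) = fun i j => g (Sum.inl i) (Sum.inl j) := by
    funext i j
    exact hX _
  have eb : (fun i j => φ (bX i j)) = fun i j => g (Sum.inr i) (Sum.inl j) := by
    funext i j
    exact hX _
  have m1 : ∀ i j, φ (gramP aX bX i j) = gramP (fun i j => g (Sum.inl i) (Sum.inl j))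
      (fun i j => g (Sum.inr i) (Sum.inl j)) i j := by
    intro i j
    have := map_gramP φ.toRingHom aX bX i j
    rw [← ea, ← eb]
    exact this
  have m2 : ∀ i j, φ (gramQ aX bX i j) = gramQ (fun i j => g (Sum.inl i) (Sum.inl j))
      (fun i j => g (Sum.inr i) (Sum.inl j)) i j := by
    intro i j
    have := map_gramQ φ.toRingHom aX bX i j
    rw [← ea, ← eb]
    exact this
  have m3 : φ (detP aX bX) = detP (fun i j => g (Sum.inl i) (Sum.inl j))
      (fun i j => g (Sum.inr i) (Sum.inl j)) := by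
    have := map_detP φ.toRingHom aX bX
    rw [← ea, ← eb]
    exact this
  have m4 : φ (detQ aX bX) = detQ (fun i j => g (Sum.inl i) (Sum.inl j))
      (fun i j => g (Sum.inr i) (Sum.inl j)) := by
    have := map_detQ φ.toRingHom aX bX
    rw [← ea, ← eb]
    exact this
  have mite : ∀ i j : Fin 3, φ (if i = j then 1 else 0) = if i = j then 1 else 0 := by
    intro i j
    split_ifs <;> simp
  constructor
  · rintro ⟨h1, h2, h3, h4, h5, h6⟩ p (⟨i, j, rfl⟩ | ⟨i, j, rfl⟩ | ⟨i, j, rfl⟩ | ⟨i, j, rfl⟩ | rfl | rfl)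
    · rw [map_sub, hX, hX, h1, sub_self]
    · rw [map_sub, map_mul, hX, hX, h2, map_ofNat, sub_self]
    · rw [map_sub, m1, mite, h3, sub_self]
    · rw [m2, h4]
    · rw [map_sub, m3, h5, map_one, sub_self]
    · rw [m4, h6]
  · intro h
    refine ⟨fun i j => ?_, fun i j => ?_, fun i j => ?_, fun i j => ?_, ?_, ?_⟩
    · have := h _ (Or.inl ⟨i, j, rfl⟩)
      rw [map_sub, hX, hX] at this
      exact sub_eq_zero.mp this
    · have := h _ (Or.inr (Or.inl ⟨i, j, rfl⟩))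
      rw [map_sub, map_mul, hX, hX, map_ofNat] at this
      exact sub_eq_zero.mp this
    · have := h _ (Or.inr (Or.inr (Or.inl ⟨i, j, rfl⟩)))
      rw [map_sub, m1, mite] at this
      exact sub_eq_zero.mp this
    · have := h _ (Or.inr (Or.inr (Or.inr (Or.inl ⟨i, j, rfl⟩))))
      rw [m2] at this
      exact this
    · have := h _ (Or.inr (Or.inr (Or.inr (Or.inr (Or.inl rfl)))))
      rw [map_sub, m3, map_one] at this
      exact sub_eq_zero.mp this
    · have := h _ (Or.inr (Or.inr (Or.inr (Or.inr (Or.inr rfl)))))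
      rw [m4] at this
      exact this

end Equations

/-- `√2` as a complex number -/
def s2C : ℂ := ((Real.sqrt 2 : ℝ) : ℂ)

lemma s2C_sq : s2C ^ 2 = 2 := by
  rw [s2C, ← Complex.ofReal_pow, Real.sq_sqrt (by norm_num)]
  norm_num

lemma s2R_sq : Real.sqrt 2 ^ 2 = 2 := Real.sq_sqrt (by norm_num)

/-- The algebraic group `R_{ℚ(√2)/ℚ} SO_3`. -/
def G0 : LinAlgGroup I6 where
  complexPoints := subG s2C s2C_sq
  exists_equations := ⟨eqnsG, fun A => mem_eqns_iff s2C_sq A.1⟩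

end Pool.Agent.H70.CharVar
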