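import Mathlib

/-!
# Quotients with a global slice are manifolds
-/

set_option autoImplicit false

open scoped Manifold ContDiff Topology

noncomputable section

namespace Pool.Agent.H70.CharVar

section Slice

variable {Ω E V : Type*} [TopologicalSpace Ω] [NormedAddCommGroup E] [NormedSpace ℝ E]
  [NormedAddCommGroup V] [NormedSpace ℝ V] [FiniteDimensional ℝ V]

/-- The data of a smooth global slice for an equivalence relation on a subset `Ω` of a normed space
`E` (embedded by `c`). -/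
structure SliceData (s : Setoid Ω) (c : Ω → E) (W : Set V) (ψ : E → V) (S : V → E)
    (σ : W → Ω) : Prop where
  ind : Topology.IsInducing c
  openW : IsOpen W
  smoothψ : ∀ ρ, ContDiffAt ℝ ∞ ψ (c ρ)
  memW : ∀ ρ, ψ (c ρ) ∈ W
  smoothS : ∀ v ∈ W, ContDiffAt ℝ ∞ S v
  cσ : ∀ w : W, c (σ w) = S w
  ψS : ∀ w : W, ψ (S w) = w
  inv : ∀ ρ ρ', s.r ρ ρ' → ψ (c ρ) = ψ (c ρ')
  σψ : ∀ ρ, s.r (σ ⟨ψ (c ρ), memW ρ⟩) ρ
  act : ∀ ρ₀ ρ₁, s.r ρ₀ ρ₁ → ∃ (T : E → E) (τ : Ω → Ω), ContDiff ℝ ∞ T ∧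
    (∀ ρ, c (τ ρ) = T (c ρ)) ∧ (∀ ρ, s.r ρ (τ ρ)) ∧ τ ρ₀ = ρ₁

variable {s : Setoid Ω} {c : Ω → E} {W : Set V} {ψ : E → V} {S : V → E} {σ : W → Ω}

namespace SliceData

variable (h : SliceData s c W ψ S σ)

include h

lemma cont_ψc : Continuous fun ρ => ψ (c ρ) := by
  rw [continuous_iff_continuousAt]
  intro ρ
  exact ContinuousAt.comp (h.smoothψ ρ).continuousAt h.ind.continuous.continuousAt

lemma cont_σ : Continuous σ := by
  rw [h.ind.continuous_iff, continuous_iff_continuousAt]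
  intro w
  have h1 : (c ∘ σ) = fun w : W => S w := funext fun w => h.cσ w
  rw [h1]
  exact ContinuousAt.comp (h.smoothS w w.2).continuousAt continuous_subtype_val.continuousAt

/-- The quotient is homeomorphic to the open set `W`. -/
def homeo : Quotient s ≃ₜ W where
  toFun := Quotient.lift (fun ρ => (⟨ψ (c ρ), h.memW ρ⟩ : W))
    (fun ρ ρ' hr => Subtype.ext (h.inv ρ ρ' hr))
  invFun := fun w => Quotient.mk s (σ w)
  left_inv := by
    intro q
    induction q using Quotient.inductionOn with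
    | _ ρ => exact Quotient.sound (h.σψ ρ)
  right_inv := by
    intro w
    apply Subtype.ext
    simp only [Quotient.lift_mk]
    rw [h.cσ, h.ψS]
  continuous_toFun := by
    apply Continuous.quotient_lift
    exact Continuous.subtype_mk h.cont_ψc _
  continuous_invFun := continuous_quotient_mk'.comp h.cont_σ

lemma homeo_mk (ρ : Ω) : ((h.homeo (Quotient.mk s ρ) : W) : V) = ψ (c ρ) := rfl

lemma homeo_symm (w : W) : h.homeo.symm w = Quotient.mk s (σ w) := rfl

/-- The global chart. -/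
def chart {d : ℕ} (L : V ≃L[ℝ] EuclideanSpace ℝ (Fin d)) (q : Quotient s) :
    EuclideanSpace ℝ (Fin d) := L (h.homeo q : V)

lemma isOpenEmbedding_chart {d : ℕ} (L : V ≃L[ℝ] EuclideanSpace ℝ (Fin d)) :
    Topology.IsOpenEmbedding (h.chart L) := by
  have h1 : Topology.IsOpenEmbedding (Subtype.val : W → V) := h.openW.isOpenEmbedding_subtypeVal
  exact (L.toHomeomorph.isOpenEmbedding.comp h1).comp h.homeo.isOpenEmbedding

end SliceData

theorem quotient_isManifold [Nonempty Ω] {d : ℕ} (hd : Module.finrank ℝ V = d)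
    (h : SliceData s c W ψ S σ) :
    T2Space (Quotient s) ∧ SecondCountableTopology (Quotient s) ∧
    ∃ _ : ChartedSpace (EuclideanSpace ℝ (Fin d)) (Quotient s),
      IsManifold (𝓡 d) ∞ (Quotient s) ∧
      ∀ (f : Quotient s → ℝ) (ρ : Ω),
        ContMDiffAt (𝓡 d) 𝓘(ℝ, ℝ) ∞ f (Quotient.mk s ρ) ↔
          ∃ F : E → ℝ, ContDiffAt ℝ ∞ F (c ρ) ∧
            ∀ᶠ ρ' in 𝓝 ρ, f (Quotient.mk s ρ') = F (c ρ') := by
  obtain ⟨L⟩ : Nonempty (V ≃L[ℝ] EuclideanSpace ℝ (Fin d)) :=
    ⟨ContinuousLinearEquiv.ofFinrankEq (by simp [hd])⟩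
  have hne : Nonempty (Quotient s) := ⟨Quotient.mk s (Classical.arbitrary Ω)⟩
  have he := h.isOpenEmbedding_chart L
  refine ⟨he.isEmbedding.t2Space, he.isEmbedding.secondCountableTopology,
    he.singletonChartedSpace, he.isManifold_singleton, ?_⟩
  intro f ρ
  letI := he.singletonChartedSpace
  set e := he.toOpenPartialHomeomorph with hedef
  have hsymm : ∀ q, e.symm (h.chart L q) = q := by
    intro q
    exact he.toOpenPartialHomeomorph.left_inv (by simp)
  have hchart : ∀ q : Quotient s, chartAt (EuclideanSpace ℝ (Fin d)) q = e := fun q => rfl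
  have key : ContMDiffAt (𝓡 d) 𝓘(ℝ, ℝ) ∞ f (Quotient.mk s ρ) ↔
      ContinuousAt f (Quotient.mk s ρ) ∧
        ContDiffAt ℝ ∞ (f ∘ e.symm) (h.chart L (Quotient.mk s ρ)) := by
    rw [contMDiffAt_iff]
    simp only [extChartAt, hchart, mfld_simps]
    rw [contDiffWithinAt_univ]
    rfl
  rw [key]
  constructor
  · rintro ⟨-, h2⟩
    refine ⟨fun x => (f ∘ e.symm) (L (ψ x)), ?_, ?_⟩
    · have h3 : ContDiffAt ℝ ∞ (fun x => L (ψ x)) (c ρ) :=
        L.contDiff.contDiffAt.comp (c ρ) (h.smoothψ ρ)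
      exact ContDiffAt.comp (c ρ) (g := f ∘ e.symm) (f := fun x => L (ψ x)) h2 h3
    · refine Filter.Eventually.of_forall fun ρ' => ?_
      change f _ = f (e.symm (h.chart L (Quotient.mk s ρ')))
      rw [hsymm]
  · rintro ⟨F, hF, hev⟩
    -- transport to the slice
    set v₀ : W := ⟨ψ (c ρ), h.memW ρ⟩ with hv₀
    obtain ⟨T, τ, hT, hcτ, hrτ, hτ⟩ := h.act (σ v₀) ρ (h.σψ ρ)
    have hτc : Continuous τ := by
      rw [h.ind.continuous_iff]
      have : c ∘ τ = fun ρ => T (c ρ) := funext hcτ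
      rw [this]
      exact hT.continuous.comp h.ind.continuous
    have hev1 : ∀ᶠ ρ' in 𝓝 (σ v₀), f (Quotient.mk s ρ') = F (T (c ρ')) := by
      have h1 : Filter.Tendsto τ (𝓝 (σ v₀)) (𝓝 ρ) := by
        have := hτc.tendsto (σ v₀)
        rwa [hτ] at this
      filter_upwards [h1.eventually hev] with ρ' h2
      rw [← hcτ, ← h2]
      congr 1
      exact Quotient.sound (hrτ ρ')
    have hev2 : ∀ᶠ w in 𝓝 v₀, f (Quotient.mk s (σ w)) = F (T (S w)) := by
      have h1 : Filter.Tendsto σ (𝓝 v₀) (𝓝 (σ v₀)) := h.cont_σ.tendsto v₀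
      filter_upwards [h1.eventually hev1] with w h2
      rw [h2, h.cσ]
    have hev3 : ∀ᶠ v in 𝓝 (v₀ : V), (f ∘ e.symm) (L v) = F (T (S v)) := by
      have h1 : ∀ᶠ v in 𝓝 (v₀ : V), v ∈ W := h.openW.mem_nhds v₀.2
      have h2 : ∀ᶠ v in 𝓝 (v₀ : V), ∀ hv : v ∈ W,
          f (Quotient.mk s (σ ⟨v, hv⟩)) = F (T (S v)) := by
        rw [nhds_subtype_eq_comap, Filter.eventually_comap] at hev2
        filter_upwards [hev2] with v h3 hv
        exact h3 ⟨v, hv⟩ rfl
      filter_upwards [h1, h2] with v h3 h4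
      have h5 : L v = h.chart L (Quotient.mk s (σ ⟨v, h3⟩)) := by
        change L v = L _
        rw [h.homeo_mk, h.cσ, h.ψS]
      rw [Function.comp_apply, h5, hsymm, h4 h3]
    have hsmooth : ContDiffAt ℝ ∞ (fun v => F (T (S v))) (v₀ : V) := by
      have h1 : ContDiffAt ℝ ∞ (fun v => T (S v)) (v₀ : V) :=
        hT.contDiffAt.comp _ (h.smoothS v₀ v₀.2)
      refine ContDiffAt.comp (v₀ : V) (g := F) (f := fun v => T (S v)) ?_ h1
      have h2 : T (S v₀) = c ρ := by rw [← h.cσ, ← hcτ, hτ]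
      rw [h2]
      exact hF
    have hsmooth' : ContDiffAt ℝ ∞ (fun v => (f ∘ e.symm) (L v)) (v₀ : V) :=
      hsmooth.congr_of_eventuallyEq hev3
    have hL : ContDiffAt ℝ ∞ (f ∘ e.symm) (L (v₀ : V)) := by
      have h1 : (f ∘ e.symm) = (fun v => (f ∘ e.symm) (L v)) ∘ L.symm := by
        funext x
        simp
      rw [h1]
      refine ContDiffAt.comp _ ?_ L.symm.contDiff.contDiffAt
      simpa using hsmooth'
    have hcont : ContinuousAt f (Quotient.mk s ρ) := by
      have h1 : f = (f ∘ e.symm) ∘ (h.chart L) := by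
        funext q
        simp [hsymm]
      rw [h1]
      exact ContinuousAt.comp (g := f ∘ e.symm) (f := h.chart L)
        hL.continuousAt he.continuous.continuousAt
    exact ⟨hcont, hL⟩

end Slice

end Pool.Agent.H70.CharVar
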