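import Pool.Agent.H70.CharVar.Omega
import Pool.Agent.H70.CharVar.Slice

/-!
# The quotient is a manifold
-/

set_option autoImplicit false

open Matrix Quaternion
open scoped ContDiff Manifold Topology

noncomputable section

namespace Pool.Agent.H70.CharVar

variable {m : ℕ}

/-- good tuples of rotations -/
def GoodX (X : Fin (m + 2) × Bool → Matrix (Fin 3) (Fin 3) ℝ) : Prop :=
  (∀ k, 1 + tr3 (X k) ≠ 0) ∧ Good (fun k => lift (X k))

/-- The invariant open set. -/
def Omega (m : ℕ) : Set (RepSpace (m + 2) G0) := {ρ | GoodX (tP ρ) ∧ GoodX (tM ρ)}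

lemma GoodX.conj {A : Matrix (Fin 3) (Fin 3) ℝ} (hA : IsSO3 A)
    {X : Fin (m + 2) × Bool → Matrix (Fin 3) (Fin 3) ℝ} (hX : GoodX X) :
    GoodX (fun k => A * X k * Aᵀ) := by
  constructor
  · intro k
    rw [tr3_conj hA]
    exact hX.1 k
  · have : (fun k => lift (A * X k * Aᵀ)) = actT A (fun k => lift (X k)) := by
      funext k
      exact lift_conj hA _
    rw [this]
    exact good_actT hA hX.2

lemma isInvariant_Omega : IsInvariant (Omega m) := by
  intro h ρ hρ
  constructor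
  · have : tP (conj h ρ) = fun k => pP h * tP ρ k * (pP h)ᵀ := funext fun k => tP_conj h ρ k
    rw [this]
    exact hρ.1.conj (isSO3_pP h)
  · have : tM (conj h ρ) = fun k => pM h * tM ρ k * (pM h)ᵀ := funext fun k => tM_conj h ρ k
    rw [this]
    exact hρ.2.conj (isSO3_pM h)

/-- the ambient coordinate space -/
abbrev EE (m : ℕ) : Type := (Fin (m + 2) × Bool) × I6 × I6 → ℝ

/-- first tuple from coordinates -/
def XP (x : EE m) : Fin (m + 2) × Bool → Matrix (Fin 3) (Fin 3) ℝ := fun k =>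
  Matrix.of fun i j => x (k, Sum.inl i, Sum.inl j) + s2 * x (k, Sum.inr i, Sum.inl j)
/-- second tuple from coordinates -/
def XM (x : EE m) : Fin (m + 2) × Bool → Matrix (Fin 3) (Fin 3) ℝ := fun k =>
  Matrix.of fun i j => x (k, Sum.inl i, Sum.inl j) - s2 * x (k, Sum.inr i, Sum.inl j)

lemma XP_coords (ρ : RepSpace (m + 2) G0) : XP (coords ρ) = tP ρ := rfl
lemma XM_coords (ρ : RepSpace (m + 2) G0) : XM (coords ρ) = tM ρ := rfl

/-- the invariant coordinates -/
def psiE (x : EE m) : PV m × PV m :=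
  (psi (fun k => lift (XP x k)), psi (fun k => lift (XM x k)))

/-- the section -/
def SE (v : PV m × PV m) : EE m := fun q =>
  blk s2 (rot (SS v.1 q.1)) (rot (SS v.2 q.1)) q.2.1 q.2.2

lemma XP_SE (v : PV m × PV m) : XP (SE v) = fun k => rot (SS v.1 k) :=
  funext fun k => prP_blk s2R_sq (rot (SS v.1 k)) (rot (SS v.2 k))
lemma XM_SE (v : PV m × PV m) : XM (SE v) = fun k => rot (SS v.2 k) :=
  funext fun k => prM_blk s2R_sq (rot (SS v.1 k)) (rot (SS v.2 k))

lemma lift_rot_SS (v : PV m) : (fun k => lift (rot (SS v k))) = SS v :=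
  funext fun k => lift_rot (SS_re v k)

lemma SS_ne (v : PV m) (k : Fin (m + 2) × Bool) : SS v k ≠ 0 := ne_zero_of_re (SS_re v k)

lemma relProd_SS {v : PV m} (hv : v ∈ WW m) : relProd (fun k => rot (SS v k)) = 1 :=
  (cmProd_real_iff (SS_ne v)).mpr (good_SS hv).rel

lemma goodX_SS {v : PV m} (hv : v ∈ WW m) : GoodX (fun k => rot (SS v k)) := by
  constructor
  · intro k
    rw [one_add_tr3_rot (SS_re v k)]
    have h : normSq (SS v k) ≠ 0 := normSq_ne_zero.mpr (SS_ne v k)
    positivity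
  · rw [lift_rot_SS]
    exact good_SS hv

/-- the representation with given parameters -/
def sigma (w : (WW m ×ˢ WW m : Set (PV m × PV m))) : Omega m :=
  ⟨mkRep (fun k => isSO3_rot (SS_ne w.1.1 k)) (fun k => isSO3_rot (SS_ne w.1.2 k))
    (relProd_SS w.2.1) (relProd_SS w.2.2), by
    rw [Omega, Set.mem_ofPred_eq, tP_mkRep, tM_mkRep]
    exact ⟨goodX_SS w.2.1, goodX_SS w.2.2⟩⟩

lemma coords_sigma (w : (WW m ×ˢ WW m : Set (PV m × PV m))) :
    coords (sigma w).1 = SE w.1 := by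
  funext q
  simp only [coords, sigma]
  rw [mkRep_of]
  rfl

lemma smooth_XP (x : EE m) (k : Fin (m + 2) × Bool) (i j : Fin 3) :
    ContDiffAt ℝ ∞ (fun y : EE m => XP y k i j) x := by
  have : (fun y : EE m => XP y k i j) = fun y => y (k, Sum.inl i, Sum.inl j) +
    s2 * y (k, Sum.inr i, Sum.inl j) := rfl
  rw [this]
  fun_prop

lemma smooth_XM (x : EE m) (k : Fin (m + 2) × Bool) (i j : Fin 3) :
    ContDiffAt ℝ ∞ (fun y : EE m => XM y k i j) x := by
  have : (fun y : EE m => XM y k i j) = fun y => y (k, Sum.inl i, Sum.inl j) -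
    s2 * y (k, Sum.inr i, Sum.inl j) := rfl
  rw [this]
  fun_prop

lemma smooth_psiE {x : EE m} (h1 : GoodX (XP x)) (h2 : GoodX (XM x)) :
    ContDiffAt ℝ ∞ psiE x :=
  ContDiffAt.prodMk
    (smooth_psi (U := fun y k => lift (XP y k))
      (fun k => smooth_lift (fun i j => smooth_XP x k i j) (h1.1 k)) h1.2)
    (smooth_psi (U := fun y k => lift (XM y k))
      (fun k => smooth_lift (fun i j => smooth_XM x k i j) (h2.1 k)) h2.2)

lemma smooth_SE {v : PV m × PV m} (h1 : v.1 ∈ WW m) (h2 : v.2 ∈ WW m) :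
    ContDiffAt ℝ ∞ SE v := by
  rw [contDiffAt_pi]
  rintro ⟨k, i, j⟩
  have a : ∀ i j, ContDiffAt ℝ ∞ (fun w : PV m × PV m => rot (SS w.1 k) i j) v := fun i j =>
    smooth_rot (f := fun w : PV m × PV m => SS w.1 k)
      (ContDiffAt.comp (g := fun w : PV m => SS w k) (f := fun w : PV m × PV m => w.1) v
        (smooth_SS h1 k) contDiffAt_fst) (SS_ne _ _) i j
  have b : ∀ i j, ContDiffAt ℝ ∞ (fun w : PV m × PV m => rot (SS w.2 k) i j) v := fun i j =>
    smooth_rot (f := fun w : PV m × PV m => SS w.2 k)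
      (ContDiffAt.comp (g := fun w : PV m => SS w k) (f := fun w : PV m × PV m => w.2) v
        (smooth_SS h2 k) contDiffAt_snd) (SS_ne _ _) i j
  rcases i with i | i <;> rcases j with j | j
  · exact ((a i j).add (b i j)).const_smul (1 / 2 : ℝ)
  · exact ((a i j).sub (b i j)).const_smul (s2 / 2 : ℝ)
  · exact ((a i j).sub (b i j)).const_smul (s2 / 4 : ℝ)
  · exact ((a i j).add (b i j)).const_smul (1 / 2 : ℝ)

/-- the linear conjugation map on coordinates -/
def conjE (h : G0.realPoints) (x : EE m) : EE m := fun q =>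
  ∑ b, (∑ a, h.1.1 q.2.1 a * x (q.1, a, b)) * (h⁻¹).1.1 b q.2.2

lemma coords_conj (h : G0.realPoints) (ρ : RepSpace (m + 2) G0) :
    coords (conj h ρ) = conjE h (coords ρ) := by
  funext q
  obtain ⟨k, i, j⟩ := q
  change (h.1.1 * (ρ.toHom (PresentedGroup.of k)).1.1 * (h⁻¹).1.1) i j = _
  simp only [Matrix.mul_apply]
  rfl

lemma contDiff_conjE (h : G0.realPoints) : ContDiff ℝ ∞ (conjE (m := m) h) := by
  unfold conjE
  fun_prop

/-- rotating the tuple into its normal form -/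
lemma rot_SS_psi {X : Fin (m + 2) × Bool → Matrix (Fin 3) (Fin 3) ℝ} (hS : ∀ k, IsSO3 (X k))
    (hX : GoodX X) (k : Fin (m + 2) × Bool) :
    rot (SS (psi (fun k => lift (X k))) k) =
      frT (fun k => lift (X k)) * X k * (frT (fun k => lift (X k)))ᵀ := by
  have hF := isSO3_frT hX.2
  rw [SS_psi hX.2, actT, ← lift_conj hF, rot_lift ((hF.mul (hS k)).mul hF.transpose)]
  rw [tr3_conj hF]
  exact hX.1 k

theorem sliceData (m : ℕ) : SliceData (conjSetoid (Omega m)) (fun ρ : Omega m => coords ρ.1)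
    (WW m ×ˢ WW m) psiE SE sigma where
  ind := by
    have h1 : Topology.IsInducing (coords : RepSpace (m + 2) G0 → _) := ⟨rfl⟩
    exact h1.comp Topology.IsInducing.subtypeVal
  openW := isOpen_WW.prod isOpen_WW
  smoothψ ρ := smooth_psiE ρ.2.1 ρ.2.2
  memW ρ := ⟨psi_mem ρ.2.1.2, psi_mem ρ.2.2.2⟩
  smoothS v hv := smooth_SE hv.1 hv.2
  cσ w := coords_sigma w
  ψS w := by
    rw [psiE, XP_SE, XM_SE, lift_rot_SS, lift_rot_SS, psi_SS w.2.1, psi_SS w.2.2]
  inv ρ ρ' := by
    rintro ⟨h, hh⟩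
    rw [← hh, psiE, psiE, XP_coords, XM_coords, XP_coords, XM_coords]
    have e1 : (fun k => lift (tP (conj h ρ.1) k)) = actT (pP h) (fun k => lift (tP ρ.1 k)) := by
      funext k
      rw [tP_conj]
      exact lift_conj (isSO3_pP h) _
    have e2 : (fun k => lift (tM (conj h ρ.1) k)) = actT (pM h) (fun k => lift (tM ρ.1 k)) := by
      funext k
      rw [tM_conj]
      exact lift_conj (isSO3_pM h) _
    rw [e1, e2, psi_actT (isSO3_pP h), psi_actT (isSO3_pM h)]
  σψ ρ := by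
    apply (conjSetoid (Omega m)).symm
    have hP := isSO3_frT ρ.2.1.2
    have hM := isSO3_frT ρ.2.2.2
    refine ⟨mkR hP hM, ?_⟩
    apply rep_ext
    · funext k
      rw [tP_conj, pP_mkR, sigma]
      simp only
      rw [tP_mkRep]
      exact (rot_SS_psi (isSO3_tP ρ.1) ρ.2.1 k).symm
    · funext k
      rw [tM_conj, pM_mkR, sigma]
      simp only
      rw [tM_mkRep]
      exact (rot_SS_psi (isSO3_tM ρ.1) ρ.2.2 k).symm
  act ρ₀ ρ₁ := by
    rintro ⟨h, hh⟩
    refine ⟨conjE h, fun ρ => ⟨conj h ρ.1, isInvariant_Omega h _ ρ.2⟩, contDiff_conjE h,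
      fun ρ => coords_conj h ρ.1, fun ρ => ⟨h, rfl⟩, Subtype.ext hh⟩

end Pool.Agent.H70.CharVar
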