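import Pool.Agent.H70.CharVar.Tuple

/-!
# Smoothness of the parametrization
-/

set_option autoImplicit false

open Quaternion Matrix
open scoped ContDiff

noncomputable section

namespace Pool.Agent.H70.CharVar

variable {E : Type*} [NormedAddCommGroup E] [NormedSpace ℝ E]

/-- real part as a linear map -/
def reL : ℍ[ℝ] →ₗ[ℝ] ℝ where
  toFun q := q.re
  map_add' _ _ := rfl
  map_smul' _ _ := rfl
/-- component as a linear map -/
def imIL : ℍ[ℝ] →ₗ[ℝ] ℝ where
  toFun q := q.imI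
  map_add' _ _ := rfl
  map_smul' _ _ := rfl
/-- component as a linear map -/
def imJL : ℍ[ℝ] →ₗ[ℝ] ℝ where
  toFun q := q.imJ
  map_add' _ _ := rfl
  map_smul' _ _ := rfl
/-- component as a linear map -/
def imKL : ℍ[ℝ] →ₗ[ℝ] ℝ where
  toFun q := q.imK
  map_add' _ _ := rfl
  map_smul' _ _ := rfl

/-- The quaternion with given components. -/
def mkH (a b c d : ℝ) : ℍ[ℝ] := ⟨a, b, c, d⟩

lemma mkH_re (a b c d : ℝ) : (mkH a b c d).re = a := rfl
lemma mkH_imI (a b c d : ℝ) : (mkH a b c d).imI = b := rfl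
lemma mkH_imJ (a b c d : ℝ) : (mkH a b c d).imJ = c := rfl
lemma mkH_imK (a b c d : ℝ) : (mkH a b c d).imK = d := rfl

lemma quat_decomp (a b c d : ℝ) : mkH a b c d =
    a • mkH 1 0 0 0 + b • mkH 0 1 0 0 + c • mkH 0 0 1 0 + d • mkH 0 0 0 1 := by
  ext <;> simp only [re_add, re_smul, imI_add, imI_smul, imJ_add, imJ_smul, imK_add, imK_smul,
    smul_eq_mul, mkH_re, mkH_imI, mkH_imJ, mkH_imK] <;> ring

section lemmas

variable {f g : E → ℍ[ℝ]} {x : E}

lemma smooth_re (hf : ContDiffAt ℝ ∞ f x) : ContDiffAt ℝ ∞ (fun y => (f y).re) x :=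
  (reL.toContinuousLinearMap.contDiff.contDiffAt).comp x hf
lemma smooth_imI (hf : ContDiffAt ℝ ∞ f x) : ContDiffAt ℝ ∞ (fun y => (f y).imI) x :=
  (imIL.toContinuousLinearMap.contDiff.contDiffAt).comp x hf
lemma smooth_imJ (hf : ContDiffAt ℝ ∞ f x) : ContDiffAt ℝ ∞ (fun y => (f y).imJ) x :=
  (imJL.toContinuousLinearMap.contDiff.contDiffAt).comp x hf
lemma smooth_imK (hf : ContDiffAt ℝ ∞ f x) : ContDiffAt ℝ ∞ (fun y => (f y).imK) x :=
  (imKL.toContinuousLinearMap.contDiff.contDiffAt).comp x hf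

lemma smooth_mk {a b c d : E → ℝ} (ha : ContDiffAt ℝ ∞ a x) (hb : ContDiffAt ℝ ∞ b x)
    (hc : ContDiffAt ℝ ∞ c x) (hd : ContDiffAt ℝ ∞ d x) :
    ContDiffAt ℝ ∞ (fun y => mkH (a y) (b y) (c y) (d y)) x := by
  have e : (fun y => mkH (a y) (b y) (c y) (d y)) = fun y =>
      a y • mkH 1 0 0 0 + b y • mkH 0 1 0 0 + c y • mkH 0 0 1 0 + d y • mkH 0 0 0 1 :=
    funext fun y => quat_decomp _ _ _ _
  rw [e]
  exact (((ha.smul contDiffAt_const).add (hb.smul contDiffAt_const)).add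
    (hc.smul contDiffAt_const)).add (hd.smul contDiffAt_const)

lemma smooth_of_comp (h0 : ContDiffAt ℝ ∞ (fun y => (f y).re) x)
    (h1 : ContDiffAt ℝ ∞ (fun y => (f y).imI) x) (h2 : ContDiffAt ℝ ∞ (fun y => (f y).imJ) x)
    (h3 : ContDiffAt ℝ ∞ (fun y => (f y).imK) x) : ContDiffAt ℝ ∞ f x :=
  smooth_mk h0 h1 h2 h3

lemma smooth_im (hf : ContDiffAt ℝ ∞ f x) : ContDiffAt ℝ ∞ (fun y => (f y).im) x :=
  smooth_mk contDiffAt_const (smooth_imI hf) (smooth_imJ hf) (smooth_imK hf)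

lemma smooth_star (hf : ContDiffAt ℝ ∞ f x) : ContDiffAt ℝ ∞ (fun y => star (f y)) x :=
  smooth_of_comp (by simpa using smooth_re hf) (by simpa using (smooth_imI hf).neg)
    (by simpa using (smooth_imJ hf).neg) (by simpa using (smooth_imK hf).neg)

lemma smooth_normSq (hf : ContDiffAt ℝ ∞ f x) : ContDiffAt ℝ ∞ (fun y => normSq (f y)) x := by
  simp only [normSq_def']
  exact ((((smooth_re hf).pow 2).add ((smooth_imI hf).pow 2)).add ((smooth_imJ hf).pow 2)).add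
    ((smooth_imK hf).pow 2)

lemma smooth_mul (hf : ContDiffAt ℝ ∞ f x) (hg : ContDiffAt ℝ ∞ g x) :
    ContDiffAt ℝ ∞ (fun y => f y * g y) x := hf.mul hg

lemma smooth_inv (hf : ContDiffAt ℝ ∞ f x) (h : f x ≠ 0) :
    ContDiffAt ℝ ∞ (fun y => (f y)⁻¹) x := by
  simp only [Quaternion.inv_def]
  exact ((smooth_normSq hf).inv (normSq_ne_zero.mpr h)).smul (smooth_star hf)

lemma smooth_cm (hf : ContDiffAt ℝ ∞ f x) (hg : ContDiffAt ℝ ∞ g x) (h : f x ≠ 0) (h' : g x ≠ 0) :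
    ContDiffAt ℝ ∞ (fun y => cm (f y) (g y)) x :=
  smooth_mul (smooth_mul (smooth_mul hf hg) (smooth_inv hf h)) (smooth_inv hg h')

lemma smooth_cmProd {n : ℕ} {u : E → Fin n × Bool → ℍ[ℝ]}
    (hu : ∀ k, ContDiffAt ℝ ∞ (fun y => u y k) x) (h : ∀ k, u x k ≠ 0) :
    ContDiffAt ℝ ∞ (fun y => cmProd (u y)) x := by
  induction n with
  | zero =>
    have : (fun y => cmProd (u y)) = fun _ => 1 := by
      funext y
      simp [cmProd]
    rw [this]
    exact contDiffAt_const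
  | succ n ih =>
    simp only [cmProd_succ]
    refine smooth_mul (smooth_cm (hu _) (hu _) (h _) (h _)) ?_
    exact ih (u := fun y => tl (u y)) (fun k => hu _) (fun k => h _)

lemma smooth_nq (hf : ContDiffAt ℝ ∞ f x) (hg : ContDiffAt ℝ ∞ g x) :
    ContDiffAt ℝ ∞ (fun y => nq (f y) (g y)) x :=
  ((smooth_mul hf hg).sub (smooth_mul hg hf)).const_smul (1 / 2 : ℝ)

lemma smooth_len (hf : ContDiffAt ℝ ∞ f x) (h : normSq (f x).im ≠ 0) :
    ContDiffAt ℝ ∞ (fun y => len (f y)) x :=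
  (smooth_normSq (smooth_im hf)).sqrt h

lemma smooth_fr1 (hf : ContDiffAt ℝ ∞ f x) (h : normSq (f x).im ≠ 0) :
    ContDiffAt ℝ ∞ (fun y => fr1 (f y)) x :=
  ((smooth_len hf h).inv (len_pos h).ne').smul (smooth_im hf)

lemma smooth_fr2 (hf : ContDiffAt ℝ ∞ f x) (hg : ContDiffAt ℝ ∞ g x)
    (h : normSq (nq (f x) (g x)).im ≠ 0) :
    ContDiffAt ℝ ∞ (fun y => fr2 (f y) (g y)) x := by
  have h1 := normSq_nq_im_ne h
  exact (((smooth_len hf h1).inv (len_pos h1).ne').mul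
    ((smooth_len (smooth_nq hf hg) h).inv (len_pos h).ne')).smul
    (smooth_nq (smooth_nq hf hg) hf)

lemma smooth_fr3 (hf : ContDiffAt ℝ ∞ f x) (hg : ContDiffAt ℝ ∞ g x)
    (h : normSq (nq (f x) (g x)).im ≠ 0) :
    ContDiffAt ℝ ∞ (fun y => fr3 (f y) (g y)) x :=
  ((smooth_len (smooth_nq hf hg) h).inv (len_pos h).ne').smul (smooth_nq hf hg)

lemma smooth_frame (hf : ContDiffAt ℝ ∞ f x) (hg : ContDiffAt ℝ ∞ g x)
    (h : normSq (nq (f x) (g x)).im ≠ 0) (i j : Fin 3) :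
    ContDiffAt ℝ ∞ (fun y => frame (f y) (g y) i j) x := by
  have h1 := normSq_nq_im_ne h
  fin_cases i <;> fin_cases j
  · exact smooth_imI (smooth_fr1 hf h1)
  · exact smooth_imJ (smooth_fr1 hf h1)
  · exact smooth_imK (smooth_fr1 hf h1)
  · exact smooth_imI (smooth_fr2 hf hg h)
  · exact smooth_imJ (smooth_fr2 hf hg h)
  · exact smooth_imK (smooth_fr2 hf hg h)
  · exact smooth_imI (smooth_fr3 hf hg h)
  · exact smooth_imJ (smooth_fr3 hf hg h)
  · exact smooth_imK (smooth_fr3 hf hg h)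

lemma smooth_actQ {A : E → Matrix (Fin 3) (Fin 3) ℝ}
    (hA : ∀ i j, ContDiffAt ℝ ∞ (fun y => A y i j) x) (hf : ContDiffAt ℝ ∞ f x) :
    ContDiffAt ℝ ∞ (fun y => actQ (A y) (f y)) x :=
  smooth_mk (smooth_re hf)
    ((((hA _ _).mul (smooth_imI hf)).add ((hA _ _).mul (smooth_imJ hf))).add
      ((hA _ _).mul (smooth_imK hf)))
    ((((hA _ _).mul (smooth_imI hf)).add ((hA _ _).mul (smooth_imJ hf))).add
      ((hA _ _).mul (smooth_imK hf)))
    ((((hA _ _).mul (smooth_imI hf)).add ((hA _ _).mul (smooth_imJ hf))).add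
      ((hA _ _).mul (smooth_imK hf)))

lemma smooth_tf (hf : ContDiffAt ℝ ∞ f x) (hg : ContDiffAt ℝ ∞ g x) (h0 : f x ≠ 0)
    (h : normSq (g x + f x * g x * (f x)⁻¹).im ≠ 0) :
    ContDiffAt ℝ ∞ (fun y => tf (f y) (g y)) x := by
  have h1 : ContDiffAt ℝ ∞ (fun y => g y + f y * g y * (f y)⁻¹) x :=
    hg.add (smooth_mul (smooth_mul hf hg) (smooth_inv hf h0))
  refine ((smooth_normSq (smooth_im h1)).inv h).mul ?_
  exact (((smooth_imI hf).mul (smooth_imI h1)).add ((smooth_imJ hf).mul (smooth_imJ h1))).add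
    ((smooth_imK hf).mul (smooth_imK h1))

lemma smooth_lift {X : E → Matrix (Fin 3) (Fin 3) ℝ}
    (hX : ∀ i j, ContDiffAt ℝ ∞ (fun y => X y i j) x) (h : 1 + tr3 (X x) ≠ 0) :
    ContDiffAt ℝ ∞ (fun y => lift (X y)) x := by
  have h1 : ContDiffAt ℝ ∞ (fun y => 1 + tr3 (X y)) x :=
    contDiffAt_const.add (((hX _ _).add (hX _ _)).add (hX _ _))
  refine (h1.inv h).smul ?_
  exact smooth_mk (contDiffAt_const.add (((hX _ _).add (hX _ _)).add (hX _ _)))
    ((hX _ _).sub (hX _ _)) ((hX _ _).sub (hX _ _)) ((hX _ _).sub (hX _ _))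

lemma smooth_rot (hf : ContDiffAt ℝ ∞ f x) (h : f x ≠ 0) (i j : Fin 3) :
    ContDiffAt ℝ ∞ (fun y => rot (f y) i j) x := by
  have a := smooth_re hf
  have b := smooth_imI hf
  have c := smooth_imJ hf
  have d := smooth_imK hf
  have hN := (smooth_normSq hf).inv (normSq_ne_zero.mpr h)
  refine hN.mul ?_
  fin_cases i <;> fin_cases j
  · exact (((a.pow 2).add (b.pow 2)).sub (c.pow 2)).sub (d.pow 2)
  · exact contDiffAt_const.mul ((b.mul c).sub (a.mul d))
  · exact contDiffAt_const.mul ((b.mul d).add (a.mul c))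
  · exact contDiffAt_const.mul ((b.mul c).add (a.mul d))
  · exact (((a.pow 2).sub (b.pow 2)).add (c.pow 2)).sub (d.pow 2)
  · exact contDiffAt_const.mul ((c.mul d).sub (a.mul b))
  · exact contDiffAt_const.mul ((b.mul d).sub (a.mul c))
  · exact contDiffAt_const.mul ((c.mul d).add (a.mul b))
  · exact (((a.pow 2).sub (b.pow 2)).sub (c.pow 2)).add (d.pow 2)

end lemmas

variable {m : ℕ}

lemma smooth_fst (v : PV m) (i : Fin 6) : ContDiffAt ℝ ∞ (fun w : PV m => w.1 i) v := by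
  fun_prop

lemma smooth_snd (v : PV m) (k : Fin m × Bool) (i : Fin 3) :
    ContDiffAt ℝ ∞ (fun w : PV m => w.2 k i) v := by
  fun_prop

lemma smooth_abs0 {v : PV m} (hv : v.1 0 ≠ 0) :
    ContDiffAt ℝ ∞ (fun w : PV m => |w.1 0|) v :=
  ContDiffAt.comp (g := fun x : ℝ => |x|) (f := fun w : PV m => w.1 0) v (contDiffAt_abs hv)
    (smooth_fst v 0)

lemma smooth_sgn {v : PV m} (hv : v.1 0 ≠ 0) :
    ContDiffAt ℝ ∞ (fun w : PV m => sgn (w.1 0)) v :=
  (smooth_fst v 0).div (smooth_abs0 hv) (abs_ne_zero.mpr hv)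

lemma smooth_tailS {v : PV m} (hv : v.1 0 ≠ 0) (k : Fin (m + 1) × Bool) :
    ContDiffAt ℝ ∞ (fun w : PV m => tailS w k) v := by
  obtain ⟨i, b⟩ := k
  induction i using Fin.cases with
  | zero =>
    cases b
    · exact smooth_mk contDiffAt_const (smooth_abs0 hv) contDiffAt_const contDiffAt_const
    · exact smooth_mk contDiffAt_const (smooth_fst v 1) (smooth_fst v 2) contDiffAt_const
  | succ i =>
    exact smooth_mk contDiffAt_const (smooth_snd v _ _) (smooth_snd v _ _) (smooth_snd v _ _)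

lemma smooth_dS {v : PV m} (hv : v.1 0 ≠ 0) : ContDiffAt ℝ ∞ (fun w : PV m => dS w) v :=
  (smooth_sgn hv).smul (smooth_inv (smooth_cmProd (fun k => smooth_tailS hv k) (tailS_ne v))
    (cmProd_tailS_ne v))

lemma smooth_bS {v : PV m} (hv : v.1 0 ≠ 0) (h : (dS v).imI ≠ 0) :
    ContDiffAt ℝ ∞ (fun w : PV m => bS w) v := by
  have hd := smooth_dS hv
  exact smooth_mk contDiffAt_const
    (((((smooth_re hd).sub contDiffAt_const).sub ((smooth_imJ hd).mul (smooth_fst v 3))).sub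
      ((smooth_imK hd).mul (smooth_fst v 4))).div (smooth_imI hd) h)
    (smooth_fst v 3) (smooth_fst v 4)

lemma smooth_aS {v : PV m} (hv : v.1 0 ≠ 0) (h : (dS v).imI ≠ 0)
    (hp : normSq (bS v + dS v * bS v).im ≠ 0) : ContDiffAt ℝ ∞ (fun w : PV m => aS w) v := by
  have hd := smooth_dS hv
  have hb := smooth_bS hv h
  have hk := smooth_mul hd hb
  have hpp := smooth_im (hb.add hk)
  exact ((contDiffAt_const.add (((smooth_normSq hpp).inv hp).smul
    ((smooth_mul hb hk).sub (smooth_mul hk hb)))).add ((smooth_fst v 5).smul hpp))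

lemma smooth_SS {v : PV m} (hv : v ∈ WW m) (k : Fin (m + 2) × Bool) :
    ContDiffAt ℝ ∞ (fun w : PV m => SS w k) v := by
  obtain ⟨i, b⟩ := k
  induction i using Fin.cases with
  | zero =>
    cases b
    · exact smooth_aS hv.1 hv.2.2.1 hv.2.2.2
    · exact smooth_bS hv.1 hv.2.2.1
  | succ i => exact smooth_tailS hv.1 _

lemma isOpen_WW : IsOpen (WW m) := by
  rw [isOpen_iff_mem_nhds]
  intro v hv
  have h0 : ∀ᶠ w in nhds v, w.1 0 ≠ 0 :=
    (smooth_fst v 0).continuousAt.eventually_ne hv.1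
  have h1 : ∀ᶠ w in nhds v, 0 < w.1 2 :=
    (smooth_fst v 2).continuousAt.eventually_const_lt hv.2.1
  have h2 : ∀ᶠ w in nhds v, (dS w).imI ≠ 0 :=
    (smooth_imI (smooth_dS hv.1)).continuousAt.eventually_ne hv.2.2.1
  have h3 : ∀ᶠ w in nhds v, normSq (bS w + dS w * bS w).im ≠ 0 := by
    have hb := smooth_bS hv.1 hv.2.2.1
    exact (smooth_normSq (smooth_im
      (hb.add (smooth_mul (smooth_dS hv.1) hb)))).continuousAt.eventually_ne hv.2.2.2
  filter_upwards [h0, h1, h2, h3] with w a b c d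
  exact ⟨a, b, c, d⟩

lemma smooth_psi {U : E → Fin (m + 2) × Bool → ℍ[ℝ]} {x : E}
    (hU : ∀ k, ContDiffAt ℝ ∞ (fun y => U y k) x) (hG : Good (U x)) :
    ContDiffAt ℝ ∞ (fun y => psi (U y)) x := by
  have hF : ∀ i j, ContDiffAt ℝ ∞ (fun y => frT (U y) i j) x :=
    smooth_frame (hU _) (hU _) hG.gram
  have hT : ∀ k, ContDiffAt ℝ ∞ (fun y => actT (frT (U y)) (U y) k) x := fun k =>
    smooth_actQ hF (hU k)
  have hT0 : ∀ k, actT (frT (U x)) (U x) k ≠ 0 := fun k =>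
    ne_zero_of_re ((good_actT (isSO3_frT hG) hG).re k)
  have hmem := psi_mem hG
  have hSS := SS_psi hG
  have hcm : ContDiffAt ℝ ∞ (fun y => cmProd (actT (frT (U y)) (U y))) x :=
    smooth_cmProd hT hT0
  have htf : ContDiffAt ℝ ∞ (fun y => tf (actT (frT (U y)) (U y) (0, false))
      (actT (frT (U y)) (U y) (0, true))) x := by
    refine smooth_tf (hT _) (hT _) (hT0 _) ?_
    rw [← hSS]
    change normSq (bS (psi (U x)) + aS (psi (U x)) * bS (psi (U x)) *
      (aS (psi (U x)))⁻¹).im ≠ 0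
    rw [conj_eq (aS_ne _) (aS_mul_bS hmem)]
    exact hmem.2.2.2
  refine ContDiffAt.prodMk ?_ ?_
  · rw [contDiffAt_pi]
    intro i
    fin_cases i
    · exact (smooth_re hcm).mul (smooth_imI (hT _))
    · exact smooth_imI (hT _)
    · exact smooth_imJ (hT _)
    · exact smooth_imJ (hT _)
    · exact smooth_imK (hT _)
    · exact htf
  · rw [contDiffAt_pi]
    intro k
    rw [contDiffAt_pi]
    intro i
    fin_cases i
    · exact smooth_imI (hT _)
    · exact smooth_imJ (hT _)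
    · exact smooth_imK (hT _)

end Pool.Agent.H70.CharVar
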