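import Pool.Agent.H70.CharVar.GroupC
import Pool.Agent.H70.CharVar.Smooth

/-!
# The open set and its coordinates
-/

set_option autoImplicit false

open Matrix Quaternion

noncomputable section

namespace Pool.Agent.H70.CharVar

/-- `√2` -/
abbrev s2 : ℝ := Real.sqrt 2

lemma map_blk (A B : Matrix (Fin 3) (Fin 3) ℝ) :
    (blk s2 A B).map (algebraMap ℝ ℂ) = blk s2C (A.map (algebraMap ℝ ℂ)) (B.map (algebraMap ℝ ℂ)) := by
  ext i j
  rcases i with i | i <;> rcases j with j | j <;>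
    simp [blk, s2C]

lemma isSO3_map_iff (A : Matrix (Fin 3) (Fin 3) ℝ) :
    IsSO3 (A.map (algebraMap ℝ ℂ)) ↔ IsSO3 A := by
  have hinj : Function.Injective (algebraMap ℝ ℂ) := (algebraMap ℝ ℂ).injective
  constructor
  · rintro ⟨h1, h2⟩
    constructor
    · apply Matrix.map_injective hinj
      simp only
      rw [Matrix.map_mul, Matrix.transpose_map, h1, Matrix.map_one _ (map_zero _) (map_one _)]
    · apply hinj
      rw [map_one, ← h2, RingHom.map_det]
      rfl
  · rintro ⟨h1, h2⟩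
    constructor
    · rw [← Matrix.transpose_map, ← Matrix.map_mul, h1, Matrix.map_one _ (map_zero _) (map_one _)]
    · have := RingHom.map_det (algebraMap ℝ ℂ) A
      rw [h2, map_one] at this
      exact this.symm

lemma mem_realPoints_iff (g : GL I6 ℝ) : g ∈ G0.realPoints ↔ InG s2 g.1 := by
  have e : ∀ g : GL I6 ℝ, (Matrix.GeneralLinearGroup.map (algebraMap ℝ ℂ) g).1 =
    g.1.map (algebraMap ℝ ℂ) := fun g => rfl
  constructor
  · intro h
    have h' : InG s2C (g.1.map (algebraMap ℝ ℂ)) := h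
    rw [inG_iff s2C_sq] at h'
    rw [inG_iff s2R_sq]
    obtain ⟨h1, h2, h3, h4⟩ := h'
    have hinj : Function.Injective (algebraMap ℝ ℂ) := (algebraMap ℝ ℂ).injective
    refine ⟨fun i j => hinj (h1 i j), fun i j => hinj ?_, ?_, ?_⟩
    · rw [map_mul, map_ofNat]
      exact h2 i j
    · rw [← isSO3_map_iff]
      have : (prP s2 g.1).map (algebraMap ℝ ℂ) = prP s2C (g.1.map (algebraMap ℝ ℂ)) := by
        ext i j
        simp [prP, s2C]
      rw [this]
      exact h3
    · rw [← isSO3_map_iff]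
      have : (prM s2 g.1).map (algebraMap ℝ ℂ) = prM s2C (g.1.map (algebraMap ℝ ℂ)) := by
        ext i j
        simp [prM, s2C]
      rw [this]
      exact h4
  · rintro ⟨A, B, hA, hB, hAB⟩
    refine ⟨A.map (algebraMap ℝ ℂ), B.map (algebraMap ℝ ℂ), (isSO3_map_iff A).mpr hA,
      (isSO3_map_iff B).mpr hB, ?_⟩
    rw [e, hAB, map_blk]

lemma inG_of_real (h : G0.realPoints) : InG s2 h.1.1 := (mem_realPoints_iff h.1).mp h.2

/-- The first projection `G(ℝ) → SO(3)`. -/
def pP : G0.realPoints →* Matrix (Fin 3) (Fin 3) ℝ where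
  toFun h := prP s2 h.1.1
  map_one' := by
    have : (1 : Matrix I6 I6 ℝ) = blk s2 1 1 := blk_one.symm
    change prP s2 (1 : Matrix I6 I6 ℝ) = 1
    rw [this, prP_blk s2R_sq]
  map_mul' a b := InG.prP_mul s2R_sq (inG_of_real a) (inG_of_real b)

/-- The second projection `G(ℝ) → SO(3)`. -/
def pM : G0.realPoints →* Matrix (Fin 3) (Fin 3) ℝ where
  toFun h := prM s2 h.1.1
  map_one' := by
    have : (1 : Matrix I6 I6 ℝ) = blk s2 1 1 := blk_one.symm
    change prM s2 (1 : Matrix I6 I6 ℝ) = 1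
    rw [this, prM_blk s2R_sq]
  map_mul' a b := InG.prM_mul s2R_sq (inG_of_real a) (inG_of_real b)

lemma pP_inv (h : G0.realPoints) : pP h⁻¹ = (pP h)ᵀ := InG.prP_inv s2R_sq (inG_of_real h)
lemma pM_inv (h : G0.realPoints) : pM h⁻¹ = (pM h)ᵀ := InG.prM_inv s2R_sq (inG_of_real h)
lemma isSO3_pP (h : G0.realPoints) : IsSO3 (pP h) := (inG_of_real h).isSO3P s2R_sq
lemma isSO3_pM (h : G0.realPoints) : IsSO3 (pM h) := (inG_of_real h).isSO3M s2R_sq

lemma blk_pPM (h : G0.realPoints) : h.1.1 = blk s2 (pP h) (pM h) := (inG_of_real h).blk_pr s2R_sq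

lemma real_ext {h k : G0.realPoints} (h1 : pP h = pP k) (h2 : pM h = pM k) : h = k := by
  apply Subtype.ext
  apply Units.ext
  rw [blk_pPM, blk_pPM, h1, h2]

/-- The element of `G(ℝ)` with given projections. -/
def mkR {A B : Matrix (Fin 3) (Fin 3) ℝ} (hA : IsSO3 A) (hB : IsSO3 B) : G0.realPoints :=
  ⟨mkGL s2R_sq hA hB, (mem_realPoints_iff _).mpr ⟨A, B, hA, hB, rfl⟩⟩

lemma pP_mkR {A B : Matrix (Fin 3) (Fin 3) ℝ} (hA : IsSO3 A) (hB : IsSO3 B) :
    pP (mkR hA hB) = A := prP_blk s2R_sq A B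
lemma pM_mkR {A B : Matrix (Fin 3) (Fin 3) ℝ} (hA : IsSO3 A) (hB : IsSO3 B) :
    pM (mkR hA hB) = B := prM_blk s2R_sq A B

variable {n : ℕ}

/-- first tuple of a representation -/
def tP (ρ : RepSpace n G0) : Fin n × Bool → Matrix (Fin 3) (Fin 3) ℝ :=
  fun k => pP (ρ.toHom (PresentedGroup.of k))
/-- second tuple of a representation -/
def tM (ρ : RepSpace n G0) : Fin n × Bool → Matrix (Fin 3) (Fin 3) ℝ :=
  fun k => pM (ρ.toHom (PresentedGroup.of k))

lemma isSO3_tP (ρ : RepSpace n G0) (k : Fin n × Bool) : IsSO3 (tP ρ k) := isSO3_pP _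
lemma isSO3_tM (ρ : RepSpace n G0) (k : Fin n × Bool) : IsSO3 (tM ρ k) := isSO3_pM _

lemma tP_conj (h : G0.realPoints) (ρ : RepSpace n G0) (k : Fin n × Bool) :
    tP (conj h ρ) k = pP h * tP ρ k * (pP h)ᵀ := by
  change pP (h * ρ.toHom _ * h⁻¹) = _
  rw [map_mul, map_mul, pP_inv]
  rfl

lemma tM_conj (h : G0.realPoints) (ρ : RepSpace n G0) (k : Fin n × Bool) :
    tM (conj h ρ) k = pM h * tM ρ k * (pM h)ᵀ := by
  change pM (h * ρ.toHom _ * h⁻¹) = _
  rw [map_mul, map_mul, pM_inv]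
  rfl

lemma rep_ext {ρ ρ' : RepSpace n G0} (h1 : tP ρ = tP ρ') (h2 : tM ρ = tM ρ') : ρ = ρ' := by
  apply RepSpace.ext
  apply PresentedGroup.ext
  intro k
  exact real_ext (congrFun h1 k) (congrFun h2 k)

/-- a general computation of the image of the relator -/
lemma map_relator {M : Type*} [Monoid M] (φ : FreeGroup (Fin n × Bool) →* M)
    (X X' : Fin n × Bool → M) (h : ∀ k, φ (FreeGroup.of k) = X k)
    (h' : ∀ k, φ (FreeGroup.of k)⁻¹ = X' k) :
    φ (surfaceRelator n) = (List.ofFn fun i : Fin n =>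
      X (i, false) * X (i, true) * X' (i, false) * X' (i, true)).prod := by
  rw [surfaceRelator, map_list_prod, List.map_ofFn]
  congr 2
  funext i
  simp only [Function.comp_apply, map_mul, h, h']

lemma relProd_tP (ρ : RepSpace n G0) : relProd (tP ρ) = 1 := by
  have h1 := map_relator ((pP.comp ρ.toHom).comp (PresentedGroup.mk {surfaceRelator n}))
    (tP ρ) (fun k => (tP ρ k)ᵀ) (fun k => rfl) (fun k => by
      simp only [MonoidHom.comp_apply, map_inv]
      rw [pP_inv]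
      rfl)
  rw [relProd, ← h1]
  simp only [MonoidHom.comp_apply]
  have : PresentedGroup.mk {surfaceRelator n} (surfaceRelator n) = 1 :=
    PresentedGroup.one_of_mem rfl
  rw [this, map_one, map_one]

lemma relProd_tM (ρ : RepSpace n G0) : relProd (tM ρ) = 1 := by
  have h1 := map_relator ((pM.comp ρ.toHom).comp (PresentedGroup.mk {surfaceRelator n}))
    (tM ρ) (fun k => (tM ρ k)ᵀ) (fun k => rfl) (fun k => by
      simp only [MonoidHom.comp_apply, map_inv]
      rw [pM_inv]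
      rfl)
  rw [relProd, ← h1]
  simp only [MonoidHom.comp_apply]
  have : PresentedGroup.mk {surfaceRelator n} (surfaceRelator n) = 1 :=
    PresentedGroup.one_of_mem rfl
  rw [this, map_one, map_one]

lemma mkRep_rel {X Y : Fin n × Bool → Matrix (Fin 3) (Fin 3) ℝ} (hX : ∀ k, IsSO3 (X k))
    (hY : ∀ k, IsSO3 (Y k)) (hrX : relProd X = 1) (hrY : relProd Y = 1) :
    ∀ r ∈ ({surfaceRelator n} : Set (FreeGroup (Fin n × Bool))),
      FreeGroup.lift (fun k => mkR (hX k) (hY k)) r = 1 := by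
  rintro _ rfl
  set φ := FreeGroup.lift (fun k => mkR (hX k) (hY k)) with hφ
  apply real_ext
  · rw [map_one]
    have h1 := map_relator (pP.comp φ) X (fun k => (X k)ᵀ) (fun k => by
      rw [MonoidHom.comp_apply, hφ, FreeGroup.lift_apply_of, pP_mkR]) (fun k => by
      rw [MonoidHom.comp_apply, map_inv, pP_inv, hφ, FreeGroup.lift_apply_of, pP_mkR])
    rw [MonoidHom.comp_apply] at h1
    rw [h1]
    exact hrX
  · rw [map_one]
    have h1 := map_relator (pM.comp φ) Y (fun k => (Y k)ᵀ) (fun k => by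
      rw [MonoidHom.comp_apply, hφ, FreeGroup.lift_apply_of, pM_mkR]) (fun k => by
      rw [MonoidHom.comp_apply, map_inv, pM_inv, hφ, FreeGroup.lift_apply_of, pM_mkR])
    rw [MonoidHom.comp_apply] at h1
    rw [h1]
    exact hrY

/-- The representation with given tuples. -/
def mkRep {X Y : Fin n × Bool → Matrix (Fin 3) (Fin 3) ℝ} (hX : ∀ k, IsSO3 (X k))
    (hY : ∀ k, IsSO3 (Y k)) (hrX : relProd X = 1) (hrY : relProd Y = 1) : RepSpace n G0 :=
  ⟨PresentedGroup.toGroup (mkRep_rel hX hY hrX hrY)⟩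

lemma mkRep_of {X Y : Fin n × Bool → Matrix (Fin 3) (Fin 3) ℝ} (hX : ∀ k, IsSO3 (X k))
    (hY : ∀ k, IsSO3 (Y k)) (hrX : relProd X = 1) (hrY : relProd Y = 1) (k : Fin n × Bool) :
    (mkRep hX hY hrX hrY).toHom (PresentedGroup.of k) = mkR (hX k) (hY k) :=
  PresentedGroup.toGroup.of (mkRep_rel hX hY hrX hrY)

lemma tP_mkRep {X Y : Fin n × Bool → Matrix (Fin 3) (Fin 3) ℝ} (hX : ∀ k, IsSO3 (X k))
    (hY : ∀ k, IsSO3 (Y k)) (hrX : relProd X = 1) (hrY : relProd Y = 1) :
    tP (mkRep hX hY hrX hrY) = X := by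
  funext k
  rw [tP, mkRep_of, pP_mkR]

lemma tM_mkRep {X Y : Fin n × Bool → Matrix (Fin 3) (Fin 3) ℝ} (hX : ∀ k, IsSO3 (X k))
    (hY : ∀ k, IsSO3 (Y k)) (hrX : relProd X = 1) (hrY : relProd Y = 1) :
    tM (mkRep hX hY hrX hrY) = Y := by
  funext k
  rw [tM, mkRep_of, pM_mkR]

end Pool.Agent.H70.CharVar
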