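import Pool.Agent.H70.CharVar.Rot

/-!
# Normal forms of tuples of quaternions solving the surface relation
-/

set_option autoImplicit false

open Quaternion Matrix

noncomputable section

namespace Pool.Agent.H70.CharVar

/-- Half the additive commutator: the cross product of the imaginary parts. -/
def nq (z w : ℍ[ℝ]) : ℍ[ℝ] := (1 / 2 : ℝ) • (z * w - w * z)

lemma nq_re (z w : ℍ[ℝ]) : (nq z w).re = 0 := by
  simp only [nq, re_smul, re_sub, re_mul, smul_eq_mul]; ring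
lemma nq_imI (z w : ℍ[ℝ]) : (nq z w).imI = z.imJ * w.imK - z.imK * w.imJ := by
  simp only [nq, imI_smul, imI_sub, imI_mul, smul_eq_mul]; ring
lemma nq_imJ (z w : ℍ[ℝ]) : (nq z w).imJ = z.imK * w.imI - z.imI * w.imK := by
  simp only [nq, imJ_smul, imJ_sub, imJ_mul, smul_eq_mul]; ring
lemma nq_imK (z w : ℍ[ℝ]) : (nq z w).imK = z.imI * w.imJ - z.imJ * w.imI := by
  simp only [nq, imK_smul, imK_sub, imK_mul, smul_eq_mul]; ring

lemma actQ_sub (A : Matrix (Fin 3) (Fin 3) ℝ) (p q : ℍ[ℝ]) :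
    actQ A (p - q) = actQ A p - actQ A q := by
  ext <;> simp only [actQ_re, actQ_imI, actQ_imJ, actQ_imK, re_sub, imI_sub, imJ_sub, imK_sub] <;>
    ring

lemma actQ_add (A : Matrix (Fin 3) (Fin 3) ℝ) (p q : ℍ[ℝ]) :
    actQ A (p + q) = actQ A p + actQ A q := by
  ext <;> simp only [actQ_re, actQ_imI, actQ_imJ, actQ_imK, re_add, imI_add, imJ_add, imK_add] <;>
    ring

lemma actQ_im (A : Matrix (Fin 3) (Fin 3) ℝ) (p : ℍ[ℝ]) : actQ A p.im = (actQ A p).im := by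
  ext <;> simp only [actQ_re, actQ_imI, actQ_imJ, actQ_imK, re_im, imI_im, imJ_im, imK_im]

lemma actQ_nq {A : Matrix (Fin 3) (Fin 3) ℝ} (hA : IsSO3 A) (z w : ℍ[ℝ]) :
    actQ A (nq z w) = nq (actQ A z) (actQ A w) := by
  simp only [nq, actQ_smul, actQ_sub, actQ_mul hA]

/-- length of the imaginary part -/
def len (z : ℍ[ℝ]) : ℝ := Real.sqrt (normSq z.im)

lemma len_actQ {A : Matrix (Fin 3) (Fin 3) ℝ} (hA : IsSO3 A) (z : ℍ[ℝ]) :
    len (actQ A z) = len z := by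
  rw [len, ← actQ_im, normSq_actQ hA, len]

lemma normSq_im (z : ℍ[ℝ]) : normSq z.im = z.imI ^ 2 + z.imJ ^ 2 + z.imK ^ 2 := by
  rw [normSq_def']
  simp

lemma len_sq (z : ℍ[ℝ]) : len z ^ 2 = z.imI ^ 2 + z.imJ ^ 2 + z.imK ^ 2 := by
  rw [len, Real.sq_sqrt normSq_nonneg, normSq_im]

lemma len_pos {z : ℍ[ℝ]} (h : normSq z.im ≠ 0) : 0 < len z :=
  Real.sqrt_pos.mpr (lt_of_le_of_ne normSq_nonneg (Ne.symm h))

/-- first frame vector -/
def fr1 (z : ℍ[ℝ]) : ℍ[ℝ] := (len z)⁻¹ • z.im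
/-- second frame vector -/
def fr2 (z w : ℍ[ℝ]) : ℍ[ℝ] := ((len z)⁻¹ * (len (nq z w))⁻¹) • nq (nq z w) z
/-- third frame vector -/
def fr3 (z w : ℍ[ℝ]) : ℍ[ℝ] := (len (nq z w))⁻¹ • nq z w

/-- The matrix whose rows are the orthonormal frame attached to `(z, w)`. -/
def frame (z w : ℍ[ℝ]) : Matrix (Fin 3) (Fin 3) ℝ :=
  !![(fr1 z).imI, (fr1 z).imJ, (fr1 z).imK;
    (fr2 z w).imI, (fr2 z w).imJ, (fr2 z w).imK;
    (fr3 z w).imI, (fr3 z w).imJ, (fr3 z w).imK]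

lemma frame_act {A : Matrix (Fin 3) (Fin 3) ℝ} (hA : IsSO3 A) (z w : ℍ[ℝ]) :
    frame (actQ A z) (actQ A w) = frame z w * Aᵀ := by
  have h1 : fr1 (actQ A z) = actQ A (fr1 z) := by
    rw [fr1, len_actQ hA, ← actQ_im, ← actQ_smul, ← fr1]
  have h2 : fr2 (actQ A z) (actQ A w) = actQ A (fr2 z w) := by
    rw [fr2, len_actQ hA, ← actQ_nq hA, len_actQ hA, ← actQ_nq hA, ← actQ_smul, ← fr2]
  have h3 : fr3 (actQ A z) (actQ A w) = actQ A (fr3 z w) := by
    rw [fr3, ← actQ_nq hA, len_actQ hA, ← actQ_smul, ← fr3]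
  rw [frame, h1, h2, h3, frame]
  ext i j
  fin_cases i <;> fin_cases j <;>
    simp [Matrix.mul_apply, Fin.sum_univ_three, actQ_imI, actQ_imJ, actQ_imK] <;> ring

lemma normSq_nq_im_ne {z w : ℍ[ℝ]} (h : normSq (nq z w).im ≠ 0) : normSq z.im ≠ 0 := by
  intro h0
  apply h
  rw [normSq_im] at h0
  have h1 : z.imI = 0 := by nlinarith [sq_nonneg z.imI, sq_nonneg z.imJ, sq_nonneg z.imK]
  have h2 : z.imJ = 0 := by nlinarith [sq_nonneg z.imI, sq_nonneg z.imJ, sq_nonneg z.imK]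
  have h3 : z.imK = 0 := by nlinarith [sq_nonneg z.imI, sq_nonneg z.imJ, sq_nonneg z.imK]
  rw [normSq_im, nq_imI, nq_imJ, nq_imK, h1, h2, h3]
  ring

lemma isSO3_frame {z w : ℍ[ℝ]} (h : normSq (nq z w).im ≠ 0) : IsSO3 (frame z w) := by
  have hr : 0 < len z := len_pos (normSq_nq_im_ne h)
  have hs : 0 < len (nq z w) := len_pos h
  have hr2 := len_sq z
  have hs2 := len_sq (nq z w)
  rw [nq_imI, nq_imJ, nq_imK] at hs2
  set r := len z with hrdef
  set s := len (nq z w) with hsdef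
  have e11 : (fr1 z).imI = r⁻¹ * z.imI := by simp [fr1, ← hrdef]
  have e12 : (fr1 z).imJ = r⁻¹ * z.imJ := by simp [fr1, ← hrdef]
  have e13 : (fr1 z).imK = r⁻¹ * z.imK := by simp [fr1, ← hrdef]
  have e31 : (fr3 z w).imI = s⁻¹ * (z.imJ * w.imK - z.imK * w.imJ) := by
    simp only [fr3, ← hsdef, imI_smul, nq_imI, smul_eq_mul]
  have e32 : (fr3 z w).imJ = s⁻¹ * (z.imK * w.imI - z.imI * w.imK) := by
    simp only [fr3, ← hsdef, imJ_smul, nq_imJ, smul_eq_mul]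
  have e33 : (fr3 z w).imK = s⁻¹ * (z.imI * w.imJ - z.imJ * w.imI) := by
    simp only [fr3, ← hsdef, imK_smul, nq_imK, smul_eq_mul]
  have e21 : (fr2 z w).imI = r⁻¹ * s⁻¹ * ((z.imK * w.imI - z.imI * w.imK) * z.imK -
      (z.imI * w.imJ - z.imJ * w.imI) * z.imJ) := by
    simp only [fr2, ← hsdef, ← hrdef, imI_smul, nq_imI, nq_imJ, nq_imK, smul_eq_mul]
  have e22 : (fr2 z w).imJ = r⁻¹ * s⁻¹ * ((z.imI * w.imJ - z.imJ * w.imI) * z.imI -
      (z.imJ * w.imK - z.imK * w.imJ) * z.imK) := by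
    simp only [fr2, ← hsdef, ← hrdef, imJ_smul, nq_imI, nq_imJ, nq_imK, smul_eq_mul]
  have e23 : (fr2 z w).imK = r⁻¹ * s⁻¹ * ((z.imJ * w.imK - z.imK * w.imJ) * z.imJ -
      (z.imK * w.imI - z.imI * w.imK) * z.imI) := by
    simp only [fr2, ← hsdef, ← hrdef, imK_smul, nq_imI, nq_imJ, nq_imK, smul_eq_mul]
  have hr' : r ≠ 0 := hr.ne'
  have hs' : s ≠ 0 := hs.ne'
  constructor
  · rw [mul_eq_one_comm]
    ext i j
    fin_cases i <;> fin_cases j
    · simp [frame, Matrix.mul_apply, Fin.sum_univ_three, e11, e12, e13]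
      field_simp
      linarith
    · simp [frame, Matrix.mul_apply, Fin.sum_univ_three, e11, e12, e13, e21, e22, e23]
      field_simp
      ring
    · simp [frame, Matrix.mul_apply, Fin.sum_univ_three, e11, e12, e13, e31, e32, e33]
      field_simp
      ring
    · simp [frame, Matrix.mul_apply, Fin.sum_univ_three, e11, e12, e13, e21, e22, e23]
      field_simp
      ring
    · simp [frame, Matrix.mul_apply, Fin.sum_univ_three, e21, e22, e23]
      field_simp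
      rw [hr2, hs2]
      ring
    · simp [frame, Matrix.mul_apply, Fin.sum_univ_three, e21, e22, e23, e31, e32, e33]
      field_simp
      ring
    · simp [frame, Matrix.mul_apply, Fin.sum_univ_three, e11, e12, e13, e31, e32, e33]
      field_simp
      ring
    · simp [frame, Matrix.mul_apply, Fin.sum_univ_three, e21, e22, e23, e31, e32, e33]
      field_simp
      ring
    · simp [frame, Matrix.mul_apply, Fin.sum_univ_three, e31, e32, e33]
      field_simp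
      linarith
  · rw [frame, Matrix.det_fin_three]
    simp [e11, e12, e13, e21, e22, e23, e31, e32, e33]
    field_simp
    rw [hr2, hs2]
    ring

/-- A pair `(z, w)` is normalized. -/
def NormPair (z w : ℍ[ℝ]) : Prop :=
  0 < z.imI ∧ z.imJ = 0 ∧ z.imK = 0 ∧ 0 < w.imJ ∧ w.imK = 0

lemma normPair_frame {z w : ℍ[ℝ]} (h : normSq (nq z w).im ≠ 0) :
    NormPair (actQ (frame z w) z) (actQ (frame z w) w) := by
  have hr : 0 < len z := len_pos (normSq_nq_im_ne h)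
  have hs : 0 < len (nq z w) := len_pos h
  have hr2 := len_sq z
  have hs2 := len_sq (nq z w)
  rw [nq_imI, nq_imJ, nq_imK] at hs2
  set r := len z with hrdef
  set s := len (nq z w) with hsdef
  have e11 : (fr1 z).imI = r⁻¹ * z.imI := by simp [fr1, ← hrdef]
  have e12 : (fr1 z).imJ = r⁻¹ * z.imJ := by simp [fr1, ← hrdef]
  have e13 : (fr1 z).imK = r⁻¹ * z.imK := by simp [fr1, ← hrdef]
  have e31 : (fr3 z w).imI = s⁻¹ * (z.imJ * w.imK - z.imK * w.imJ) := by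
    simp only [fr3, ← hsdef, imI_smul, nq_imI, smul_eq_mul]
  have e32 : (fr3 z w).imJ = s⁻¹ * (z.imK * w.imI - z.imI * w.imK) := by
    simp only [fr3, ← hsdef, imJ_smul, nq_imJ, smul_eq_mul]
  have e33 : (fr3 z w).imK = s⁻¹ * (z.imI * w.imJ - z.imJ * w.imI) := by
    simp only [fr3, ← hsdef, imK_smul, nq_imK, smul_eq_mul]
  have e21 : (fr2 z w).imI = r⁻¹ * s⁻¹ * ((z.imK * w.imI - z.imI * w.imK) * z.imK -
      (z.imI * w.imJ - z.imJ * w.imI) * z.imJ) := by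
    simp only [fr2, ← hsdef, ← hrdef, imI_smul, nq_imI, nq_imJ, nq_imK, smul_eq_mul]
  have e22 : (fr2 z w).imJ = r⁻¹ * s⁻¹ * ((z.imI * w.imJ - z.imJ * w.imI) * z.imI -
      (z.imJ * w.imK - z.imK * w.imJ) * z.imK) := by
    simp only [fr2, ← hsdef, ← hrdef, imJ_smul, nq_imI, nq_imJ, nq_imK, smul_eq_mul]
  have e23 : (fr2 z w).imK = r⁻¹ * s⁻¹ * ((z.imJ * w.imK - z.imK * w.imJ) * z.imJ -
      (z.imK * w.imI - z.imI * w.imK) * z.imI) := by
    simp only [fr2, ← hsdef, ← hrdef, imK_smul, nq_imI, nq_imJ, nq_imK, smul_eq_mul]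
  have hr' : r ≠ 0 := hr.ne'
  have hs' : s ≠ 0 := hs.ne'
  have a1 : (actQ (frame z w) z).imI = r := by
    rw [actQ_imI]
    simp [frame, e11, e12, e13]
    field_simp
    linarith
  have a2 : (actQ (frame z w) z).imJ = 0 := by
    rw [actQ_imJ]
    simp [frame, e21, e22, e23]
    field_simp
    ring
  have a3 : (actQ (frame z w) z).imK = 0 := by
    rw [actQ_imK]
    simp [frame, e31, e32, e33]
    field_simp
    ring
  have a4 : (actQ (frame z w) w).imJ = s / r := by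
    rw [actQ_imJ]
    simp [frame, e21, e22, e23]
    field_simp
    rw [hs2]
    ring
  have a5 : (actQ (frame z w) w).imK = 0 := by
    rw [actQ_imK]
    simp [frame, e31, e32, e33]
    field_simp
    ring
  refine ⟨?_, a2, a3, ?_, a5⟩
  · rw [a1]; exact hr
  · rw [a4]; positivity

lemma NormPair.ne {z w : ℍ[ℝ]} (h : NormPair z w) : normSq (nq z w).im ≠ 0 := by
  obtain ⟨h1, h2, h3, h4, h5⟩ := h
  rw [normSq_im, nq_imI, nq_imJ, nq_imK, h2, h3, h5]
  rw [show (0 * 0 - 0 * w.imJ) ^ 2 + (0 * w.imI - z.imI * 0) ^ 2 +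
      (z.imI * w.imJ - 0 * w.imI) ^ 2 = (z.imI * w.imJ) ^ 2 by ring]
  exact (pow_pos (mul_pos h1 h4) 2).ne'

lemma NormPair.frame_eq {z w : ℍ[ℝ]} (h : NormPair z w) : frame z w = 1 := by
  obtain ⟨h1, h2, h3, h4, h5⟩ := h
  have hr : len z = z.imI := by
    rw [len, normSq_im, h2, h3]
    rw [show z.imI ^ 2 + 0 ^ 2 + 0 ^ 2 = z.imI ^ 2 by ring, Real.sqrt_sq h1.le]
  have hs : len (nq z w) = z.imI * w.imJ := by
    rw [len, normSq_im, nq_imI, nq_imJ, nq_imK, h2, h3, h5]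
    rw [show (0 * 0 - 0 * w.imJ) ^ 2 + (0 * w.imI - z.imI * 0) ^ 2 +
      (z.imI * w.imJ - 0 * w.imI) ^ 2 = (z.imI * w.imJ) ^ 2 by ring, Real.sqrt_sq (by positivity)]
  have h1' : z.imI ≠ 0 := h1.ne'
  have h4' : w.imJ ≠ 0 := h4.ne'
  ext i j
  fin_cases i <;> fin_cases j
  · simp [frame, fr1, hr, h1']
  · simp [frame, fr1, h2]
  · simp [frame, fr1, h3]
  · simp [frame, fr2, nq_imI, nq_imJ, nq_imK, h2, h3]
  · simp [frame, fr2, nq_imI, nq_imJ, nq_imK, hr, hs, h2, h3]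
    field_simp
  · simp [frame, fr2, nq_imI, nq_imJ, nq_imK, h2, h3, h5]
  · simp [frame, fr3, nq_imI, h2, h3]
  · simp [frame, fr3, nq_imJ, h3, h5]
  · simp [frame, fr3, nq_imK, hs, h2]
    field_simp

/-- The dot product of the imaginary parts. -/
def dotI (p q : ℍ[ℝ]) : ℝ := p.imI * q.imI + p.imJ * q.imJ + p.imK * q.imK

/-- Solution of `Re (d b) = 1`, `Re b = 1`. -/
def solB (d : ℍ[ℝ]) (y₂ y₃ : ℝ) : ℍ[ℝ] :=
  ⟨1, (d.re - 1 - d.imJ * y₂ - d.imK * y₃) / d.imI, y₂, y₃⟩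

/-- Solution of `a b = d b a`, `Re a = 1`. -/
def solA (d b : ℍ[ℝ]) (t : ℝ) : ℍ[ℝ] :=
  1 + (normSq (b + d * b).im)⁻¹ • (b * (d * b) - d * b * b) + t • (b + d * b).im

lemma solB_re (d : ℍ[ℝ]) (y₂ y₃ : ℝ) : (solB d y₂ y₃).re = 1 := rfl
lemma solB_imI (d : ℍ[ℝ]) (y₂ y₃ : ℝ) :
    (solB d y₂ y₃).imI = (d.re - 1 - d.imJ * y₂ - d.imK * y₃) / d.imI := rfl
lemma solB_imJ (d : ℍ[ℝ]) (y₂ y₃ : ℝ) : (solB d y₂ y₃).imJ = y₂ := rfl
lemma solB_imK (d : ℍ[ℝ]) (y₂ y₃ : ℝ) : (solB d y₂ y₃).imK = y₃ := rfl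

lemma re_mul_solB {d : ℍ[ℝ]} (hd : d.imI ≠ 0) (y₂ y₃ : ℝ) : (d * solB d y₂ y₃).re = 1 := by
  rw [re_mul, solB_re, solB_imI, solB_imJ, solB_imK]
  field_simp
  ring

lemma solB_eq {d b : ℍ[ℝ]} (hd : d.imI ≠ 0) (hb : b.re = 1) (hdb : (d * b).re = 1) :
    solB d b.imJ b.imK = b := by
  rw [re_mul, hb] at hdb
  ext
  · rw [solB_re, hb]
  · rw [solB_imI, div_eq_iff hd]
    linarith
  · rfl
  · rfl

lemma solA_re (d b : ℍ[ℝ]) (t : ℝ) : (solA d b t).re = 1 := by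
  simp only [solA, re_add, re_smul, re_one, re_sub, re_mul, re_im, smul_eq_mul]
  ring

/-- The key algebraic identity: `a b = h a` for the explicit `a`. -/
lemma solA_spec {d b : ℍ[ℝ]} (hd : normSq d = 1) (hb : b.re = 1) (hdb : (d * b).re = 1)
    (hp : normSq (b + d * b).im ≠ 0) (t : ℝ) :
    solA d b t * b = d * b * solA d b t := by
  have hN : normSq (d * b) = normSq b := by rw [map_mul, hd, one_mul]
  set h := d * b with hh
  set P := normSq (b + h).im with hP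
  have hPe : P = (b.imI + h.imI) ^ 2 + (b.imJ + h.imJ) ^ 2 + (b.imK + h.imK) ^ 2 := by
    rw [hP, normSq_im, imI_add, imJ_add, imK_add]
  rw [normSq_def', normSq_def', hb, hdb] at hN
  have e : solA d b t = 1 + P⁻¹ • (b * h - h * b) + t • (b + h).im := rfl
  have e1 : (solA d b t).imI = P⁻¹ * (2 * (b.imJ * h.imK - b.imK * h.imJ)) +
      t * (b.imI + h.imI) := by
    rw [e]
    simp only [imI_add, imI_smul, imI_one, imI_sub, imI_mul, imI_im, smul_eq_mul]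
    ring
  have e2 : (solA d b t).imJ = P⁻¹ * (2 * (b.imK * h.imI - b.imI * h.imK)) +
      t * (b.imJ + h.imJ) := by
    rw [e]
    simp only [imJ_add, imJ_smul, imJ_one, imJ_sub, imJ_mul, imJ_im, smul_eq_mul]
    ring
  have e3 : (solA d b t).imK = P⁻¹ * (2 * (b.imI * h.imJ - b.imJ * h.imI)) +
      t * (b.imK + h.imK) := by
    rw [e]
    simp only [imK_add, imK_smul, imK_one, imK_sub, imK_mul, imK_im, smul_eq_mul]
    ring
  have e0 : (solA d b t).re = 1 := solA_re d b t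
  have hPi : P⁻¹ * P = 1 := inv_mul_cancel₀ hp
  obtain ⟨Q, hQ⟩ : ∃ Q : ℝ, P⁻¹ = Q := ⟨_, rfl⟩
  rw [hQ] at e1 e2 e3 hPi
  rw [hPe] at hPi
  ext
  · simp only [re_mul, e0, e1, e2, e3, hb, hdb]
    linear_combination t * hN
  · simp only [imI_mul, e0, e1, e2, e3, hb, hdb]
    linear_combination (h.imI - b.imI) * hPi - Q * (b.imI + h.imI) * hN
  · simp only [imJ_mul, e0, e1, e2, e3, hb, hdb]
    linear_combination (h.imJ - b.imJ) * hPi - Q * (b.imJ + h.imJ) * hN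
  · simp only [imK_mul, e0, e1, e2, e3, hb, hdb]
    linear_combination (h.imK - b.imK) * hPi - Q * (b.imK + h.imK) * hN

lemma re_mul_comm' (x y : ℍ[ℝ]) : (x * y).re = (y * x).re := by
  rw [re_mul, re_mul]; ring

/-- The coordinate along the line of solutions `a`. -/
def tf (a b : ℍ[ℝ]) : ℝ := (normSq (b + a * b * a⁻¹).im)⁻¹ * dotI a (b + a * b * a⁻¹)

lemma conj_eq {a b d : ℍ[ℝ]} (ha : a ≠ 0) (h : a * b = d * b * a) : a * b * a⁻¹ = d * b := by
  rw [h, mul_assoc, mul_inv_cancel₀ ha, mul_one]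

lemma re_conj {a b d : ℍ[ℝ]} (ha : a ≠ 0) (h : a * b = d * b * a) : (d * b).re = b.re := by
  rw [← conj_eq ha h, re_mul_comm', ← mul_assoc, inv_mul_cancel₀ ha, one_mul]

lemma solP_ne {a b d : ℍ[ℝ]} (ha : a.re = 1) (hb : b.re = 1) (h : a * b = d * b * a)
    (hd : d.imI ≠ 0) : normSq (b + d * b).im ≠ 0 := by
  intro h0
  have ha0 := ne_zero_of_re ha
  have hdb := re_conj ha0 h
  set k := d * b with hk
  rw [normSq_im, imI_add, imJ_add, imK_add] at h0
  have g1 : b.imI + k.imI = 0 := by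
    nlinarith [sq_nonneg (b.imI + k.imI), sq_nonneg (b.imJ + k.imJ), sq_nonneg (b.imK + k.imK)]
  have g2 : b.imJ + k.imJ = 0 := by
    nlinarith [sq_nonneg (b.imI + k.imI), sq_nonneg (b.imJ + k.imJ), sq_nonneg (b.imK + k.imK)]
  have g3 : b.imK + k.imK = 0 := by
    nlinarith [sq_nonneg (b.imI + k.imI), sq_nonneg (b.imJ + k.imJ), sq_nonneg (b.imK + k.imK)]
  have k1 : k.imI = - b.imI := by linarith
  have k2 : k.imJ = - b.imJ := by linarith
  have k3 : k.imK = - b.imK := by linarith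
  have i1 := congrArg (fun q : ℍ[ℝ] => q.imI) h
  have i2 := congrArg (fun q : ℍ[ℝ] => q.imJ) h
  have i3 := congrArg (fun q : ℍ[ℝ] => q.imK) h
  simp only [imI_mul, imJ_mul, imK_mul, ha, hb, hdb, k1, k2, k3] at i1 i2 i3
  have b1 : b.imI = 0 := by linarith
  have b2 : b.imJ = 0 := by linarith
  have b3 : b.imK = 0 := by linarith
  have hb1 : b = 1 := by ext <;> simp [hb, b1, b2, b3]
  have hk1 : k = 1 := by
    ext <;> simp [hdb, hb, b1, b2, b3, k1, k2, k3]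
  have hd1 : d = 1 := by
    rw [hb1, mul_one] at hk
    rw [← hk, hk1]
  apply hd
  rw [hd1]
  simp

lemma solA_eq {a b d : ℍ[ℝ]} (ha : a.re = 1) (hb : b.re = 1)
    (h : a * b = d * b * a) (hp : normSq (b + d * b).im ≠ 0) :
    solA d b (tf a b) = a := by
  have ha0 := ne_zero_of_re ha
  have hdb := re_conj ha0 h
  have htf : tf a b = (normSq (b + d * b).im)⁻¹ * dotI a (b + d * b) := by
    rw [tf, conj_eq ha0 h]
  rw [htf]
  set k := d * b with hk
  set P := normSq (b + k).im with hP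
  have hPe : P = (b.imI + k.imI) ^ 2 + (b.imJ + k.imJ) ^ 2 + (b.imK + k.imK) ^ 2 := by
    rw [hP, normSq_im, imI_add, imJ_add, imK_add]
  have hdot : dotI a (b + k) = a.imI * (b.imI + k.imI) + a.imJ * (b.imJ + k.imJ) +
      a.imK * (b.imK + k.imK) := rfl
  have hPi : P⁻¹ * P = 1 := inv_mul_cancel₀ hp
  have i1 := congrArg (fun q : ℍ[ℝ] => q.imI) h
  have i2 := congrArg (fun q : ℍ[ℝ] => q.imJ) h
  have i3 := congrArg (fun q : ℍ[ℝ] => q.imK) h
  simp only [imI_mul, imJ_mul, imK_mul, ha, hb, hdb] at i1 i2 i3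
  have e : ∀ t, solA d b t = 1 + P⁻¹ • (b * k - k * b) + t • (b + k).im := fun t => rfl
  rw [e]
  obtain ⟨Q, hQ⟩ : ∃ Q : ℝ, P⁻¹ = Q := ⟨_, rfl⟩
  rw [hQ] at hPi ⊢
  rw [hPe] at hPi
  rw [hdot]
  ext
  · simp only [re_add, re_smul, re_one, re_sub, re_mul, re_im, smul_eq_mul, ha]
    ring
  · simp only [imI_add, imI_smul, imI_one, imI_sub, imI_mul, imI_im, smul_eq_mul, hb, hdb]
    linear_combination a.imI * hPi + Q * (-(b.imJ + k.imJ) * i3 + (b.imK + k.imK) * i2)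
  · simp only [imJ_add, imJ_smul, imJ_one, imJ_sub, imJ_mul, imJ_im, smul_eq_mul, hb, hdb]
    linear_combination a.imJ * hPi + Q * (-(b.imK + k.imK) * i1 + (b.imI + k.imI) * i3)
  · simp only [imK_add, imK_smul, imK_one, imK_sub, imK_mul, imK_im, smul_eq_mul, hb, hdb]
    linear_combination a.imK * hPi + Q * (-(b.imI + k.imI) * i2 + (b.imJ + k.imJ) * i1)

end Pool.Agent.H70.CharVar
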