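import Pool.Agent.H70.CharVar.Manifold

/-!
# Explicit points, dimension, the manifold property
-/

set_option autoImplicit false

open Matrix Quaternion
open scoped ContDiff Manifold Topology

noncomputable section

namespace Pool.Agent.H70.CharVar

variable {m : ℕ}

/-- explicit parameters with a given sign -/
def vpt (m : ℕ) (ε : ℝ) : PV m := (![ε, 0, 1, 0, 0, 0], 0)

lemma cm_one_one : cm 1 1 = 1 := by simp [cm]

lemma cmProd_one {n : ℕ} (u : Fin n × Bool → ℍ[ℝ]) (hu : ∀ k, u k = 1) : cmProd u = 1 := by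
  rw [cmProd]
  apply List.prod_eq_one
  intro x hx
  rw [List.mem_ofFn] at hx
  obtain ⟨i, rfl⟩ := hx
  rw [hu, hu, cm_one_one]

lemma cm_ij : cm (mkH 1 1 0 0) (mkH 1 0 1 0) = mkH (1 / 2) (1 / 2) (-1 / 2) (1 / 2) := by
  have h1 : (mkH 1 1 0 0)⁻¹ = mkH (1 / 2) (-1 / 2) 0 0 := by
    rw [Quaternion.inv_def, normSq_def', mkH_re, mkH_imI, mkH_imJ, mkH_imK]
    ext
    · rw [re_smul, re_star, mkH_re, mkH_re]; norm_num
    · rw [imI_smul, imI_star, mkH_imI, mkH_imI]; norm_num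
    · rw [imJ_smul, imJ_star, mkH_imJ, mkH_imJ]; norm_num
    · rw [imK_smul, imK_star, mkH_imK, mkH_imK]; norm_num
  have h2 : (mkH 1 0 1 0)⁻¹ = mkH (1 / 2) 0 (-1 / 2) 0 := by
    rw [Quaternion.inv_def, normSq_def', mkH_re, mkH_imI, mkH_imJ, mkH_imK]
    ext
    · rw [re_smul, re_star, mkH_re, mkH_re]; norm_num
    · rw [imI_smul, imI_star, mkH_imI, mkH_imI]; norm_num
    · rw [imJ_smul, imJ_star, mkH_imJ, mkH_imJ]; norm_num
    · rw [imK_smul, imK_star, mkH_imK, mkH_imK]; norm_num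
  rw [cm, h1, h2]
  ext <;> simp only [re_mul, imI_mul, imJ_mul, imK_mul, mkH_re, mkH_imI, mkH_imJ, mkH_imK] <;>
    norm_num

lemma cmProd_tailS_vpt {ε : ℝ} (hε : |ε| = 1) :
    cmProd (tailS (vpt m ε)) = mkH (1 / 2) (1 / 2) (-1 / 2) (1 / 2) := by
  rw [cmProd_succ, cmProd_one (tl (tailS (vpt m ε))), mul_one]
  · have h1 : tailS (vpt m ε) (0, false) = mkH 1 1 0 0 := by
      have : tailS (vpt m ε) (0, false) = mkH 1 |ε| 0 0 := rfl
      rw [this, hε]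
    have h2 : tailS (vpt m ε) (0, true) = mkH 1 0 1 0 := rfl
    rw [h1, h2, cm_ij]
  · intro k
    ext <;> rfl

lemma dS_vpt {ε : ℝ} (hε : |ε| = 1) :
    dS (vpt m ε) = mkH (ε / 2) (-ε / 2) (ε / 2) (-ε / 2) := by
  have h1 : (mkH (1 / 2) (1 / 2) (-1 / 2) (1 / 2))⁻¹ = mkH (1 / 2) (-1 / 2) (1 / 2) (-1 / 2) := by
    rw [Quaternion.inv_def, normSq_def', mkH_re, mkH_imI, mkH_imJ, mkH_imK]
    ext
    · rw [re_smul, re_star, mkH_re, mkH_re]; norm_num
    · rw [imI_smul, imI_star, mkH_imI, mkH_imI]; norm_num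
    · rw [imJ_smul, imJ_star, mkH_imJ, mkH_imJ]; norm_num
    · rw [imK_smul, imK_star, mkH_imK, mkH_imK]; norm_num
  have h2 : (vpt m ε).1 0 = ε := rfl
  rw [dS, cmProd_tailS_vpt hε, h1, h2, sgn, hε, div_one]
  ext
  · rw [re_smul, mkH_re, mkH_re, smul_eq_mul]; ring
  · rw [imI_smul, mkH_imI, mkH_imI, smul_eq_mul]; ring
  · rw [imJ_smul, mkH_imJ, mkH_imJ, smul_eq_mul]; ring
  · rw [imK_smul, mkH_imK, mkH_imK, smul_eq_mul]; ring

lemma vpt_mem {ε : ℝ} (hε : |ε| = 1) : vpt m ε ∈ WW m := by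
  have h0 : ε ≠ 0 := by
    rintro rfl
    simp at hε
  have hd := dS_vpt (m := m) hε
  have hI : (dS (vpt m ε)).imI = -ε / 2 := by rw [hd]; rfl
  have hb : bS (vpt m ε) = mkH 1 ((ε / 2 - 1) / (-ε / 2)) 0 0 := by
    rw [bS, hd]
    have e3 : (vpt m ε).1 3 = 0 := rfl
    have e4 : (vpt m ε).1 4 = 0 := rfl
    rw [e3, e4]
    ext
    · rfl
    · rw [solB_imI, mkH_re, mkH_imI, mkH_imJ, mkH_imK, mkH_imI]
      norm_num
    · rfl
    · rfl
  refine ⟨h0, ?_, ?_, ?_⟩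
  · change (0 : ℝ) < 1
    norm_num
  · rw [hI]
    exact div_ne_zero (neg_ne_zero.mpr h0) two_ne_zero
  · rw [hb, hd, normSq_im]
    intro h
    have h3 : (mkH 1 ((ε / 2 - 1) / (-ε / 2)) 0 0 + mkH (ε / 2) (-ε / 2) (ε / 2) (-ε / 2) *
        mkH 1 ((ε / 2 - 1) / (-ε / 2)) 0 0).imK = 0 := by
      have h4 := sq_nonneg (mkH 1 ((ε / 2 - 1) / (-ε / 2)) 0 0 +
        mkH (ε / 2) (-ε / 2) (ε / 2) (-ε / 2) * mkH 1 ((ε / 2 - 1) / (-ε / 2)) 0 0).imI
      have h5 := sq_nonneg (mkH 1 ((ε / 2 - 1) / (-ε / 2)) 0 0 +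
        mkH (ε / 2) (-ε / 2) (ε / 2) (-ε / 2) * mkH 1 ((ε / 2 - 1) / (-ε / 2)) 0 0).imJ
      nlinarith
    rw [imK_add, imK_mul, mkH_re, mkH_imI, mkH_imJ, mkH_imK, mkH_re, mkH_imI, mkH_imJ,
      mkH_imK] at h3
    field_simp at h3
    have h6 : ε = 1 ∨ ε = -1 := by
      rcases abs_eq (zero_le_one) |>.mp hε with h | h
      · exact Or.inl h
      · exact Or.inr h
    rcases h6 with h6 | h6 <;> rw [h6] at h3 <;> norm_num at h3

/-- explicit parameters for the two factors -/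
def wpt (m : ℕ) : (WW m ×ˢ WW m : Set (PV m × PV m)) :=
  ⟨(vpt m 1, vpt m (-1)), vpt_mem (by simp), vpt_mem (by simp)⟩

instance : Nonempty (Omega m) := ⟨sigma (wpt m)⟩

lemma finrank_PV : Module.finrank ℝ (PV m × PV m) = 12 * (m + 1) := by
  have h : Module.finrank ℝ (Fin m × Bool → Fin 3 → ℝ) = 6 * m := by
    rw [Module.finrank_pi_fintype]
    simp
    ring
  rw [Module.finrank_prod, Module.finrank_prod, h]
  simp
  ring

theorem omega_isManifold (m : ℕ) : QuotientIsSmoothManifold (Omega m) (12 * (m + 1)) :=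
  quotient_isManifold finrank_PV (sliceData m)

end Pool.Agent.H70.CharVar
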