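import Pool.Agent.H70.CharVar.Zariski
import Pool.Agent.H70.CharVar.Points

/-!
# Rational classes have equal obstruction classes
-/

set_option autoImplicit false

open Matrix Quaternion
open scoped Topology

noncomputable section

namespace Pool.Agent.H70.CharVar

section qmap

variable {K L : Type*} [CommRing K] [CommRing L] (f : K →+* L)

/-- base change of quaternions -/
def qmap (q : ℍ[K]) : ℍ[L] := ⟨f q.re, f q.imI, f q.imJ, f q.imK⟩

lemma qmap_re (q : ℍ[K]) : (qmap f q).re = f q.re := rfl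
lemma qmap_imI (q : ℍ[K]) : (qmap f q).imI = f q.imI := rfl
lemma qmap_imJ (q : ℍ[K]) : (qmap f q).imJ = f q.imJ := rfl
lemma qmap_imK (q : ℍ[K]) : (qmap f q).imK = f q.imK := rfl

lemma qmap_mul (p q : ℍ[K]) : qmap f (p * q) = qmap f p * qmap f q := by
  ext <;> simp [qmap_re, qmap_imI, qmap_imJ, qmap_imK]

lemma qmap_star (q : ℍ[K]) : qmap f (star q) = star (qmap f q) := by
  ext <;> simp [qmap_re, qmap_imI, qmap_imJ, qmap_imK]

lemma qmap_one : qmap f (1 : ℍ[K]) = 1 := by
  ext <;> simp [qmap_re, qmap_imI, qmap_imJ, qmap_imK]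

lemma normSq_qmap (q : ℍ[K]) : normSq (qmap f q) = f (normSq q) := by
  rw [normSq_def', normSq_def', qmap_re, qmap_imI, qmap_imJ, qmap_imK]
  simp

lemma qq_map (X : Matrix (Fin 3) (Fin 3) K) : qq (X.map f) = qmap f (qq X) := by
  ext <;> simp [qmap_re, qmap_imI, qmap_imJ, qmap_imK, qq_re, qq_imI, qq_imJ, qq_imK]

lemma ctProd_qmap {n : ℕ} (q : Fin n × Bool → ℍ[K]) :
    ctProd (fun k => qmap f (q k)) = qmap f (ctProd q) := by
  induction n with
  | zero => simp [ctProd, qmap_one]
  | succ n ih =>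
    rw [ctProd_succ, ctProd_succ, qmap_mul, ← ih (tlK q)]
    simp only [qmap_mul, qmap_star]
    rfl

lemma nProd_qmap {n : ℕ} (q : Fin n × Bool → ℍ[K]) :
    nProd (fun k => qmap f (q k)) = f (nProd q) := by
  induction n with
  | zero => simp [nProd]
  | succ n ih =>
    rw [nProd_succ, nProd_succ, map_mul, ← ih (tlK q), map_mul, normSq_qmap, normSq_qmap]
    rfl

end qmap

/-- The field `ℚ(√2)`. -/
abbrev F2 : Type := QuadraticAlgebra ℚ 2 0

/-- The real embedding with `√2 ↦ s`. -/
def emb (s : ℝ) (hs : s ^ 2 = 2) : F2 →+* ℝ :=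
  ((QuadraticAlgebra.lift (R := ℚ) (a := 2) (b := 0) (A := ℝ))
    ⟨s, by rw [← sq, hs]; simp⟩ : F2 →ₐ[ℚ] ℝ).toRingHom

lemma emb_mk (s : ℝ) (hs : s ^ 2 = 2) (a b : ℚ) :
    emb s hs (⟨a, b⟩ : F2) = (a : ℝ) + s * b := by
  simp [emb, QuadraticAlgebra.lift, Rat.smul_def]
  ring

lemma neg_s2_sq : (-s2) ^ 2 = 2 := by rw [neg_sq, s2R_sq]

lemma emb_zero {x : F2} (h : emb s2 s2R_sq x = 0) : x = 0 := by
  obtain ⟨a, b⟩ := x
  rw [emb_mk] at h
  have hb : b = 0 := by
    by_contra hb
    have hirr := irrational_sqrt_two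
    apply hirr
    refine ⟨-a / b, ?_⟩
    have hb' : (b : ℝ) ≠ 0 := by exact_mod_cast hb
    push_cast
    field_simp
    linarith
  rw [hb] at h
  have ha : a = 0 := by
    have : (a : ℝ) = 0 := by simpa using h
    exact_mod_cast this
  rw [ha, hb]
  rfl

variable {m : ℕ}

/-- the obstruction class -/
lemma class_re {X : Fin (m + 2) × Bool → Matrix (Fin 3) (Fin 3) ℝ} (hX : GoodX X) :
    (ctProd fun k => qq (X k)).re = nProd (fun k => qq (X k)) *
      (cmProd fun k => lift (X k)).re ∧ nProd (fun k => qq (X k)) ≠ 0 := by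
  have hq : ∀ k, qq (X k) ≠ 0 := by
    intro k h
    have : (qq (X k)).re = 0 := by rw [h]; simp
    rw [qq_re] at this
    exact hX.1 k this
  have h1 := ctProd_eq (u := fun k => lift (X k)) (q := fun k => qq (X k))
    (r := fun k => (1 + tr3 (X k))⁻¹) (fun k => inv_ne_zero (hX.1 k)) hq (fun k => rfl)
  refine ⟨?_, nProd_ne hq⟩
  rw [h1, re_smul, smul_eq_mul]

/-- Key arithmetic fact: if two good tuples are Galois conjugate, their obstruction classes are
equal. -/
lemma class_eq {Z : Fin (m + 2) × Bool → Matrix (Fin 3) (Fin 3) F2}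
    (h1 : GoodX (fun k => (Z k).map (emb s2 s2R_sq)))
    (h2 : GoodX (fun k => (Z k).map (emb (-s2) neg_s2_sq))) :
    (cmProd fun k => lift ((Z k).map (emb s2 s2R_sq))) =
      cmProd fun k => lift ((Z k).map (emb (-s2) neg_s2_sq)) := by
  obtain ⟨e1, n1⟩ := class_re h1
  obtain ⟨e2, n2⟩ := class_re h2
  simp only [qq_map] at e1 n1 e2 n2
  rw [ctProd_qmap, nProd_qmap, qmap_re] at e1
  rw [ctProd_qmap, nProd_qmap, qmap_re] at e2
  rw [nProd_qmap] at n1 n2
  set c := (ctProd fun k => qq (Z k)).re with hc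
  set d := nProd fun k => qq (Z k) with hd
  rcases good_eq_sign h1.2 with k1 | k1 <;> rcases good_eq_sign h2.2 with k2 | k2
  · rw [k1, k2]
  · exfalso
    rw [k1, re_one, mul_one] at e1
    rw [k2, re_neg, re_one] at e2
    have h3 : emb s2 s2R_sq (c - d) = 0 := by rw [map_sub, e1, sub_self]
    have h4 := emb_zero h3
    have h5 : emb (-s2) neg_s2_sq (c - d) = 0 := by rw [h4, map_zero]
    rw [map_sub, e2] at h5
    apply n2
    linarith
  · exfalso
    rw [k1, re_neg, re_one] at e1
    rw [k2, re_one, mul_one] at e2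
    have h3 : emb s2 s2R_sq (c + d) = 0 := by rw [map_add, e1]; ring
    have h4 := emb_zero h3
    have h5 : emb (-s2) neg_s2_sq (c + d) = 0 := by rw [h4, map_zero]
    rw [map_add, e2] at h5
    apply n2
    linarith
  · rw [k1, k2]

/-- For a representation whose generators are rational, the two obstruction classes agree. -/
lemma class_eq_of_rational {ρ : RepSpace (m + 2) G0} (hρ : ρ ∈ Omega m)
    (hr : ∀ γ, G0.IsRationalPoint (ρ.toHom γ)) :
    (cmProd fun k => lift (tP ρ k)) = cmProd fun k => lift (tM ρ k) := by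
  choose B hB1 hB2 using fun k : Fin (m + 2) × Bool => hr (PresentedGroup.of k)
  set Z : Fin (m + 2) × Bool → Matrix (Fin 3) (Fin 3) F2 := fun k =>
    Matrix.of fun i j => (⟨(B k).1 (Sum.inl i) (Sum.inl j), (B k).1 (Sum.inr i) (Sum.inl j)⟩ : F2)
    with hZ
  have hent : ∀ k i j, (ρ.toHom (PresentedGroup.of k)).1.1 i j = (((B k).1 i j : ℚ) : ℝ) := by
    intro k i j
    rw [← hB2 k]
    rfl
  have eP : tP ρ = fun k => (Z k).map (emb s2 s2R_sq) := by
    funext k
    ext i j
    rw [Matrix.map_apply, hZ]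
    simp only [of_apply]
    rw [emb_mk, ← hent, ← hent]
    rfl
  have eM : tM ρ = fun k => (Z k).map (emb (-s2) neg_s2_sq) := by
    funext k
    ext i j
    rw [Matrix.map_apply, hZ]
    simp only [of_apply]
    rw [emb_mk, ← hent, ← hent, neg_mul, ← sub_eq_add_neg]
    rfl
  have h1 : GoodX (fun k => (Z k).map (emb s2 s2R_sq)) := by rw [← eP]; exact hρ.1
  have h2 : GoodX (fun k => (Z k).map (emb (-s2) neg_s2_sq)) := by rw [← eM]; exact hρ.2
  rw [eP, eM]
  exact class_eq h1 h2

/-- first sign function on the quotient -/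
def fP (y : CharQuotient (Omega m)) : ℝ := ((sliceData m).homeo y).1.1.1 0
/-- second sign function on the quotient -/
def fM (y : CharQuotient (Omega m)) : ℝ := ((sliceData m).homeo y).1.2.1 0

lemma continuous_fP : Continuous (fP (m := m)) := by
  have h1 : Continuous fun y : CharQuotient (Omega m) => ((sliceData m).homeo y).1 :=
    continuous_subtype_val.comp (sliceData m).homeo.continuous
  exact (continuous_apply 0).comp ((continuous_fst.comp (continuous_fst.comp h1)))

lemma continuous_fM : Continuous (fM (m := m)) := by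
  have h1 : Continuous fun y : CharQuotient (Omega m) => ((sliceData m).homeo y).1 :=
    continuous_subtype_val.comp (sliceData m).homeo.continuous
  exact (continuous_apply 0).comp ((continuous_fst.comp (continuous_snd.comp h1)))

lemma fP_ne (y : CharQuotient (Omega m)) : fP y ≠ 0 := ((sliceData m).homeo y).2.1.1
lemma fM_ne (y : CharQuotient (Omega m)) : fM y ≠ 0 := ((sliceData m).homeo y).2.2.1

lemma fP_mk (ρ : Omega m) : cmProd (fun k => lift (tP ρ.1 k)) =
    (sgn (fP (CharQuotient.mk _ ρ)) : ℍ[ℝ]) := cmProd_eq_sgn ρ.2.1.2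
lemma fM_mk (ρ : Omega m) : cmProd (fun k => lift (tM ρ.1 k)) =
    (sgn (fM (CharQuotient.mk _ ρ)) : ℍ[ℝ]) := cmProd_eq_sgn ρ.2.2.2

lemma sgn_of_pos {x : ℝ} (hx : 0 < x) : sgn x = 1 := by
  rw [sgn, abs_of_pos hx, div_self hx.ne']
lemma sgn_of_neg {x : ℝ} (hx : x < 0) : sgn x = -1 := by
  rw [sgn, abs_of_neg hx, div_neg, div_self hx.ne]

/-- A class with different signs is not rational. -/
lemma not_rational_of_signs {y : CharQuotient (Omega m)} (h1 : 0 < fP y) (h2 : fM y < 0) :
    ¬ IsRationalClass (Omega m) y := by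
  rintro ⟨ρ, rfl, h, hr⟩
  set ρ' : Omega m := ⟨conj h ρ.1, isInvariant_Omega h _ ρ.2⟩ with hρ'
  have hmk : CharQuotient.mk (Omega m) ρ = CharQuotient.mk (Omega m) ρ' :=
    Quotient.sound ⟨h, rfl⟩
  have h3 := class_eq_of_rational ρ'.2 hr
  rw [hmk] at h1 h2
  have h4 := fP_mk ρ'
  have h5 := fM_mk ρ'
  rw [h3, h5, sgn_of_pos h1, sgn_of_neg h2] at h4
  have h6 := congrArg (fun q : ℍ[ℝ] => q.re) h4
  simp only [re_coe] at h6
  norm_num at h6

/-- the base point of the component -/
def x0 (m : ℕ) : CharQuotient (Omega m) := CharQuotient.mk _ (sigma (wpt m))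

lemma homeo_x0 : ((sliceData m).homeo (x0 m)) = wpt m := by
  have h := (sliceData m).homeo.apply_symm_apply (wpt m)
  rw [SliceData.homeo_symm] at h
  exact h

lemma fP_x0 : fP (x0 m) = 1 := by
  rw [fP, homeo_x0]
  rfl

lemma fM_x0 : fM (x0 m) = -1 := by
  rw [fM, homeo_x0]
  rfl

theorem component_no_rational (y : CharQuotient (Omega m)) (hy : y ∈ connectedComponent (x0 m)) :
    ¬ IsRationalClass (Omega m) y := by
  have hc : IsPreconnected (connectedComponent (x0 m)) := isPreconnected_connectedComponent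
  have h0 : x0 m ∈ connectedComponent (x0 m) := mem_connectedComponent
  apply not_rational_of_signs
  · by_contra hneg
    push Not at hneg
    have hlt : fP y < 0 := lt_of_le_of_ne hneg (fP_ne y)
    have h1 : (0 : ℝ) ∈ Set.Icc (fP y) (fP (x0 m)) := ⟨hlt.le, by rw [fP_x0]; norm_num⟩
    obtain ⟨z, -, hz⟩ := hc.intermediate_value hy h0 continuous_fP.continuousOn h1
    exact fP_ne z hz
  · by_contra hneg
    push Not at hneg
    have hlt : 0 < fM y := lt_of_le_of_ne hneg (fM_ne y).symm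
    have h1 : (0 : ℝ) ∈ Set.Icc (fM (x0 m)) (fM y) := ⟨by rw [fM_x0]; norm_num, hlt.le⟩
    obtain ⟨z, -, hz⟩ := hc.intermediate_value h0 hy continuous_fM.continuousOn h1
    exact fM_ne z hz

end Pool.Agent.H70.CharVar
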