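import Pool.Agent.H70.CharVar.GroupC

/-!
# The group is reductive
-/

set_option autoImplicit false

open Matrix

noncomputable section

namespace Pool.Agent.H70.CharVar

/-- trace -/
def trC (X : Matrix (Fin 3) (Fin 3) ℂ) : ℂ := X 0 0 + X 1 1 + X 2 2

/-- half turn about the first axis -/
def Hx : Matrix (Fin 3) (Fin 3) ℂ := !![1, 0, 0; 0, -1, 0; 0, 0, -1]

lemma isSO3_Hx : IsSO3 Hx := by
  constructor
  · ext i j
    fin_cases i <;> fin_cases j <;> simp [Hx, Matrix.mul_apply, Fin.sum_univ_three]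
  · rw [det_fin_three]; simp [Hx]

lemma trC_half {A : Matrix (Fin 3) (Fin 3) ℂ} (hA : IsSO3 A) :
    trC (Hx * A * Hxᵀ * Aᵀ) = 4 * A 0 0 ^ 2 - 1 := by
  obtain ⟨r00, r11, r22, r01, r02, r12⟩ := hA.row
  obtain ⟨c00, c11, c22, c01, c02, c12⟩ := hA.col
  simp only [trC, Matrix.mul_apply, Fin.sum_univ_three, transpose_apply]
  simp [Hx]
  linear_combination r11 + r22 - r00 - 2 * c00

/-- matrices of `SO_3` with given first row -/
lemma exists_row (c s : ℂ) (h : c ^ 2 + s ^ 2 = 1) :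
    IsSO3 (!![c, s, 0; -s, c, 0; 0, 0, 1] : Matrix (Fin 3) (Fin 3) ℂ) ∧
    IsSO3 (!![c, 0, s; 0, 1, 0; -s, 0, c] : Matrix (Fin 3) (Fin 3) ℂ) ∧
    IsSO3 (!![0, c, s; 1, 0, 0; 0, s, -c] : Matrix (Fin 3) (Fin 3) ℂ) := by
  refine ⟨⟨?_, ?_⟩, ⟨?_, ?_⟩, ⟨?_, ?_⟩⟩
  · ext i j
    fin_cases i <;> fin_cases j <;> simp [Matrix.mul_apply, Fin.sum_univ_three] <;>
      first | linear_combination h | ring1
  · rw [det_fin_three]; simp; linear_combination h
  · ext i j
    fin_cases i <;> fin_cases j <;> simp [Matrix.mul_apply, Fin.sum_univ_three] <;>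
      first | linear_combination h | ring1
  · rw [det_fin_three]; simp; linear_combination h
  · ext i j
    fin_cases i <;> fin_cases j <;> simp [Matrix.mul_apply, Fin.sum_univ_three] <;>
      first | linear_combination h | ring1
  · rw [det_fin_three]; simp; linear_combination h

lemma eq_one_of_pm {p q x : ℂ}
    (hp : p ^ 2 = 1) (hq : q ^ 2 = 1)
    (h1 : ((9 * p + 16 * q + 12 * x) / 25) ^ 2 = 1)
    (h2 : ((9 * p + 16 * q - 12 * x) / 25) ^ 2 = 1) : x = 0 ∧ p = q := by
  have hp' : (p - 1) * (p + 1) = 0 := by linear_combination hp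
  have hq' : (q - 1) * (q + 1) = 0 := by linear_combination hq
  have e1 : (9 * p + 16 * q) * x = 0 := by linear_combination (625 / 48) * h1 - (625 / 48) * h2
  have e2 : (9 * p + 16 * q) ^ 2 + 144 * x ^ 2 = 625 := by
    linear_combination (625 / 2) * h1 + (625 / 2) * h2
  rcases mul_eq_zero.mp hp' with h | h <;> rcases mul_eq_zero.mp hq' with h' | h'
  · have a : p = 1 := by linear_combination h
    have b : q = 1 := by linear_combination h'
    rw [a, b] at e1
    refine ⟨?_, by rw [a, b]⟩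
    have : (25 : ℂ) * x = 0 := by linear_combination e1
    rcases mul_eq_zero.mp this with k | k
    · norm_num at k
    · exact k
  · have a : p = 1 := by linear_combination h
    have b : q = -1 := by linear_combination h'
    rw [a, b] at e1 e2
    have : (-7 : ℂ) * x = 0 := by linear_combination e1
    rcases mul_eq_zero.mp this with k | k
    · norm_num at k
    · rw [k] at e2
      norm_num at e2
  · have a : p = -1 := by linear_combination h
    have b : q = 1 := by linear_combination h'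
    rw [a, b] at e1 e2
    have : (7 : ℂ) * x = 0 := by linear_combination e1
    rcases mul_eq_zero.mp this with k | k
    · norm_num at k
    · rw [k] at e2
      norm_num at e2
  · have a : p = -1 := by linear_combination h
    have b : q = -1 := by linear_combination h'
    rw [a, b] at e1
    refine ⟨?_, by rw [a, b]⟩
    have : (-25 : ℂ) * x = 0 := by linear_combination e1
    rcases mul_eq_zero.mp this with k | k
    · norm_num at k
    · exact k

lemma ent1 (A : Matrix (Fin 3) (Fin 3) ℂ) (c s : ℂ) :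
    ((!![c, s, 0; -s, c, 0; 0, 0, 1] : Matrix (Fin 3) (Fin 3) ℂ) * A *
      (!![c, s, 0; -s, c, 0; 0, 0, 1] : Matrix (Fin 3) (Fin 3) ℂ)ᵀ) 0 0 =
    c ^ 2 * A 0 0 + s ^ 2 * A 1 1 + c * s * (A 0 1 + A 1 0) := by
  simp only [Matrix.mul_apply, Fin.sum_univ_three, transpose_apply]
  simp
  ring

lemma ent2 (A : Matrix (Fin 3) (Fin 3) ℂ) (c s : ℂ) :
    ((!![c, 0, s; 0, 1, 0; -s, 0, c] : Matrix (Fin 3) (Fin 3) ℂ) * A *
      (!![c, 0, s; 0, 1, 0; -s, 0, c] : Matrix (Fin 3) (Fin 3) ℂ)ᵀ) 0 0 =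
    c ^ 2 * A 0 0 + s ^ 2 * A 2 2 + c * s * (A 0 2 + A 2 0) := by
  simp only [Matrix.mul_apply, Fin.sum_univ_three, transpose_apply]
  simp
  ring

lemma ent3 (A : Matrix (Fin 3) (Fin 3) ℂ) (c s : ℂ) :
    ((!![0, c, s; 1, 0, 0; 0, s, -c] : Matrix (Fin 3) (Fin 3) ℂ) * A *
      (!![0, c, s; 1, 0, 0; 0, s, -c] : Matrix (Fin 3) (Fin 3) ℂ)ᵀ) 0 0 =
    c ^ 2 * A 1 1 + s ^ 2 * A 2 2 + c * s * (A 1 2 + A 2 1) := by
  simp only [Matrix.mul_apply, Fin.sum_univ_three, transpose_apply]
  simp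
  ring

/-- If the `(0,0)` entry of every conjugate of `A` squares to one, then `A = 1`. -/
lemma eq_one_of_conj {A : Matrix (Fin 3) (Fin 3) ℂ} (hA : IsSO3 A)
    (h : ∀ g : Matrix (Fin 3) (Fin 3) ℂ, IsSO3 g → ((g * A * gᵀ) 0 0) ^ 2 = 1) : A = 1 := by
  have h35 : (3 / 5 : ℂ) ^ 2 + (4 / 5) ^ 2 = 1 := by norm_num
  have h35' : (3 / 5 : ℂ) ^ 2 + (-4 / 5) ^ 2 = 1 := by norm_num
  have h10 : (1 : ℂ) ^ 2 + 0 ^ 2 = 1 := by norm_num
  have h01 : (0 : ℂ) ^ 2 + 1 ^ 2 = 1 := by norm_num
  have a0 := h _ (exists_row 1 0 h10).1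
  have a1 := h _ (exists_row 0 1 h01).1
  have a2 := h _ (exists_row 0 1 h01).2.1
  have b1 := h _ (exists_row _ _ h35).1
  have b2 := h _ (exists_row _ _ h35').1
  have b3 := h _ (exists_row _ _ h35).2.1
  have b4 := h _ (exists_row _ _ h35').2.1
  have b5 := h _ (exists_row _ _ h35).2.2
  have b6 := h _ (exists_row _ _ h35').2.2
  rw [ent1] at a0 a1 b1 b2
  rw [ent2] at a2 b3 b4
  rw [ent3] at b5 b6
  have a0' : A 0 0 ^ 2 = 1 := by linear_combination a0
  have a1' : A 1 1 ^ 2 = 1 := by linear_combination a1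
  have a2' : A 2 2 ^ 2 = 1 := by linear_combination a2
  obtain ⟨x1, p1⟩ := eq_one_of_pm (x := A 0 1 + A 1 0) a0' a1' (by linear_combination b1)
    (by linear_combination b2)
  obtain ⟨x2, p2⟩ := eq_one_of_pm (x := A 0 2 + A 2 0) a0' a2' (by linear_combination b3)
    (by linear_combination b4)
  obtain ⟨x3, p3⟩ := eq_one_of_pm (x := A 1 2 + A 2 1) a1' a2' (by linear_combination b5)
    (by linear_combination b6)
  obtain ⟨k00, k01, k02, k10, k11, k12, k20, k21, k22⟩ := hA.cof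
  obtain ⟨c00, c11, c22, c01, c02, c12⟩ := hA.col
  have y1 : A 1 0 = - A 0 1 := by linear_combination x1
  have y2 : A 2 0 = - A 0 2 := by linear_combination x2
  have y3 : A 2 1 = - A 1 2 := by linear_combination x3
  rw [← p1, ← p2, y3] at k00
  rw [← p1, ← p2, y2] at k11
  rw [← p1, ← p2, y1] at k22
  have hsq : (A 0 0 - 1) * (A 0 0 + 1) = 0 := by linear_combination a0'
  rcases mul_eq_zero.mp hsq with hh | hh
  · have e : A 0 0 = 1 := by linear_combination hh
    rw [e] at k00 k11 k22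
    have z1 : A 1 2 = 0 := by
      have : A 1 2 ^ 2 = 0 := by linear_combination k00
      exact pow_eq_zero_iff two_ne_zero |>.mp this
    have z2 : A 0 2 = 0 := by
      have : A 0 2 ^ 2 = 0 := by linear_combination k11
      exact pow_eq_zero_iff two_ne_zero |>.mp this
    have z3 : A 0 1 = 0 := by
      have : A 0 1 ^ 2 = 0 := by linear_combination k22
      exact pow_eq_zero_iff two_ne_zero |>.mp this
    ext i j
    fin_cases i <;> fin_cases j <;> simp [e, ← p1, ← p2, y1, y2, y3, z1, z2, z3]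
  · exfalso
    have e : A 0 0 = -1 := by linear_combination hh
    rw [e] at k00 k11 k22
    rw [← p2, e] at c22
    have : (4 : ℂ) = 0 := by linear_combination k00 + k11 - c22
    norm_num at this

lemma trace_blk (A B : Matrix (Fin 3) (Fin 3) ℂ) : (blk s2C A B).trace = trC A + trC B := by
  simp only [blk, Matrix.trace, Fintype.sum_sum_type, diag_apply, fromBlocks_apply₁₁,
    fromBlocks_apply₂₂, Fin.sum_univ_three, Matrix.smul_apply, Matrix.add_apply, smul_eq_mul, trC]
  ring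

lemma tr_of_unipotent {A B : Matrix (Fin 3) (Fin 3) ℂ}
    (h : IsNilpotent (blk s2C A B - 1)) : trC A + trC B = 6 := by
  have h1 := Matrix.isNilpotent_trace_of_isNilpotent h
  have h2 := h1.eq_zero
  rw [trace_sub, trace_blk, trace_one] at h2
  have h3 : (Fintype.card I6 : ℂ) = 6 := by simp [I6]
  rw [h3] at h2
  linear_combination h2

/-- The group `G0` is reductive. -/
theorem G0_isReductive : G0.IsReductive := by
  intro U hU hnorm _ _ huni
  rw [Subgroup.eq_bot_iff_forall]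
  intro u hu
  obtain ⟨A, B, hA, hB, hAB⟩ := hU hu
  -- elements of U are determined by their blocks
  have hmk : ∀ {A B : Matrix (Fin 3) (Fin 3) ℂ} (hA : IsSO3 A) (hB : IsSO3 B),
      mkGL s2C_sq hA hB ∈ G0.complexPoints := fun {A B} hA hB => ⟨A, B, hA, hB, rfl⟩
  have hu' : mkGL s2C_sq hA hB ∈ U := by
    have : mkGL s2C_sq hA hB = u := Units.ext hAB.symm
    rw [this]; exact hu
  have hconj : ∀ {A B g h : Matrix (Fin 3) (Fin 3) ℂ} (hA : IsSO3 A) (hB : IsSO3 B)
      (hg : IsSO3 g) (hh : IsSO3 h), mkGL s2C_sq hA hB ∈ U →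
      mkGL s2C_sq ((hg.mul hA).mul hg.transpose) ((hh.mul hB).mul hh.transpose) ∈ U := by
    intro A B g h hA hB hg hh hm
    have h1 := hnorm _ (hmk hg hh) _ hm
    have : mkGL s2C_sq hg hh * mkGL s2C_sq hA hB * (mkGL s2C_sq hg hh)⁻¹ =
        mkGL s2C_sq ((hg.mul hA).mul hg.transpose) ((hh.mul hB).mul hh.transpose) := by
      apply Units.ext
      change blk s2C g h * blk s2C A B * blk s2C gᵀ hᵀ = blk s2C _ _
      rw [blk_mul s2C_sq, blk_mul s2C_sq]
    rwa [this] at h1
  have key : ∀ {A B : Matrix (Fin 3) (Fin 3) ℂ} (hA : IsSO3 A) (hB : IsSO3 B),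
      mkGL s2C_sq hA hB ∈ U → A 0 0 ^ 2 = 1 ∧ B 0 0 ^ 2 = 1 := by
    intro A B hA hB hm
    constructor
    · have h1 := hconj hA hB isSO3_Hx isSO3_one hm
      have h2 := U.mul_mem h1 (U.inv_mem hm)
      have h3 := huni _ h2
      have h4 : ((mkGL s2C_sq ((isSO3_Hx.mul hA).mul isSO3_Hx.transpose)
          ((isSO3_one.mul hB).mul isSO3_one.transpose) * (mkGL s2C_sq hA hB)⁻¹ : GL I6 ℂ) :
          Matrix I6 I6 ℂ) = blk s2C (Hx * A * Hxᵀ * Aᵀ) 1 := by
        change blk s2C _ _ * blk s2C Aᵀ Bᵀ = _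
        rw [blk_mul s2C_sq, Matrix.one_mul, transpose_one, Matrix.mul_one, hB.mul_transpose]
      rw [h4] at h3
      have h5 := tr_of_unipotent h3
      rw [trC_half hA] at h5
      have h6 : trC 1 = 3 := by simp [trC]; norm_num
      rw [h6] at h5
      linear_combination (1 / 4) * h5
    · have h1 := hconj hA hB isSO3_one isSO3_Hx hm
      have h2 := U.mul_mem h1 (U.inv_mem hm)
      have h3 := huni _ h2
      have h4 : ((mkGL s2C_sq ((isSO3_one.mul hA).mul isSO3_one.transpose)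
          ((isSO3_Hx.mul hB).mul isSO3_Hx.transpose) * (mkGL s2C_sq hA hB)⁻¹ : GL I6 ℂ) :
          Matrix I6 I6 ℂ) = blk s2C 1 (Hx * B * Hxᵀ * Bᵀ) := by
        change blk s2C _ _ * blk s2C Aᵀ Bᵀ = _
        rw [blk_mul s2C_sq, Matrix.one_mul, transpose_one, Matrix.mul_one, hA.mul_transpose]
      rw [h4] at h3
      have h5 := tr_of_unipotent h3
      rw [trC_half hB] at h5
      have h6 : trC 1 = 3 := by simp [trC]; norm_num
      rw [h6] at h5
      linear_combination (1 / 4) * h5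
  have hA1 : A = 1 := eq_one_of_conj hA fun g hg =>
    (key _ _ (hconj hA hB hg isSO3_one hu')).1
  have hB1 : B = 1 := eq_one_of_conj hB fun g hg =>
    (key _ _ (hconj hA hB isSO3_one hg hu')).2
  apply Units.ext
  rw [hAB, hA1, hB1, blk_one]
  rfl

end Pool.Agent.H70.CharVar
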