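import Mathlib

/-!
# Rotation matrices and quaternions over a commutative ring
-/

set_option autoImplicit false

open Quaternion Matrix

noncomputable section

namespace Pool.Agent.H70.CharVar

section Ring

variable {K : Type*} [CommRing K]

/-- `A` is a special orthogonal `3 × 3` matrix. -/
def IsSO3 (A : Matrix (Fin 3) (Fin 3) K) : Prop := Aᵀ * A = 1 ∧ A.det = 1

lemma IsSO3.mul_transpose {A : Matrix (Fin 3) (Fin 3) K} (h : IsSO3 A) : A * Aᵀ = 1 :=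
  mul_eq_one_comm.mp h.1

lemma isSO3_one : IsSO3 (1 : Matrix (Fin 3) (Fin 3) K) := by simp [IsSO3]

lemma IsSO3.mul {A B : Matrix (Fin 3) (Fin 3) K} (hA : IsSO3 A) (hB : IsSO3 B) :
    IsSO3 (A * B) := by
  refine ⟨?_, by rw [det_mul, hA.2, hB.2, one_mul]⟩
  rw [transpose_mul, Matrix.mul_assoc, ← Matrix.mul_assoc Aᵀ, hA.1, Matrix.one_mul, hB.1]

lemma IsSO3.transpose {A : Matrix (Fin 3) (Fin 3) K} (hA : IsSO3 A) : IsSO3 Aᵀ := by
  refine ⟨?_, by rw [det_transpose, hA.2]⟩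
  rw [transpose_transpose, hA.mul_transpose]

lemma IsSO3.adjugate {A : Matrix (Fin 3) (Fin 3) K} (hA : IsSO3 A) : A.adjugate = Aᵀ := by
  have h1 : A * A.adjugate = 1 := by rw [mul_adjugate, hA.2, one_smul]
  calc A.adjugate = (Aᵀ * A) * A.adjugate := by rw [hA.1, Matrix.one_mul]
    _ = Aᵀ := by rw [Matrix.mul_assoc, h1, Matrix.mul_one]

/-- The nine cofactor identities. -/
lemma IsSO3.cof {A : Matrix (Fin 3) (Fin 3) K} (hA : IsSO3 A) :
    A 1 1 * A 2 2 - A 1 2 * A 2 1 = A 0 0 ∧ A 1 2 * A 2 0 - A 1 0 * A 2 2 = A 0 1 ∧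
    A 1 0 * A 2 1 - A 1 1 * A 2 0 = A 0 2 ∧ A 0 2 * A 2 1 - A 0 1 * A 2 2 = A 1 0 ∧
    A 0 0 * A 2 2 - A 0 2 * A 2 0 = A 1 1 ∧ A 0 1 * A 2 0 - A 0 0 * A 2 1 = A 1 2 ∧
    A 0 1 * A 1 2 - A 0 2 * A 1 1 = A 2 0 ∧ A 0 2 * A 1 0 - A 0 0 * A 1 2 = A 2 1 ∧
    A 0 0 * A 1 1 - A 0 1 * A 1 0 = A 2 2 := by
  have h := hA.adjugate
  rw [adjugate_fin_three] at h
  have h00 : A 1 1 * A 2 2 - A 1 2 * A 2 1 = A 0 0 := by
    simpa using congrFun (congrFun h 0) 0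
  have h01 : -(A 0 1 * A 2 2) + A 0 2 * A 2 1 = A 1 0 := by
    simpa using congrFun (congrFun h 0) 1
  have h02 : A 0 1 * A 1 2 - A 0 2 * A 1 1 = A 2 0 := by
    simpa using congrFun (congrFun h 0) 2
  have h10 : -(A 1 0 * A 2 2) + A 1 2 * A 2 0 = A 0 1 := by
    simpa using congrFun (congrFun h 1) 0
  have h11 : A 0 0 * A 2 2 - A 0 2 * A 2 0 = A 1 1 := by
    simpa using congrFun (congrFun h 1) 1
  have h12 : -(A 0 0 * A 1 2) + A 0 2 * A 1 0 = A 2 1 := by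
    simpa using congrFun (congrFun h 1) 2
  have h20 : A 1 0 * A 2 1 - A 1 1 * A 2 0 = A 0 2 := by
    simpa using congrFun (congrFun h 2) 0
  have h21 : -(A 0 0 * A 2 1) + A 0 1 * A 2 0 = A 1 2 := by
    simpa using congrFun (congrFun h 2) 1
  have h22 : A 0 0 * A 1 1 - A 0 1 * A 1 0 = A 2 2 := by
    simpa using congrFun (congrFun h 2) 2
  refine ⟨?_, ?_, ?_, ?_, ?_, ?_, ?_, ?_, ?_⟩
  · linear_combination h00
  · linear_combination h10
  · linear_combination h20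
  · linear_combination h01
  · linear_combination h11
  · linear_combination h21
  · linear_combination h02
  · linear_combination h12
  · linear_combination h22

/-- The column orthogonality relations. -/
lemma IsSO3.col {A : Matrix (Fin 3) (Fin 3) K} (hA : IsSO3 A) :
    A 0 0 * A 0 0 + A 1 0 * A 1 0 + A 2 0 * A 2 0 = 1 ∧
    A 0 1 * A 0 1 + A 1 1 * A 1 1 + A 2 1 * A 2 1 = 1 ∧
    A 0 2 * A 0 2 + A 1 2 * A 1 2 + A 2 2 * A 2 2 = 1 ∧
    A 0 0 * A 0 1 + A 1 0 * A 1 1 + A 2 0 * A 2 1 = 0 ∧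
    A 0 0 * A 0 2 + A 1 0 * A 1 2 + A 2 0 * A 2 2 = 0 ∧
    A 0 1 * A 0 2 + A 1 1 * A 1 2 + A 2 1 * A 2 2 = 0 := by
  have h := hA.1
  have e : ∀ i j, (Aᵀ * A) i j = A 0 i * A 0 j + A 1 i * A 1 j + A 2 i * A 2 j := by
    intro i j
    simp [Matrix.mul_apply, Fin.sum_univ_three]
  refine ⟨?_, ?_, ?_, ?_, ?_, ?_⟩
  · rw [← e, h]; simp
  · rw [← e, h]; simp
  · rw [← e, h]; simp
  · rw [← e, h]; simp
  · rw [← e, h]; simp
  · rw [← e, h]; simp

/-- The row orthogonality relations. -/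
lemma IsSO3.row {A : Matrix (Fin 3) (Fin 3) K} (hA : IsSO3 A) :
    A 0 0 * A 0 0 + A 0 1 * A 0 1 + A 0 2 * A 0 2 = 1 ∧
    A 1 0 * A 1 0 + A 1 1 * A 1 1 + A 1 2 * A 1 2 = 1 ∧
    A 2 0 * A 2 0 + A 2 1 * A 2 1 + A 2 2 * A 2 2 = 1 ∧
    A 0 0 * A 1 0 + A 0 1 * A 1 1 + A 0 2 * A 1 2 = 0 ∧
    A 0 0 * A 2 0 + A 0 1 * A 2 1 + A 0 2 * A 2 2 = 0 ∧
    A 1 0 * A 2 0 + A 1 1 * A 2 1 + A 1 2 * A 2 2 = 0 :=
  hA.transpose.col

/-- The quaternion attached to a rotation matrix: `4 cos² (θ/2)` times ... the unit quaternion up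
to sign, with real part `1 + tr A`. -/
def qq (A : Matrix (Fin 3) (Fin 3) K) : ℍ[K] :=
  ⟨1 + (A 0 0 + A 1 1 + A 2 2), A 2 1 - A 1 2, A 0 2 - A 2 0, A 1 0 - A 0 1⟩

lemma qq_re (A : Matrix (Fin 3) (Fin 3) K) : (qq A).re = 1 + (A 0 0 + A 1 1 + A 2 2) := rfl
lemma qq_imI (A : Matrix (Fin 3) (Fin 3) K) : (qq A).imI = A 2 1 - A 1 2 := rfl
lemma qq_imJ (A : Matrix (Fin 3) (Fin 3) K) : (qq A).imJ = A 0 2 - A 2 0 := rfl
lemma qq_imK (A : Matrix (Fin 3) (Fin 3) K) : (qq A).imK = A 1 0 - A 0 1 := rfl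

/-- The matrix of `v ↦ q v q̄` on the imaginary quaternions. -/
def rotN (q : ℍ[K]) : Matrix (Fin 3) (Fin 3) K :=
  !![q.re ^ 2 + q.imI ^ 2 - q.imJ ^ 2 - q.imK ^ 2, 2 * (q.imI * q.imJ - q.re * q.imK),
      2 * (q.imI * q.imK + q.re * q.imJ);
    2 * (q.imI * q.imJ + q.re * q.imK), q.re ^ 2 - q.imI ^ 2 + q.imJ ^ 2 - q.imK ^ 2,
      2 * (q.imJ * q.imK - q.re * q.imI);
    2 * (q.imI * q.imK - q.re * q.imJ), 2 * (q.imJ * q.imK + q.re * q.imI),
      q.re ^ 2 - q.imI ^ 2 - q.imJ ^ 2 + q.imK ^ 2]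

lemma rotN_mul (p q : ℍ[K]) : rotN (p * q) = rotN p * rotN q := by
  ext i j
  fin_cases i <;> fin_cases j <;>
    simp [rotN, Matrix.mul_apply, Fin.sum_univ_three] <;> ring

lemma rotN_one : rotN (1 : ℍ[K]) = 1 := by
  ext i j
  fin_cases i <;> fin_cases j <;> simp [rotN]

lemma rotN_star (q : ℍ[K]) : rotN (star q) = (rotN q)ᵀ := by
  ext i j
  fin_cases i <;> fin_cases j <;> simp [rotN] <;> ring

lemma rotN_smul (r : K) (q : ℍ[K]) : rotN (r • q) = (r ^ 2) • rotN q := by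
  ext i j
  fin_cases i <;> fin_cases j <;> simp [rotN] <;> ring

lemma rotN_transpose_mul (q : ℍ[K]) : (rotN q)ᵀ * rotN q = (normSq q ^ 2) • 1 := by
  ext i j
  fin_cases i <;> fin_cases j <;>
    simp [rotN, Matrix.mul_apply, Fin.sum_univ_three, normSq_def'] <;> ring

lemma det_rotN (q : ℍ[K]) : (rotN q).det = normSq q ^ 3 := by
  rw [det_fin_three]
  simp [rotN, normSq_def']
  ring

lemma normSq_qq {A : Matrix (Fin 3) (Fin 3) K} (hA : IsSO3 A) :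
    normSq (qq A) = 4 * (1 + (A 0 0 + A 1 1 + A 2 2)) := by
  obtain ⟨k00, k01, k02, k10, k11, k12, k20, k21, k22⟩ := hA.cof
  obtain ⟨c00, c11, c22, c01, c02, c12⟩ := hA.col
  rw [normSq_def']
  simp only [qq]
  linear_combination c00 + c11 + c22 + 2 * k00 + 2 * k11 + 2 * k22

lemma rotN_qq {A : Matrix (Fin 3) (Fin 3) K} (hA : IsSO3 A) :
    rotN (qq A) = (4 * (1 + (A 0 0 + A 1 1 + A 2 2))) • A := by
  obtain ⟨k00, k01, k02, k10, k11, k12, k20, k21, k22⟩ := hA.cof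
  obtain ⟨c00, c11, c22, c01, c02, c12⟩ := hA.col
  obtain ⟨r00, r11, r22, r01, r02, r12⟩ := hA.row
  ext i j
  fin_cases i <;> fin_cases j
  · simp [rotN, qq]
    linear_combination - c00 + c11 + c22 - 2 * r00 + 2 * k00 - 2 * k11 - 2 * k22
  · simp [rotN, qq]
    linear_combination 2 * (k10 - c01 - r01 + k01)
  · simp [rotN, qq]
    linear_combination 2 * (k02 - r02 - c02 + k20)
  · simp [rotN, qq]
    linear_combination 2 * (k10 - c01 - r01 + k01)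
  · simp [rotN, qq]
    linear_combination c00 - c11 + c22 - 2 * r11 - 2 * k00 + 2 * k11 - 2 * k22
  · simp [rotN, qq]
    linear_combination 2 * (k21 - c12 - r12 + k12)
  · simp [rotN, qq]
    linear_combination 2 * (k02 - r02 - c02 + k20)
  · simp [rotN, qq]
    linear_combination 2 * (k21 - c12 - r12 + k12)
  · simp [rotN, qq]
    linear_combination c00 + c11 - c22 - 2 * r22 - 2 * k00 - 2 * k11 + 2 * k22

/-- The action of a `3 × 3` matrix on quaternions (on the imaginary part). -/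
def actQ (A : Matrix (Fin 3) (Fin 3) K) (q : ℍ[K]) : ℍ[K] :=
  ⟨q.re, A 0 0 * q.imI + A 0 1 * q.imJ + A 0 2 * q.imK,
    A 1 0 * q.imI + A 1 1 * q.imJ + A 1 2 * q.imK,
    A 2 0 * q.imI + A 2 1 * q.imJ + A 2 2 * q.imK⟩

@[simp] lemma actQ_re (A : Matrix (Fin 3) (Fin 3) K) (q : ℍ[K]) : (actQ A q).re = q.re := rfl
lemma actQ_imI (A : Matrix (Fin 3) (Fin 3) K) (q : ℍ[K]) :
    (actQ A q).imI = A 0 0 * q.imI + A 0 1 * q.imJ + A 0 2 * q.imK := rfl
lemma actQ_imJ (A : Matrix (Fin 3) (Fin 3) K) (q : ℍ[K]) :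
    (actQ A q).imJ = A 1 0 * q.imI + A 1 1 * q.imJ + A 1 2 * q.imK := rfl
lemma actQ_imK (A : Matrix (Fin 3) (Fin 3) K) (q : ℍ[K]) :
    (actQ A q).imK = A 2 0 * q.imI + A 2 1 * q.imJ + A 2 2 * q.imK := rfl

lemma actQ_mul {A : Matrix (Fin 3) (Fin 3) K} (hA : IsSO3 A) (p q : ℍ[K]) :
    actQ A (p * q) = actQ A p * actQ A q := by
  obtain ⟨k00, k01, k02, k10, k11, k12, k20, k21, k22⟩ := hA.cof
  obtain ⟨c00, c11, c22, c01, c02, c12⟩ := hA.col
  ext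
  · simp only [actQ_re, re_mul, actQ_imI, actQ_imJ, actQ_imK]
    linear_combination p.imI * q.imI * c00 + p.imJ * q.imJ * c11 + p.imK * q.imK * c22 +
      (p.imI * q.imJ + p.imJ * q.imI) * c01 + (p.imI * q.imK + p.imK * q.imI) * c02 +
      (p.imJ * q.imK + p.imK * q.imJ) * c12
  · simp only [actQ_re, imI_mul, imJ_mul, imK_mul, actQ_imI, actQ_imJ, actQ_imK]
    linear_combination - (p.imJ * q.imK - p.imK * q.imJ) * k00 -
      (p.imK * q.imI - p.imI * q.imK) * k01 - (p.imI * q.imJ - p.imJ * q.imI) * k02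
  · simp only [actQ_re, imI_mul, imJ_mul, imK_mul, actQ_imI, actQ_imJ, actQ_imK]
    linear_combination - (p.imJ * q.imK - p.imK * q.imJ) * k10 -
      (p.imK * q.imI - p.imI * q.imK) * k11 - (p.imI * q.imJ - p.imJ * q.imI) * k12
  · simp only [actQ_re, imI_mul, imJ_mul, imK_mul, actQ_imI, actQ_imJ, actQ_imK]
    linear_combination - (p.imJ * q.imK - p.imK * q.imJ) * k20 -
      (p.imK * q.imI - p.imI * q.imK) * k21 - (p.imI * q.imJ - p.imJ * q.imI) * k22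

lemma actQ_one_right (A : Matrix (Fin 3) (Fin 3) K) : actQ A 1 = 1 := by
  ext <;> simp [actQ]

lemma actQ_star (A : Matrix (Fin 3) (Fin 3) K) (q : ℍ[K]) : actQ A (star q) = star (actQ A q) := by
  ext <;> simp only [actQ_re, actQ_imI, actQ_imJ, actQ_imK, re_star, imI_star, imJ_star, imK_star]
    <;> ring

lemma actQ_smul (A : Matrix (Fin 3) (Fin 3) K) (r : K) (q : ℍ[K]) :
    actQ A (r • q) = r • actQ A q := by
  ext <;> simp only [actQ_re, actQ_imI, actQ_imJ, actQ_imK, re_smul, imI_smul, imJ_smul, imK_smul,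
    smul_eq_mul] <;> ring

lemma actQ_matmul (A B : Matrix (Fin 3) (Fin 3) K) (q : ℍ[K]) :
    actQ (A * B) q = actQ A (actQ B q) := by
  ext <;> simp [actQ, Matrix.mul_apply, Fin.sum_univ_three] <;> ring

lemma actQ_one_left (q : ℍ[K]) : actQ (1 : Matrix (Fin 3) (Fin 3) K) q = q := by
  ext <;> simp [actQ]

lemma normSq_actQ {A : Matrix (Fin 3) (Fin 3) K} (hA : IsSO3 A) (q : ℍ[K]) :
    normSq (actQ A q) = normSq q := by
  obtain ⟨c00, c11, c22, c01, c02, c12⟩ := hA.col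
  rw [normSq_def', normSq_def']
  simp only [actQ_re, actQ_imI, actQ_imJ, actQ_imK]
  linear_combination q.imI ^ 2 * c00 + q.imJ ^ 2 * c11 + q.imK ^ 2 * c22 +
    2 * q.imI * q.imJ * c01 + 2 * q.imI * q.imK * c02 + 2 * q.imJ * q.imK * c12

lemma qq_conj {A : Matrix (Fin 3) (Fin 3) K} (hA : IsSO3 A) (X : Matrix (Fin 3) (Fin 3) K) :
    qq (A * X * Aᵀ) = actQ A (qq X) := by
  obtain ⟨k00, k01, k02, k10, k11, k12, k20, k21, k22⟩ := hA.cof
  obtain ⟨c00, c11, c22, c01, c02, c12⟩ := hA.col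
  ext
  · simp only [actQ_re, qq_re, Matrix.mul_apply, Fin.sum_univ_three, transpose_apply]
    linear_combination X 0 0 * c00 + X 1 1 * c11 + X 2 2 * c22 + (X 0 1 + X 1 0) * c01 +
      (X 0 2 + X 2 0) * c02 + (X 1 2 + X 2 1) * c12
  · simp only [actQ_imI, qq_imI, qq_imJ, qq_imK, Matrix.mul_apply, Fin.sum_univ_three,
      transpose_apply]
    linear_combination (X 2 1 - X 1 2) * k00 + (X 0 2 - X 2 0) * k01 + (X 1 0 - X 0 1) * k02
  · simp only [actQ_imJ, qq_imI, qq_imJ, qq_imK, Matrix.mul_apply, Fin.sum_univ_three,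
      transpose_apply]
    linear_combination (X 2 1 - X 1 2) * k10 + (X 0 2 - X 2 0) * k11 + (X 1 0 - X 0 1) * k12
  · simp only [actQ_imK, qq_imI, qq_imJ, qq_imK, Matrix.mul_apply, Fin.sum_univ_three,
      transpose_apply]
    linear_combination (X 2 1 - X 1 2) * k20 + (X 0 2 - X 2 0) * k21 + (X 1 0 - X 0 1) * k22

end Ring

section Real

/-- The trace. -/
def tr3 {K : Type*} [Add K] (X : Matrix (Fin 3) (Fin 3) K) : K := X 0 0 + X 1 1 + X 2 2

/-- The lift of a rotation with `tr ≠ -1` to a quaternion with real part one. -/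
def lift (X : Matrix (Fin 3) (Fin 3) ℝ) : ℍ[ℝ] := (1 + tr3 X)⁻¹ • qq X

/-- The rotation matrix of a nonzero quaternion. -/
def rot (q : ℍ[ℝ]) : Matrix (Fin 3) (Fin 3) ℝ := (normSq q)⁻¹ • rotN q

lemma lift_re {X : Matrix (Fin 3) (Fin 3) ℝ} (h : 1 + tr3 X ≠ 0) : (lift X).re = 1 := by
  simp only [lift, re_smul, smul_eq_mul]
  exact inv_mul_cancel₀ h

lemma normSq_lift {X : Matrix (Fin 3) (Fin 3) ℝ} (hX : IsSO3 X) (h : 1 + tr3 X ≠ 0) :
    normSq (lift X) = 4 * (1 + tr3 X)⁻¹ := by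
  rw [lift, normSq_smul, normSq_qq hX, ← tr3]
  field_simp

lemma rot_lift {X : Matrix (Fin 3) (Fin 3) ℝ} (hX : IsSO3 X) (h : 1 + tr3 X ≠ 0) :
    rot (lift X) = X := by
  rw [rot, normSq_lift hX h, lift, rotN_smul, rotN_qq hX, ← tr3, smul_smul, smul_smul, mul_assoc]
  have : (4 * (1 + tr3 X)⁻¹)⁻¹ * ((1 + tr3 X)⁻¹ ^ 2 * (4 * (1 + tr3 X))) = 1 := by
    field_simp
  rw [this, one_smul]

lemma isSO3_rot {q : ℍ[ℝ]} (hq : q ≠ 0) : IsSO3 (rot q) := by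
  have h : normSq q ≠ 0 := normSq_ne_zero.mpr hq
  constructor
  · rw [rot, transpose_smul, Matrix.smul_mul, Matrix.mul_smul, rotN_transpose_mul, smul_smul,
      smul_smul, mul_assoc]
    have : (normSq q)⁻¹ * ((normSq q)⁻¹ * normSq q ^ 2) = 1 := by field_simp
    rw [this, one_smul]
  · rw [rot, det_smul, det_rotN]
    simp only [Fintype.card_fin]
    rw [← mul_pow, inv_mul_cancel₀ h, one_pow]

lemma ne_zero_of_re {q : ℍ[ℝ]} (hq : q.re = 1) : q ≠ 0 := by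
  rintro rfl
  simp at hq

lemma rot_apply (q : ℍ[ℝ]) (i j : Fin 3) : rot q i j = (normSq q)⁻¹ * rotN q i j := rfl

lemma one_add_tr3_rot {q : ℍ[ℝ]} (hq : q.re = 1) : 1 + tr3 (rot q) = 4 * (normSq q)⁻¹ := by
  have h : normSq q ≠ 0 := normSq_ne_zero.mpr (ne_zero_of_re hq)
  have e : normSq q = 1 + q.imI ^ 2 + q.imJ ^ 2 + q.imK ^ 2 := by
    rw [normSq_def', hq]; ring
  simp only [tr3, rot_apply]
  simp [rotN, hq]
  field_simp
  rw [e]
  ring

lemma qq_rot {q : ℍ[ℝ]} (hq : q.re = 1) : qq (rot q) = (4 * (normSq q)⁻¹) • q := by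
  have h : normSq q ≠ 0 := normSq_ne_zero.mpr (ne_zero_of_re hq)
  ext
  · rw [qq_re, ← tr3, one_add_tr3_rot hq]
    simp [hq]
  · rw [qq_imI]
    simp only [rot_apply, imI_smul, smul_eq_mul]
    simp [rotN, hq]
    ring
  · rw [qq_imJ]
    simp only [rot_apply, imJ_smul, smul_eq_mul]
    simp [rotN, hq]
    ring
  · rw [qq_imK]
    simp only [rot_apply, imK_smul, smul_eq_mul]
    simp [rotN, hq]
    ring

lemma lift_rot {q : ℍ[ℝ]} (hq : q.re = 1) : lift (rot q) = q := by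
  have h : normSq q ≠ 0 := normSq_ne_zero.mpr (ne_zero_of_re hq)
  rw [lift, one_add_tr3_rot hq, qq_rot hq, smul_smul, inv_mul_cancel₀ (by positivity), one_smul]

lemma tr3_conj {A : Matrix (Fin 3) (Fin 3) ℝ} (hA : IsSO3 A) (X : Matrix (Fin 3) (Fin 3) ℝ) :
    tr3 (A * X * Aᵀ) = tr3 X := by
  have h := congrArg (fun q : ℍ[ℝ] => q.re) (qq_conj hA X)
  simp only [actQ_re, qq_re] at h
  simp only [tr3]
  linarith

lemma lift_conj {A : Matrix (Fin 3) (Fin 3) ℝ} (hA : IsSO3 A) (X : Matrix (Fin 3) (Fin 3) ℝ) :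
    lift (A * X * Aᵀ) = actQ A (lift X) := by
  rw [lift, tr3_conj hA, qq_conj hA, lift, actQ_smul]

lemma actQ_inv {A : Matrix (Fin 3) (Fin 3) ℝ} (hA : IsSO3 A) (q : ℍ[ℝ]) :
    actQ A q⁻¹ = (actQ A q)⁻¹ := by
  rw [Quaternion.inv_def, Quaternion.inv_def, actQ_smul, actQ_star, normSq_actQ hA]

/-- The commutator in the quaternions. -/
def cm (p q : ℍ[ℝ]) : ℍ[ℝ] := p * q * p⁻¹ * q⁻¹

lemma actQ_cm {A : Matrix (Fin 3) (Fin 3) ℝ} (hA : IsSO3 A) (p q : ℍ[ℝ]) :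
    actQ A (cm p q) = cm (actQ A p) (actQ A q) := by
  simp only [cm, actQ_mul hA, actQ_inv hA]

lemma normSq_cm {p q : ℍ[ℝ]} (hp : p ≠ 0) (hq : q ≠ 0) : normSq (cm p q) = 1 := by
  have h1 : normSq p ≠ 0 := normSq_ne_zero.mpr hp
  have h2 : normSq q ≠ 0 := normSq_ne_zero.mpr hq
  simp only [cm, map_mul, map_inv₀]
  field_simp

lemma rotN_inv {p : ℍ[ℝ]} (_hp : p ≠ 0) : rotN p⁻¹ = (normSq p)⁻¹ • (rot p)ᵀ := by
  rw [Quaternion.inv_def, rotN_smul, rotN_star, rot, transpose_smul, smul_smul, sq]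

lemma rotN_cm {p q : ℍ[ℝ]} (hp : p ≠ 0) (hq : q ≠ 0) :
    rotN (cm p q) = rot p * rot q * (rot p)ᵀ * (rot q)ᵀ := by
  rw [cm, rotN_mul, rotN_mul, rotN_mul, rotN_inv hp, rotN_inv hq]
  simp only [rot, transpose_smul, Matrix.smul_mul, Matrix.mul_smul, smul_smul]
  congr 1
  ring

/-- The product of the commutators `[u (i, false), u (i, true)]`. -/
def cmProd {n : ℕ} (u : Fin n × Bool → ℍ[ℝ]) : ℍ[ℝ] :=
  (List.ofFn fun i : Fin n => cm (u (i, false)) (u (i, true))).prod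

/-- The product of the matrix commutators. -/
def relProd {n : ℕ} (X : Fin n × Bool → Matrix (Fin 3) (Fin 3) ℝ) : Matrix (Fin 3) (Fin 3) ℝ :=
  (List.ofFn fun i : Fin n =>
    X (i, false) * X (i, true) * (X (i, false))ᵀ * (X (i, true))ᵀ).prod

lemma actQ_list_prod {A : Matrix (Fin 3) (Fin 3) ℝ} (hA : IsSO3 A) (l : List ℍ[ℝ]) :
    actQ A l.prod = (l.map (actQ A)).prod := by
  induction l with
  | nil => simp [actQ_one_right]
  | cons a l ih => simp [actQ_mul hA, ih]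

lemma actQ_cmProd {A : Matrix (Fin 3) (Fin 3) ℝ} (hA : IsSO3 A) {n : ℕ}
    (u : Fin n × Bool → ℍ[ℝ]) : actQ A (cmProd u) = cmProd (fun k => actQ A (u k)) := by
  rw [cmProd, actQ_list_prod hA, List.map_ofFn, cmProd]
  congr 2
  funext i
  simp only [Function.comp_apply]
  exact actQ_cm hA _ _

lemma normSq_cmProd {n : ℕ} {u : Fin n × Bool → ℍ[ℝ]} (hu : ∀ k, u k ≠ 0) :
    normSq (cmProd u) = 1 := by
  rw [cmProd, map_list_prod, List.map_ofFn]
  apply List.prod_eq_one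
  intro x hx
  rw [List.mem_ofFn] at hx
  obtain ⟨i, rfl⟩ := hx
  exact normSq_cm (hu _) (hu _)

lemma rotN_list_prod (l : List ℍ[ℝ]) : rotN l.prod = (l.map rotN).prod := by
  induction l with
  | nil => simp [rotN_one]
  | cons a l ih => simp [rotN_mul, ih]

lemma rotN_cmProd {n : ℕ} {u : Fin n × Bool → ℍ[ℝ]} (hu : ∀ k, u k ≠ 0) :
    rotN (cmProd u) = relProd (fun k => rot (u k)) := by
  rw [cmProd, rotN_list_prod, List.map_ofFn, relProd]
  congr 2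
  funext i
  simp only [Function.comp_apply]
  exact rotN_cm (hu _) (hu _)

lemma rotN_eq_one_iff {c : ℍ[ℝ]} (hc : normSq c = 1) :
    rotN c = 1 ↔ c.imI = 0 ∧ c.imJ = 0 ∧ c.imK = 0 := by
  rw [normSq_def'] at hc
  constructor
  · intro h
    have h00 : c.re ^ 2 + c.imI ^ 2 - c.imJ ^ 2 - c.imK ^ 2 = 1 := by
      simpa [rotN] using congrFun (congrFun h 0) 0
    have h11 : c.re ^ 2 - c.imI ^ 2 + c.imJ ^ 2 - c.imK ^ 2 = 1 := by
      simpa [rotN] using congrFun (congrFun h 1) 1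
    have h22 : c.re ^ 2 - c.imI ^ 2 - c.imJ ^ 2 + c.imK ^ 2 = 1 := by
      simpa [rotN] using congrFun (congrFun h 2) 2
    refine ⟨?_, ?_, ?_⟩
    · have : c.imI ^ 2 = 0 := by nlinarith [sq_nonneg c.imI, sq_nonneg c.imJ, sq_nonneg c.imK]
      exact pow_eq_zero_iff (two_ne_zero) |>.mp this
    · have : c.imJ ^ 2 = 0 := by nlinarith [sq_nonneg c.imI, sq_nonneg c.imJ, sq_nonneg c.imK]
      exact pow_eq_zero_iff (two_ne_zero) |>.mp this
    · have : c.imK ^ 2 = 0 := by nlinarith [sq_nonneg c.imI, sq_nonneg c.imJ, sq_nonneg c.imK]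
      exact pow_eq_zero_iff (two_ne_zero) |>.mp this
  · rintro ⟨h1, h2, h3⟩
    simp only [h1, h2, h3] at hc
    have hc' : c.re ^ 2 = 1 := by linarith
    ext i j
    fin_cases i <;> fin_cases j <;> simp [rotN, h1, h2, h3, hc']

/-- `cmProd` of lifts is `±1` iff the product of matrix commutators is trivial. -/
lemma cmProd_real_iff {n : ℕ} {u : Fin n × Bool → ℍ[ℝ]} (hu : ∀ k, u k ≠ 0) :
    relProd (fun k => rot (u k)) = 1 ↔
      (cmProd u).imI = 0 ∧ (cmProd u).imJ = 0 ∧ (cmProd u).imK = 0 := by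
  rw [← rotN_cmProd hu]
  exact rotN_eq_one_iff (normSq_cmProd hu)

lemma eq_one_or_neg_one {c : ℍ[ℝ]} (hc : normSq c = 1) (h1 : c.imI = 0) (h2 : c.imJ = 0)
    (h3 : c.imK = 0) : c = 1 ∨ c = -1 := by
  rw [normSq_def', h1, h2, h3] at hc
  have hc' : (c.re - 1) * (c.re + 1) = 0 := by linarith
  rcases mul_eq_zero.mp hc' with h | h
  · left
    ext <;> simp [h1, h2, h3]
    linarith
  · right
    ext <;> simp [h1, h2, h3]
    linarith

end Real

end Pool.Agent.H70.CharVar
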