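import Pool.Agent.H70.CharVar.Param

/-!
# Parametrization of tuples of quaternions solving the surface relation
-/

set_option autoImplicit false

open Quaternion Matrix

noncomputable section

namespace Pool.Agent.H70.CharVar

/-- The parameter space. -/
abbrev PV (m : ℕ) : Type := (Fin 6 → ℝ) × (Fin m × Bool → Fin 3 → ℝ)

variable {m : ℕ}

/-- All but the first pair of the tuple with given parameters. -/
def tailS (v : PV m) : Fin (m + 1) × Bool → ℍ[ℝ] := fun k =>
  Fin.cases (motive := fun _ => ℍ[ℝ])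
    (bif k.2 then ⟨1, v.1 1, v.1 2, 0⟩ else ⟨1, |v.1 0|, 0, 0⟩)
    (fun i => ⟨1, v.2 (i, k.2) 0, v.2 (i, k.2) 1, v.2 (i, k.2) 2⟩) k.1

/-- The sign. -/
def sgn (x : ℝ) : ℝ := x / |x|

/-- The value of the first commutator. -/
def dS (v : PV m) : ℍ[ℝ] := sgn (v.1 0) • (cmProd (tailS v))⁻¹

/-- The element `b` of the first pair. -/
def bS (v : PV m) : ℍ[ℝ] := solB (dS v) (v.1 3) (v.1 4)

/-- The element `a` of the first pair. -/
def aS (v : PV m) : ℍ[ℝ] := solA (dS v) (bS v) (v.1 5)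

/-- The tuple with given parameters. -/
def SS (v : PV m) : Fin (m + 2) × Bool → ℍ[ℝ] := fun k =>
  Fin.cases (motive := fun _ => ℍ[ℝ]) (bif k.2 then bS v else aS v)
    (fun i => tailS v (i, k.2)) k.1

/-- The domain of the parameters. -/
def WW (m : ℕ) : Set (PV m) :=
  {v | v.1 0 ≠ 0 ∧ 0 < v.1 2 ∧ (dS v).imI ≠ 0 ∧ normSq (bS v + dS v * bS v).im ≠ 0}

/-- The tail of a tuple. -/
def tl {n : ℕ} (u : Fin (n + 1) × Bool → ℍ[ℝ]) : Fin n × Bool → ℍ[ℝ] := fun k => u (k.1.succ, k.2)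

lemma cmProd_succ {n : ℕ} (u : Fin (n + 1) × Bool → ℍ[ℝ]) :
    cmProd u = cm (u (0, false)) (u (0, true)) * cmProd (tl u) := by
  rw [cmProd, List.ofFn_succ, List.prod_cons]
  rfl

/-- The good tuples of quaternions. -/
structure Good (u : Fin (m + 2) × Bool → ℍ[ℝ]) : Prop where
  re : ∀ k, (u k).re = 1
  rel : (cmProd u).imI = 0 ∧ (cmProd u).imJ = 0 ∧ (cmProd u).imK = 0
  gram : normSq (nq (u (1, false)) (u (1, true))).im ≠ 0
  dz : dotI (cmProd (tl u)) (u (1, false)) ≠ 0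

/-- Reading the parameters of a normalized tuple. -/
def readC (u : Fin (m + 2) × Bool → ℍ[ℝ]) : PV m :=
  (![(cmProd u).re * (u (1, false)).imI, (u (1, true)).imI, (u (1, true)).imJ,
    (u (0, true)).imJ, (u (0, true)).imK, tf (u (0, false)) (u (0, true))],
    fun k => ![(u (k.1.succ.succ, k.2)).imI, (u (k.1.succ.succ, k.2)).imJ,
      (u (k.1.succ.succ, k.2)).imK])

lemma tailS_re (v : PV m) (k : Fin (m + 1) × Bool) : (tailS v k).re = 1 := by
  obtain ⟨i, b⟩ := k
  induction i using Fin.cases with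
  | zero => cases b <;> rfl
  | succ i => rfl

lemma tailS_ne (v : PV m) (k : Fin (m + 1) × Bool) : tailS v k ≠ 0 := ne_zero_of_re (tailS_re v k)

lemma SS_re (v : PV m) (k : Fin (m + 2) × Bool) : (SS v k).re = 1 := by
  obtain ⟨i, b⟩ := k
  induction i using Fin.cases with
  | zero =>
    cases b
    · exact solA_re _ _ _
    · exact solB_re _ _ _
  | succ i => exact tailS_re v _

lemma tl_SS (v : PV m) : tl (SS v) = tailS v := rfl

lemma sgn_sq {x : ℝ} (hx : x ≠ 0) : sgn x ^ 2 = 1 := by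
  rw [sgn, div_pow, sq_abs, div_self (pow_ne_zero 2 hx)]

lemma sgn_mul_abs {x : ℝ} (hx : x ≠ 0) : sgn x * |x| = x := by
  rw [sgn, div_mul_cancel₀]
  exact abs_ne_zero.mpr hx

lemma normSq_cmProd_tailS (v : PV m) : normSq (cmProd (tailS v)) = 1 :=
  normSq_cmProd (tailS_ne v)

lemma cmProd_tailS_ne (v : PV m) : cmProd (tailS v) ≠ 0 := by
  intro h
  have := normSq_cmProd_tailS v
  rw [h] at this
  simp at this

lemma normSq_dS {v : PV m} (hv : v.1 0 ≠ 0) : normSq (dS v) = 1 := by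
  rw [dS, normSq_smul, map_inv₀, normSq_cmProd_tailS, sgn_sq hv]
  simp

lemma aS_mul_bS {v : PV m} (hv : v ∈ WW m) : aS v * bS v = dS v * bS v * aS v :=
  solA_spec (normSq_dS hv.1) (solB_re _ _ _) (re_mul_solB hv.2.2.1 _ _) hv.2.2.2 _

lemma aS_ne (v : PV m) : aS v ≠ 0 := ne_zero_of_re (solA_re _ _ _)
lemma bS_ne (v : PV m) : bS v ≠ 0 := ne_zero_of_re (solB_re _ _ _)

lemma cm_aS_bS {v : PV m} (hv : v ∈ WW m) : cm (aS v) (bS v) = dS v := by
  rw [cm, aS_mul_bS hv, mul_assoc (dS v * bS v), mul_inv_cancel₀ (aS_ne v), mul_one, mul_assoc,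
    mul_inv_cancel₀ (bS_ne v), mul_one]

lemma cmProd_SS {v : PV m} (hv : v ∈ WW m) : cmProd (SS v) = (sgn (v.1 0) : ℍ[ℝ]) := by
  rw [cmProd_succ, tl_SS]
  change cm (aS v) (bS v) * _ = _
  rw [cm_aS_bS hv, dS, smul_mul_assoc, inv_mul_cancel₀ (cmProd_tailS_ne v)]
  ext <;> simp

lemma normPair_SS {v : PV m} (hv : v ∈ WW m) : NormPair (SS v (1, false)) (SS v (1, true)) := by
  refine ⟨?_, rfl, rfl, hv.2.1, rfl⟩
  exact abs_pos.mpr hv.1

lemma good_SS {v : PV m} (hv : v ∈ WW m) : Good (SS v) where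
  re := SS_re v
  rel := by rw [cmProd_SS hv]; simp
  gram := (normPair_SS hv).ne
  dz := by
    rw [tl_SS]
    have h1 : dotI (cmProd (tailS v)) (SS v (1, false)) = (cmProd (tailS v)).imI * |v.1 0| := by
      have e1 : (SS v (1, false)).imI = |v.1 0| := rfl
      have e2 : (SS v (1, false)).imJ = 0 := rfl
      have e3 : (SS v (1, false)).imK = 0 := rfl
      rw [dotI, e1, e2, e3]; ring
    rw [h1]
    refine mul_ne_zero ?_ (abs_ne_zero.mpr hv.1)
    have h2 := hv.2.2.1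
    rw [dS, Quaternion.inv_def, normSq_cmProd_tailS] at h2
    intro h3
    apply h2
    simp [h3]

lemma tf_SS {v : PV m} (hv : v ∈ WW m) : tf (aS v) (bS v) = v.1 5 := by
  rw [tf, conj_eq (aS_ne v) (aS_mul_bS hv)]
  have hp := hv.2.2.2
  set d := dS v with hd
  set b := bS v with hb
  set k := d * b with hk
  set P := normSq (b + k).im with hP
  have hPe : P = (b.imI + k.imI) ^ 2 + (b.imJ + k.imJ) ^ 2 + (b.imK + k.imK) ^ 2 := by
    rw [hP, normSq_im, imI_add, imJ_add, imK_add]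
  have e : aS v = 1 + P⁻¹ • (b * k - k * b) + (v.1 5) • (b + k).im := rfl
  rw [dotI, e]
  simp only [imI_add, imI_smul, imI_one, imI_sub, imI_mul, imI_im, imJ_add, imJ_smul, imJ_one,
    imJ_sub, imJ_mul, imJ_im, imK_add, imK_smul, imK_one, imK_sub, imK_mul, imK_im, smul_eq_mul]
  have hPi : P⁻¹ * P = 1 := inv_mul_cancel₀ hp
  obtain ⟨Q, hQ⟩ : ∃ Q : ℝ, P⁻¹ = Q := ⟨_, rfl⟩
  rw [hQ] at hPi ⊢
  rw [hPe] at hPi
  linear_combination (v.1 5) * hPi

lemma readC_SS {v : PV m} (hv : v ∈ WW m) : readC (SS v) = v := by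
  refine Prod.ext ?_ ?_
  · funext i
    fin_cases i
    · change (cmProd (SS v)).re * |v.1 0| = v.1 0
      rw [cmProd_SS hv, re_coe, sgn_mul_abs hv.1]
    · rfl
    · rfl
    · rfl
    · rfl
    · exact tf_SS hv
  · funext k i
    fin_cases i <;> rfl

lemma good_eq_sign {u : Fin (m + 2) × Bool → ℍ[ℝ]} (hu : Good u) :
    cmProd u = 1 ∨ cmProd u = -1 :=
  eq_one_or_neg_one (normSq_cmProd fun k => ne_zero_of_re (hu.re k)) hu.rel.1 hu.rel.2.1
    hu.rel.2.2

/-- For a good normalized tuple the parameters are in the domain and recover the tuple. -/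
lemma SS_readC {u : Fin (m + 2) × Bool → ℍ[ℝ]} (hu : Good u)
    (hn : NormPair (u (1, false)) (u (1, true))) : readC u ∈ WW m ∧ SS (readC u) = u := by
  obtain ⟨n1, n2, n3, n4, n5⟩ := hn
  obtain ⟨ε, hε1, hε2⟩ : ∃ ε : ℝ, cmProd u = (ε : ℍ[ℝ]) ∧ ε ^ 2 = 1 := by
    rcases good_eq_sign hu with h | h
    · exact ⟨1, by rw [h]; simp, by norm_num⟩
    · exact ⟨-1, by rw [h]; simp, by norm_num⟩
  have hεabs : |ε| = 1 := by
    rw [← sq_eq_sq₀ (abs_nonneg _) zero_le_one, sq_abs, hε2, one_pow]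
  have hε0 : ε ≠ 0 := by
    intro h
    rw [h] at hε2
    norm_num at hε2
  set v := readC u with hv
  have v0 : v.1 0 = ε * (u (1, false)).imI := by
    change (cmProd u).re * _ = _
    rw [hε1, re_coe]
  have hv0 : v.1 0 ≠ 0 := by
    rw [v0]
    exact mul_ne_zero hε0 n1.ne'
  have habs : |v.1 0| = (u (1, false)).imI := by
    rw [v0, abs_mul, hεabs, one_mul, abs_of_pos n1]
  have hsgn : sgn (v.1 0) = ε := by
    rw [sgn, habs, v0, mul_div_assoc, div_self n1.ne', mul_one]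
  have htail : tailS v = tl u := by
    funext k
    obtain ⟨i, b⟩ := k
    induction i using Fin.cases with
    | zero =>
      cases b
      · ext
        · exact (hu.re _).symm
        · exact habs
        · exact n2.symm
        · exact n3.symm
      · ext
        · exact (hu.re _).symm
        · rfl
        · rfl
        · exact n5.symm
    | succ i =>
      ext
      · exact (hu.re _).symm
      · rfl
      · rfl
      · rfl
  set a := u (0, false) with ha
  set b := u (0, true) with hb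
  have ha1 : a.re = 1 := hu.re _
  have hb1 : b.re = 1 := hu.re _
  have ha0 : a ≠ 0 := ne_zero_of_re ha1
  have hb0 : b ≠ 0 := ne_zero_of_re hb1
  set C := cmProd (tl u) with hC
  have hC1 : normSq C = 1 := normSq_cmProd fun k => ne_zero_of_re (hu.re _)
  have hC0 : C ≠ 0 := by
    intro h
    rw [h] at hC1
    simp at hC1
  have hD : dS v = cm a b := by
    have h1 : cm a b * C = (ε : ℍ[ℝ]) := by rw [← hε1, cmProd_succ]
    rw [dS, htail, ← hC, hsgn, ← coe_mul_eq_smul, ← h1, mul_assoc, mul_inv_cancel₀ hC0, mul_one]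
  have hDI : (dS v).imI ≠ 0 := by
    rw [dS, htail, ← hC, hsgn, Quaternion.inv_def, hC1]
    have h1 := hu.dz
    rw [← hC, dotI, n2, n3, mul_zero, mul_zero, add_zero, add_zero] at h1
    have h2 : C.imI ≠ 0 := left_ne_zero_of_mul h1
    simp [hε0, h2]
  have hrel : a * b = dS v * b * a := by
    rw [hD, cm, mul_assoc (a * b * a⁻¹), inv_mul_cancel₀ hb0, mul_one, mul_assoc (a * b),
      inv_mul_cancel₀ ha0, mul_one]
  have hre : (dS v * b).re = 1 := by rw [re_conj ha0 hrel, hb1]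
  have hbS : bS v = b := solB_eq hDI hb1 hre
  have hp : normSq (b + dS v * b).im ≠ 0 := solP_ne ha1 hb1 hrel hDI
  have haS : aS v = a := by
    rw [aS, hbS]
    exact solA_eq ha1 hb1 hrel hp
  refine ⟨⟨hv0, n4, hDI, by rw [hbS]; exact hp⟩, ?_⟩
  funext k
  obtain ⟨i, c⟩ := k
  induction i using Fin.cases with
  | zero =>
    cases c
    · exact haS
    · exact hbS
  | succ i => exact congrFun htail (i, c)

/-- The action of a matrix on tuples. -/
def actT (A : Matrix (Fin 3) (Fin 3) ℝ) {n : ℕ} (u : Fin n × Bool → ℍ[ℝ]) :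
    Fin n × Bool → ℍ[ℝ] := fun k => actQ A (u k)

lemma cmProd_actT {A : Matrix (Fin 3) (Fin 3) ℝ} (hA : IsSO3 A) {n : ℕ}
    (u : Fin n × Bool → ℍ[ℝ]) : cmProd (actT A u) = actQ A (cmProd u) := (actQ_cmProd hA u).symm

lemma dotI_actQ {A : Matrix (Fin 3) (Fin 3) ℝ} (hA : IsSO3 A) (p q : ℍ[ℝ]) :
    dotI (actQ A p) (actQ A q) = dotI p q := by
  obtain ⟨c00, c11, c22, c01, c02, c12⟩ := hA.col
  simp only [dotI, actQ_imI, actQ_imJ, actQ_imK]
  linear_combination p.imI * q.imI * c00 + p.imJ * q.imJ * c11 + p.imK * q.imK * c22 +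
    (p.imI * q.imJ + p.imJ * q.imI) * c01 + (p.imI * q.imK + p.imK * q.imI) * c02 +
    (p.imJ * q.imK + p.imK * q.imJ) * c12

lemma good_actT {A : Matrix (Fin 3) (Fin 3) ℝ} (hA : IsSO3 A) {u : Fin (m + 2) × Bool → ℍ[ℝ]}
    (hu : Good u) : Good (actT A u) where
  re k := hu.re k
  rel := by
    rw [cmProd_actT hA]
    rcases good_eq_sign hu with h | h
    · rw [h, actQ_one_right]
      simp
    · rw [h]
      simp [actQ_imI, actQ_imJ, actQ_imK]
  gram := by
    simp only [actT]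
    rw [← actQ_nq hA, ← actQ_im, normSq_actQ hA]
    exact hu.gram
  dz := by
    have h1 : tl (actT A u) = actT A (tl u) := rfl
    rw [h1, cmProd_actT hA]
    simp only [actT]
    rw [dotI_actQ hA]
    exact hu.dz

/-- The frame matrix of a tuple. -/
def frT (u : Fin (m + 2) × Bool → ℍ[ℝ]) : Matrix (Fin 3) (Fin 3) ℝ :=
  frame (u (1, false)) (u (1, true))

/-- The invariant coordinates of a tuple. -/
def psi (u : Fin (m + 2) × Bool → ℍ[ℝ]) : PV m := readC (actT (frT u) u)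

lemma isSO3_frT {u : Fin (m + 2) × Bool → ℍ[ℝ]} (hu : Good u) : IsSO3 (frT u) :=
  isSO3_frame hu.gram

lemma psi_mem {u : Fin (m + 2) × Bool → ℍ[ℝ]} (hu : Good u) : psi u ∈ WW m :=
  (SS_readC (good_actT (isSO3_frT hu) hu) (normPair_frame hu.gram)).1

lemma SS_psi {u : Fin (m + 2) × Bool → ℍ[ℝ]} (hu : Good u) : SS (psi u) = actT (frT u) u :=
  (SS_readC (good_actT (isSO3_frT hu) hu) (normPair_frame hu.gram)).2

lemma psi_SS {v : PV m} (hv : v ∈ WW m) : psi (SS v) = v := by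
  have h1 : frT (SS v) = 1 := (normPair_SS hv).frame_eq
  have h2 : actT 1 (SS v) = SS v := by
    funext k
    exact actQ_one_left _
  rw [psi, h1, h2, readC_SS hv]

lemma psi_actT {A : Matrix (Fin 3) (Fin 3) ℝ} (hA : IsSO3 A) (u : Fin (m + 2) × Bool → ℍ[ℝ]) :
    psi (actT A u) = psi u := by
  have h1 : frT (actT A u) = frT u * Aᵀ := frame_act hA _ _
  rw [psi, h1, psi]
  congr 1
  funext k
  simp only [actT]
  rw [← actQ_matmul, Matrix.mul_assoc, hA.1, Matrix.mul_one]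

/-- The sign of the first coordinate is the obstruction class. -/
lemma cmProd_eq_sgn {u : Fin (m + 2) × Bool → ℍ[ℝ]} (hu : Good u) :
    cmProd u = (sgn ((psi u).1 0) : ℍ[ℝ]) := by
  have h1 := cmProd_SS (psi_mem hu)
  rw [SS_psi hu, cmProd_actT (isSO3_frT hu)] at h1
  rcases good_eq_sign hu with h | h
  · rw [← h1, h, actQ_one_right]
  · rw [← h1, h]
    ext <;> simp [actQ_imI, actQ_imJ, actQ_imK]

end Pool.Agent.H70.CharVar
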