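import Pool.Agent.H70.CharVar.Manifold

/-!
# The open set is Zariski open
-/

set_option autoImplicit false

open Matrix Quaternion

noncomputable section

namespace Pool.Agent.H70.CharVar

section ct

variable {K : Type*} [CommRing K]

/-- The product of the denominators-free commutators `q q' q̄ q̄'`. -/
def ctProd {n : ℕ} (q : Fin n × Bool → ℍ[K]) : ℍ[K] :=
  (List.ofFn fun i : Fin n =>
    q (i, false) * q (i, true) * star (q (i, false)) * star (q (i, true))).prod

/-- The product of the norms. -/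
def nProd {n : ℕ} (q : Fin n × Bool → ℍ[K]) : K :=
  (List.ofFn fun i : Fin n => normSq (q (i, false)) * normSq (q (i, true))).prod

/-- tail over a ring -/
def tlK {n : ℕ} (u : Fin (n + 1) × Bool → ℍ[K]) : Fin n × Bool → ℍ[K] :=
  fun k => u (k.1.succ, k.2)

lemma ctProd_succ {n : ℕ} (q : Fin (n + 1) × Bool → ℍ[K]) :
    ctProd q = q (0, false) * q (0, true) * star (q (0, false)) * star (q (0, true)) *
      ctProd (tlK q) := by
  rw [ctProd, List.ofFn_succ, List.prod_cons]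
  rfl

lemma nProd_succ {n : ℕ} (q : Fin (n + 1) × Bool → ℍ[K]) :
    nProd q = normSq (q (0, false)) * normSq (q (0, true)) * nProd (tlK q) := by
  rw [nProd, List.ofFn_succ, List.prod_cons]
  rfl

end ct

lemma cm_smul {r r' : ℝ} (hr : r ≠ 0) (hr' : r' ≠ 0) (p q : ℍ[ℝ]) :
    cm (r • p) (r' • q) = cm p q := by
  rw [cm, cm, smul_inv₀, smul_inv₀]
  simp only [smul_mul_assoc, mul_smul_comm, smul_smul]
  rw [show r' ⁻¹ * (r⁻¹ * (r' * r)) = 1 by field_simp, one_smul]

lemma cm_eq {p q : ℍ[ℝ]} (hp : p ≠ 0) (hq : q ≠ 0) :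
    p * q * star p * star q = (normSq p * normSq q) • cm p q := by
  have h1 : normSq p ≠ 0 := normSq_ne_zero.mpr hp
  have h2 : normSq q ≠ 0 := normSq_ne_zero.mpr hq
  rw [cm, Quaternion.inv_def, Quaternion.inv_def]
  simp only [smul_mul_assoc, mul_smul_comm, smul_smul]
  rw [show normSq p * normSq q * ((normSq q)⁻¹ * (normSq p)⁻¹) = 1 by field_simp, one_smul]

lemma ctProd_eq {n : ℕ} {u q : Fin n × Bool → ℍ[ℝ]} {r : Fin n × Bool → ℝ} (hr : ∀ k, r k ≠ 0)
    (hq : ∀ k, q k ≠ 0) (hu : ∀ k, u k = r k • q k) : ctProd q = nProd q • cmProd u := by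
  induction n with
  | zero => simp [ctProd, nProd, cmProd]
  | succ n ih =>
    rw [ctProd_succ, nProd_succ, cmProd_succ,
      ih (u := tl u) (q := tlK q) (r := fun k => r (k.1.succ, k.2)) (fun k => hr _)
      (fun k => hq _) (fun k => hu _), cm_eq (hq _) (hq _), hu, hu, cm_smul (hr _) (hr _)]
    simp only [smul_mul_assoc, mul_smul_comm, smul_smul]
    congr 1
    ring

lemma nProd_ne {n : ℕ} {q : Fin n × Bool → ℍ[ℝ]} (hq : ∀ k, q k ≠ 0) : nProd q ≠ 0 := by
  rw [nProd]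
  apply List.prod_ne_zero
  intro h
  rw [List.mem_ofFn] at h
  obtain ⟨i, hi⟩ := h
  exact mul_ne_zero (normSq_ne_zero.mpr (hq _)) (normSq_ne_zero.mpr (hq _)) hi

lemma nq_smul (r r' : ℝ) (z w : ℍ[ℝ]) : nq (r • z) (r' • w) = (r * r') • nq z w := by
  ext
  · rw [nq_re, re_smul, nq_re, smul_zero]
  · rw [nq_imI, imI_smul, nq_imI]
    simp only [imJ_smul, imK_smul, smul_eq_mul]; ring
  · rw [nq_imJ, imJ_smul, nq_imJ]
    simp only [imI_smul, imK_smul, smul_eq_mul]; ring
  · rw [nq_imK, imK_smul, nq_imK]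
    simp only [imI_smul, imJ_smul, smul_eq_mul]; ring

variable {m : ℕ}

/-- the polynomial condition -/
def goodPoly (X : Fin (m + 2) × Bool → Matrix (Fin 3) (Fin 3) ℝ) : ℝ :=
  (∏ k, (1 + tr3 (X k))) *
    (normSq (nq (qq (X (1, false))) (qq (X (1, true)))).im *
      dotI (ctProd (tlK fun k => qq (X k))) (qq (X (1, false))))

lemma goodX_iff {X : Fin (m + 2) × Bool → Matrix (Fin 3) (Fin 3) ℝ} (hX : ∀ k, IsSO3 (X k))
    (hrel : relProd X = 1) : GoodX X ↔ goodPoly X ≠ 0 := by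
  by_cases htr : ∀ k, 1 + tr3 (X k) ≠ 0
  swap
  · have h1 : ¬ GoodX X := fun h => htr h.1
    have h2 : goodPoly X = 0 := by
      push Not at htr
      obtain ⟨k, hk⟩ := htr
      rw [goodPoly, Finset.prod_eq_zero (Finset.mem_univ k) hk, zero_mul]
    simp [h1, h2]
  have hq : ∀ k, qq (X k) ≠ 0 := by
    intro k h
    have : (qq (X k)).re = 0 := by rw [h]; simp
    rw [qq_re] at this
    exact htr k this
  have hr : ∀ k, (1 + tr3 (X k))⁻¹ ≠ 0 := fun k => inv_ne_zero (htr k)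
  have hprod : (∏ k, (1 + tr3 (X k))) ≠ 0 := Finset.prod_ne_zero_iff.mpr fun k _ => htr k
  have hct := ctProd_eq (u := tl fun k => lift (X k)) (q := tlK fun k => qq (X k))
    (r := fun k => (1 + tr3 (X (k.1.succ, k.2)))⁻¹) (fun k => hr _) (fun k => hq _) (fun k => rfl)
  have hn := nProd_ne (q := tlK fun k => qq (X k)) (fun k => hq _)
  have hdot : dotI (ctProd (tlK fun k => qq (X k))) (qq (X (1, false))) =
      (nProd (tlK fun k => qq (X k)) * (1 + tr3 (X (1, false)))) *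
        dotI (cmProd (tl fun k => lift (X k))) (lift (X (1, false))) := by
    rw [hct, dotI, dotI, lift]
    simp only [imI_smul, imJ_smul, imK_smul, smul_eq_mul]
    have := htr (1, false)
    field_simp
  have hgram : normSq (nq (lift (X (1, false))) (lift (X (1, true)))).im =
      ((1 + tr3 (X (1, false)))⁻¹ * (1 + tr3 (X (1, true)))⁻¹) ^ 2 *
      normSq (nq (qq (X (1, false))) (qq (X (1, true)))).im := by
    rw [lift, lift, nq_smul, normSq_im, normSq_im]
    simp only [imI_smul, imJ_smul, imK_smul, smul_eq_mul]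
    ring
  constructor
  · intro h
    rw [goodPoly]
    refine mul_ne_zero hprod (mul_ne_zero ?_ ?_)
    · have := h.2.gram
      rw [hgram] at this
      exact right_ne_zero_of_mul this
    · rw [hdot]
      exact mul_ne_zero (mul_ne_zero hn (htr _)) h.2.dz
  · intro h
    rw [goodPoly] at h
    have h1 := right_ne_zero_of_mul h
    have h2 := left_ne_zero_of_mul h1
    have h3 := right_ne_zero_of_mul h1
    refine ⟨htr, ⟨fun k => lift_re (htr k), ?_, ?_, ?_⟩⟩
    · refine (cmProd_real_iff (u := fun k => lift (X k))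
        (fun k => ne_zero_of_re (lift_re (htr k)))).mp ?_
      have : (fun k => rot (lift (X k))) = X := funext fun k => rot_lift (hX k) (htr k)
      rw [this, hrel]
    · rw [hgram]
      exact mul_ne_zero (pow_ne_zero 2 (mul_ne_zero (hr _) (hr _))) h2
    · rw [hdot] at h3
      exact right_ne_zero_of_mul h3

/-- polynomial functions -/
def IsPoly {σ : Type} (f : (σ → ℝ) → ℝ) : Prop := ∃ p : MvPolynomial σ ℝ, ∀ x, MvPolynomial.eval x p = f x

/-- polynomial quaternion valued functions -/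
def IsPolyH {σ : Type} (f : (σ → ℝ) → ℍ[ℝ]) : Prop :=
  IsPoly (fun x => (f x).re) ∧ IsPoly (fun x => (f x).imI) ∧ IsPoly (fun x => (f x).imJ) ∧
    IsPoly (fun x => (f x).imK)

section poly

variable {σ : Type} {f g : (σ → ℝ) → ℝ}

lemma IsPoly.const (c : ℝ) : IsPoly (fun _ : σ → ℝ => c) := ⟨MvPolynomial.C c, fun x => by simp⟩
lemma IsPoly.var (i : σ) : IsPoly (fun x : σ → ℝ => x i) := ⟨MvPolynomial.X i, fun x => by simp⟩
lemma IsPoly.add (hf : IsPoly f) (hg : IsPoly g) : IsPoly (fun x => f x + g x) := by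
  obtain ⟨p, hp⟩ := hf
  obtain ⟨q, hq⟩ := hg
  exact ⟨p + q, fun x => by rw [map_add, hp, hq]⟩
lemma IsPoly.sub (hf : IsPoly f) (hg : IsPoly g) : IsPoly (fun x => f x - g x) := by
  obtain ⟨p, hp⟩ := hf
  obtain ⟨q, hq⟩ := hg
  exact ⟨p - q, fun x => by rw [map_sub, hp, hq]⟩
lemma IsPoly.mul (hf : IsPoly f) (hg : IsPoly g) : IsPoly (fun x => f x * g x) := by
  obtain ⟨p, hp⟩ := hf
  obtain ⟨q, hq⟩ := hg
  exact ⟨p * q, fun x => by rw [map_mul, hp, hq]⟩
lemma IsPoly.neg (hf : IsPoly f) : IsPoly (fun x => - f x) := by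
  obtain ⟨p, hp⟩ := hf
  exact ⟨- p, fun x => by rw [map_neg, hp]⟩
lemma IsPoly.prod {κ : Type} [Fintype κ] {F : κ → (σ → ℝ) → ℝ} (h : ∀ k, IsPoly (F k)) :
    IsPoly (fun x => ∏ k, F k x) := by
  choose p hp using h
  exact ⟨∏ k, p k, fun x => by rw [map_prod]; exact Finset.prod_congr rfl fun k _ => hp k x⟩

variable {F G : (σ → ℝ) → ℍ[ℝ]}

lemma IsPolyH.mul (hF : IsPolyH F) (hG : IsPolyH G) : IsPolyH (fun x => F x * G x) := by
  obtain ⟨a, b, c, d⟩ := hF
  obtain ⟨a', b', c', d'⟩ := hG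
  refine ⟨?_, ?_, ?_, ?_⟩
  · simp only [re_mul]
    exact (((a.mul a').sub (b.mul b')).sub (c.mul c')).sub (d.mul d')
  · simp only [imI_mul]
    exact (((a.mul b').add (b.mul a')).add (c.mul d')).sub (d.mul c')
  · simp only [imJ_mul]
    exact (((a.mul c').sub (b.mul d')).add (c.mul a')).add (d.mul b')
  · simp only [imK_mul]
    exact (((a.mul d').add (b.mul c')).sub (c.mul b')).add (d.mul a')

lemma IsPolyH.star (hF : IsPolyH F) : IsPolyH (fun x => star (F x)) := by
  obtain ⟨a, b, c, d⟩ := hF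
  refine ⟨?_, ?_, ?_, ?_⟩
  · simpa using a
  · simpa using b.neg
  · simpa using c.neg
  · simpa using d.neg

lemma IsPolyH.ctProd {n : ℕ} {Q : (σ → ℝ) → Fin n × Bool → ℍ[ℝ]}
    (h : ∀ k, IsPolyH (fun x => Q x k)) : IsPolyH (fun x => ctProd (Q x)) := by
  induction n with
  | zero =>
    simp only [CharVar.ctProd, List.ofFn_zero, List.prod_nil]
    exact ⟨IsPoly.const 1, IsPoly.const 0, IsPoly.const 0, IsPoly.const 0⟩
  | succ n ih =>
    simp only [ctProd_succ]
    exact ((((h _).mul (h _)).mul (h _).star).mul (h _).star).mul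
      (ih (Q := fun x => tlK (Q x)) fun k => h _)

lemma isPolyH_qq {X : (σ → ℝ) → Matrix (Fin 3) (Fin 3) ℝ} (h : ∀ i j, IsPoly (fun x => X x i j)) :
    IsPolyH (fun x => qq (X x)) :=
  ⟨(IsPoly.const 1).add (((h _ _).add (h _ _)).add (h _ _)), (h _ _).sub (h _ _),
    (h _ _).sub (h _ _), (h _ _).sub (h _ _)⟩

lemma isPoly_goodPoly {X : (σ → ℝ) → Fin (m + 2) × Bool → Matrix (Fin 3) (Fin 3) ℝ}
    (h : ∀ k i j, IsPoly (fun x => X x k i j)) : IsPoly (fun x => goodPoly (X x)) := by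
  have hq : ∀ k, IsPolyH (fun x => qq (X x k)) := fun k => isPolyH_qq (h k)
  have ht : ∀ k, IsPoly (fun x => 1 + tr3 (X x k)) := fun k =>
    (IsPoly.const 1).add (((h _ _ _).add (h _ _ _)).add (h _ _ _))
  obtain ⟨a, b, c, d⟩ := hq (1, false)
  obtain ⟨a', b', c', d'⟩ := hq (1, true)
  obtain ⟨e0, e1, e2, e3⟩ := IsPolyH.ctProd (Q := fun x => tlK fun k => qq (X x k)) (fun k => hq _)
  refine (IsPoly.prod ht).mul (IsPoly.mul ?_ ?_)
  · simp only [normSq_im, nq_imI, nq_imJ, nq_imK]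
    have g1 := (c.mul d').sub (d.mul c')
    have g2 := (d.mul b').sub (b.mul d')
    have g3 := (b.mul c').sub (c.mul b')
    simp only [sq]
    exact ((g1.mul g1).add (g2.mul g2)).add (g3.mul g3)
  · exact ((e1.mul b).add (e2.mul c)).add (e3.mul d)

end poly

theorem isZariskiOpen_Omega (m : ℕ) : IsZariskiOpen (Omega m) := by
  have h1 : IsPoly (fun x : EE m => goodPoly (XP x)) := isPoly_goodPoly fun k i j =>
    (IsPoly.var _).add ((IsPoly.const _).mul (IsPoly.var _))
  have h2 : IsPoly (fun x : EE m => goodPoly (XM x)) := isPoly_goodPoly fun k i j =>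
    (IsPoly.var _).sub ((IsPoly.const _).mul (IsPoly.var _))
  obtain ⟨p, hp⟩ := h1.mul h2
  refine ⟨{p}, ?_⟩
  ext ρ
  rw [Set.mem_ofPred_eq]
  simp only [Set.mem_singleton_iff, exists_eq_left]
  rw [hp]
  simp only [XP_coords, XM_coords]
  rw [mul_ne_zero_iff, ← goodX_iff (isSO3_tP ρ) (relProd_tP ρ),
    ← goodX_iff (isSO3_tM ρ) (relProd_tM ρ)]
  rfl

end Pool.Agent.H70.CharVar
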